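import Pool.Agent.Helper46.DFJ.Geo
import Pool.Agent.Helper95.DFJ.St.A4

/-!
For each of the twelve twists the crossed homomorphisms at z = -1 vanishing at t are zero.
-/

set_option linter.unusedSimpArgs false
set_option linter.unusedVariables false
set_option linter.unusedSectionVars false

namespace Helper46.DFJ

open Complex

/-- cube root of unity -/
noncomputable def omg : ℂ := ⟨-1/2, Real.sqrt 3 / 2⟩

theorem normSq_omg : normSq omg = 1 := by
  have h : Real.sqrt 3 * Real.sqrt 3 = 3 := Real.mul_self_sqrt (by norm_num)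
  rw [normSq_apply]
  show (-1/2 : ℝ) * (-1/2) + (Real.sqrt 3 / 2) * (Real.sqrt 3 / 2) = 1
  linarith

theorem omg_sq : omg * omg = (starRingEnd ℂ) omg := by
  have h : Real.sqrt 3 * Real.sqrt 3 = 3 := Real.mul_self_sqrt (by norm_num)
  apply Complex.ext
  · rw [mul_re, conj_re]
    show (-1/2 : ℝ) * (-1/2) - (Real.sqrt 3 / 2) * (Real.sqrt 3 / 2) = -1/2
    linarith
  · rw [mul_im, conj_im]
    show (-1/2 : ℝ) * (Real.sqrt 3 / 2) + (Real.sqrt 3 / 2) * (-1/2) = -(Real.sqrt 3 / 2)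
    ring

theorem omg_cube : omg ^ 3 = 1 := by
  have : omg ^ 3 = (omg * omg) * omg := by ring
  rw [this, omg_sq, mul_comm, Complex.mul_conj, normSq_omg, ofReal_one]

def omB : CB := ⟨⟨-170141183460469231731687303715884105728, 294693174213430241384087455685767077316⟩, 1⟩

theorem mem_omB : omB.Mem omg := by
  unfold CB.Mem omB
  have h1 : (2 * (294693174213430241384087455685767077316 : ℝ) / (SC : ℝ)) ≤ Real.sqrt 3 := by
    apply Real.le_sqrt_of_sq_le
    norm_num [SC]
  have h2 : Real.sqrt 3 ≤ (2 * (294693174213430241384087455685767077317 : ℝ) / (SC : ℝ)) := by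
    apply Real.sqrt_le_iff.2
    constructor <;> norm_num [SC]
  have e : (SC : ℂ) * omg - GI.toC ⟨-170141183460469231731687303715884105728, 294693174213430241384087455685767077316⟩ = (((SC : ℝ) * (Real.sqrt 3 / 2) - 294693174213430241384087455685767077316 : ℝ) : ℂ) * I := by
    apply Complex.ext
    · simp [GI.toC, omg, SC]; norm_num
    · simp [GI.toC, omg, SC]
  show ‖(SC : ℂ) * omg - GI.toC ⟨-170141183460469231731687303715884105728, 294693174213430241384087455685767077316⟩‖ ≤ ((1 : ℕ) : ℝ)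
  rw [e, norm_mul, Complex.norm_I, mul_one, Complex.norm_real, Real.norm_eq_abs, abs_le]
  have hS : (0 : ℝ) < (SC : ℝ) := GI.SCpos
  have h3 : (SC : ℝ) * (2 * (294693174213430241384087455685767077316 : ℝ) / (SC : ℝ)) ≤ SC * Real.sqrt 3 := mul_le_mul_of_nonneg_left h1 hS.le
  have h4 : (SC : ℝ) * Real.sqrt 3 ≤ SC * (2 * (294693174213430241384087455685767077317 : ℝ) / (SC : ℝ)) := mul_le_mul_of_nonneg_left h2 hS.le
  rw [mul_div_cancel₀ _ hS.ne'] at h3 h4
  push_cast
  constructor <;> linarith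

/-- exact small numbers -/
def lit (a b : ℤ) : CB := ⟨⟨a * 316912650057057350374175801344, b * 316912650057057350374175801344⟩, 0⟩

def cerT : List (List (M4 CB)) :=
  [[⟨lit 0 0, lit 0 0, lit 0 0, lit 0 0⟩,
    ⟨lit 0 0, lit 0 0, lit 0 0, lit 0 0⟩,
    ⟨lit 64518181 (-57684365), lit 39596302 (-5669581), lit 11887355 57223410, lit (-10082046) 25060575⟩,
    ⟨lit (-57864640) (-106752700), lit 5077809 (-55891746), lit (-7823009) (-60574652), lit 12504051 (-25309003)⟩,
    ⟨lit 48679726 57214497, lit 14514132 39883178, lit 27723404 2104435, lit 9756514 4521445⟩,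
    ⟨lit (-89691416) (-16515962), lit (-33113074) (-22377971), lit (-28763533) 3382275, lit (-11114860) (-1803795)⟩,
    ⟨lit (-92592066) (-88065918), lit 299490543 421301468, lit 134627242 (-157046938), lit (-827917518) 334629191⟩,
    ⟨lit 402314573 393470013, lit (-773242516) (-2427438350), lit 157528407 76464496, lit (-467524352) (-640193767)⟩],
   [⟨lit 105039458 (-69179600), lit (-7391562) (-125556639), lit (-7391562) 175448113, lit 148246742 94125337⟩,
    ⟨lit (-363082105) 150463261, lit (-51236046) 389669957, lit (-85396832) 51515589, lit 1915393 99713621⟩,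
    ⟨lit 0 0, lit 0 0, lit 0 0, lit 0 0⟩,
    ⟨lit 0 0, lit 0 0, lit 0 0, lit 0 0⟩,
    ⟨lit (-59590264) 72422130, lit 136859062 (-134150833), lit 32924272 87817748, lit (-47748498) (-185598840)⟩,
    ⟨lit (-1920599100) 131597605, lit 3954525145 1202170357, lit (-816828229) 529730892, lit 1992603580 (-390574427)⟩,
    ⟨lit 19336781 (-3324669), lit (-21254947) (-17643128), lit (-2991919) (-7876586), lit 41927700 (-14592127)⟩,
    ⟨lit 31530573 115208098, lit 60549903 95818535, lit 24236098 20948882, lit 21564789 21651218⟩],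
   [⟨lit 171287904 41794750, lit 49448636 169237051, lit 49448636 (-101106354), lit 112284989 (-7729402)⟩,
    ⟨lit 640267644 (-407289749), lit 672857092 350843170, lit 265509028 (-218105757), lit 321639640 120884685⟩,
    ⟨lit 0 0, lit 0 0, lit 0 0, lit 0 0⟩,
    ⟨lit 0 0, lit 0 0, lit 0 0, lit 0 0⟩,
    ⟨lit 315966378 (-155465150), lit (-777551631) 71536081, lit 292619958 195902335, lit (-450727879) (-637611424)⟩,
    ⟨lit 3048706511 451437855, lit (-5864010103) (-3130020273), lit 1293845878 193366240, lit (-2499757402) (-1328686944)⟩,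
    ⟨lit (-13700747) (-4256435), lit 95121826 16132977, lit 23436247 17455972, lit 27811984 (-49882115)⟩,
    ⟨lit 77621113 (-71028851), lit 382234836 (-246926401), lit 2743381 (-35522818), lit 151639918 (-136842331)⟩],
   [⟨lit 0 0, lit 0 0, lit 0 0, lit 0 0⟩,
    ⟨lit 0 0, lit 0 0, lit 0 0, lit 0 0⟩,
    ⟨lit (-57388260) 44745038, lit (-21348608) 7548178, lit (-36038879) (-80463182), lit (-2703801) (-27300544)⟩,
    ⟨lit 78194282 44588545, lit 18682139 20868590, lit 19616674 35607274, lit 2279197 12442934⟩,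
    ⟨lit (-67957997) (-13354285), lit (-31802377) (-11875469), lit 29850472 11052944, lit 10094905 4631894⟩,
    ⟨lit 11092421 (-48677858), lit 14975592 (-18534184), lit (-8024161) (-22409616), lit 184243 (-9325759)⟩,
    ⟨lit (-87883764) (-51013703), lit 81112862 221503165, lit (-131395728) (-58988139), lit 326063572 506409180⟩,
    ⟨lit 118311334 (-303493650), lit (-1087350666) 1006929881, lit (-32209231) (-147066788), lit (-160459983) 665888418⟩],
   [⟨lit 88626261 (-64245366), lit (-11324988) (-108875276), lit (-11324988) 193382957, lit 161812059 106499206⟩,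
    ⟨lit (-397582481) 114639329, lit (-99510669) 401636193, lit (-106039109) 73030455, lit 10226675 128347790⟩,
    ⟨lit 7843838 3302739, lit 2171962 3279590, lit 6782175 (-5141593), lit 3926189 (-241179)⟩,
    ⟨lit 91384252 6510156, lit 33491773 25909275, lit 47413462 (-41898457), lit 28972494 (-3976841)⟩,
    ⟨lit 8393977 (-7571976), lit 5082848 (-1923585), lit (-2360535) (-11055386), lit 875551 (-5363668)⟩,
    ⟨lit (-42815140) 94426643, lit (-36511638) 41064658, lit (-3902249) 31923932, lit (-5755192) 16408004⟩,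
    ⟨lit (-6547179) (-17310295), lit (-17371935) 14165495, lit (-10300361) 7738214, lit (-7005645) (-43955106)⟩,
    ⟨lit 121719584 (-45654456), lit 111966478 (-37408069), lit 31422948 (-25474183), lit 29357435 (-22078851)⟩],
   [⟨lit 167730998 148272362, lit (-44542133) 219395486, lit (-44542133) (-38600619), lit 11158051 (-57874928)⟩,
    ⟨lit 84764553 829867195, lit (-676303796) 488341853, lit 162693365 375145973, lit (-243539260) 328469574⟩,
    ⟨lit 0 0, lit 0 0, lit 0 0, lit 0 0⟩,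
    ⟨lit 0 0, lit 0 0, lit 0 0, lit 0 0⟩,
    ⟨lit 161465720 386027954, lit (-27094267) (-895346016), lit (-253577155) 332847392, lit 761845262 (-471137332)⟩,
    ⟨lit (-391888083) 3835242407, lit 3641561457 (-7180373204), lit (-159593072) 1602152586, lit 1512354046 (-3023805457)⟩,
    ⟨lit 22748260 (-11704065), lit (-99992763) (-100590362), lit (-5459617) (-23519874), lit 31500476 20140301⟩,
    ⟨lit (-90738436) (-60322424), lit (-46557704) (-580859461), lit (-28310131) 1835773, lit (-105557581) (-256494909)⟩],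
   [⟨lit 0 0, lit 0 0, lit 0 0, lit 0 0⟩,
    ⟨lit 0 0, lit 0 0, lit 0 0, lit 0 0⟩,
    ⟨lit 0 0, lit 0 0, lit 0 0, lit 0 0⟩,
    ⟨lit 0 0, lit 0 0, lit 0 0, lit 0 0⟩,
    ⟨lit 155470272 493770315, lit 39283674 (-1159665446), lit 21635249 780144985, lit 449025972 (-1618898745)⟩,
    ⟨lit 129128145 (-257223572), lit (-239628549) 488673496, lit 98476104 (-114217294), lit (-206172699) 179126582⟩,
    ⟨lit (-8126111) 139251344, lit 123270560 (-340914710), lit (-82588702) (-61804169), lit 158264067 420268937⟩,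
    ⟨lit (-168091586) (-23133731), lit 838436544 503799921, lit (-95530890) 111485848, lit 694067175 (-213690392)⟩],
   [⟨lit 65402211 (-96831856), lit (-51157742) (-105055905), lit (-51157742) 193953363, lit 142389669 141280586⟩,
    ⟨lit (-259309833) 98321228, lit (-44506235) 273729517, lit (-74585440) 104240271, lit 52982003 116713022⟩,
    ⟨lit (-4263477) (-21272238), lit 838848 (-6698529), lit (-20554036) (-6943840), lit (-5381672) (-4075728)⟩,
    ⟨lit 99972685 (-43530263), lit 33797054 (-2991407), lit 5399996 (-3824946), lit 1970822 (-596514)⟩,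
    ⟨lit 9123837 (-8009168), lit 4501245 (-2229934), lit (-2374225) (-11906059), lit 319443 (-5013159)⟩,
    ⟨lit 31009476 (-123610305), lit 27041283 (-54538652), lit (-20232489) (-55507934), lit (-2524355) (-27610009)⟩,
    ⟨lit (-11456170) 3101831, lit 26184738 14593173, lit 10149549 2701621, lit (-53185695) (-6919303)⟩,
    ⟨lit (-62640501) (-90122687), lit (-37397053) (-89999688), lit (-47181715) (-18630769), lit (-37438071) (-25048586)⟩],
   [⟨lit 82284808 58058204, lit (-9137476) 100289836, lit (-9137476) (-162302722), lit 135989542 (-89064647)⟩,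
    ⟨lit (-897768435) (-778818735), lit 225592592 (-1166899639), lit (-341744942) (-141349836), lit (-48459922) (-366634719)⟩,
    ⟨lit (-13752444) (-20923142), lit 67555 (-11572112), lit 11243750 (-22371537), lit 10055520 (-5727552)⟩,
    ⟨lit (-29848900) (-267270235), lit 56966957 (-110473970), lit (-15353475) (-110756739), lit 22458998 (-46544655)⟩,
    ⟨lit 8797868 (-6204002), lit 5976324 (-1251009), lit 9771757 4517176, lit 4071568 4550143⟩,
    ⟨lit (-67807824) 40180796, lit (-32517657) 13872744, lit (-16307154) 18089948, lit (-8046109) 8320907⟩,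
    ⟨lit (-38959023) 3610254, lit 33844371 39430896, lit (-2642276) 7712253, lit 12017172 (-99475149)⟩,
    ⟨lit (-48328418) 115832174, lit (-489224606) (-568780073), lit (-2843986) 38950796, lit (-200461898) (-119636695)⟩],
   [⟨lit 0 0, lit 0 0, lit 0 0, lit 0 0⟩,
    ⟨lit 0 0, lit 0 0, lit 0 0, lit 0 0⟩,
    ⟨lit 0 0, lit 0 0, lit 0 0, lit 0 0⟩,
    ⟨lit 0 0, lit 0 0, lit 0 0, lit 0 0⟩,
    ⟨lit (-908276917) 108111020, lit 1918152288 401964661, lit (-244141135) (-150689788), lit 397462637 377135529⟩,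
    ⟨lit 134709233 1239714968, lit 600576212 (-2255481329), lit (-79747400) 534364392, lit 540103375 (-888148061)⟩,
    ⟨lit 99914788 (-114162164), lit (-487212166) 413754652, lit (-19168925) 139919122, lit 324562988 (-429578549)⟩,
    ⟨lit (-230174856) 327877286, lit 1708755500 (-1008044606), lit 21858997 134321179, lit 249212331 (-657145224)⟩],
   [⟨lit 89874929 (-92485894), lit (-35157670) (-124076918), lit (-35157670) 173705616, lit 132854641 117300243⟩,
    ⟨lit (-275131621) 121358535, lit (-32466237) 298950240, lit (-78668250) 54399897, lit 7777567 95328652⟩,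
    ⟨lit 0 0, lit 0 0, lit 0 0, lit 0 0⟩,
    ⟨lit 0 0, lit 0 0, lit 0 0, lit 0 0⟩,
    ⟨lit 173779859 66758477, lit (-332424841) (-216126751), lit 144704467 (-117118534), lit (-353383678) 179824982⟩,
    ⟨lit (-235837438) 2132319659, lit 2073192910 (-4142933394), lit 219278516 788210712, lit 212459537 (-1736478302)⟩,
    ⟨lit 1736695 19098459, lit 16764267 (-29365496), lit 6100753 (-4203848), lit 4865398 51395863⟩,
    ⟨lit (-103168293) 33395730, lit (-89488140) 51613635, lit (-13502629) 28529842, lit (-22997110) 25136706⟩],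
   [⟨lit 97575181 102167231, lit (-39691827) 135586201, lit (-39691827) (-139808450), lit 101231756 (-104278355)⟩,
    ⟨lit (-219574952) (-355005932), lit 197656679 (-367660452), lit (-175400202) (-80348995), lit (-18115830) (-192075529)⟩,
    ⟨lit 19136499 (-1005841), lit 5747036 1589739, lit 10439333 16069774, lit 1496764 5771949⟩,
    ⟨lit 133001176 115175422, lit 27898731 47104550, lit 58758354 48768200, lit 12533836 20186039⟩,
    ⟨lit (-5841375) 21287096, lit (-5207000) 9540772, lit (-21355853) 5584769, lit (-10866051) 260992⟩,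
    ⟨lit (-1834414) (-17177731), lit (-2822614) (-3555329), lit (-4548603) (-5974872), lit (-3056030) (-1294926)⟩,
    ⟨lit 29745817 11690085, lit (-38081041) (-51974032), lit (-14497024) (-2122399), lit 7182538 72101241⟩,
    ⟨lit 67455838 34581473, lit 96580178 219908064, lit 34809616 (-3971374), lit 93479173 59871941⟩]]

/-- weight of b in the twist j -/
noncomputable def wb (j : ℕ) : ℂ := omg ^ j
noncomputable def wc (j : ℕ) : ℂ := I ^ j
def wbB (j : ℕ) : CB := if j % 3 = 0 then CB.ofInt 1 else if j % 3 = 1 then omB else omB.conj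
def wcB (j : ℕ) : CB := if j % 4 = 0 then CB.ofInt 1 else if j % 4 = 1 then cI else if j % 4 = 2 then CB.ofInt (-1) else cI.neg

theorem mem_one_ofInt : (CB.ofInt 1).Mem 1 := by simpa using CB.mem_ofInt 1

theorem mem_wbB (j : ℕ) : (wbB j).Mem (wb j) := by
  unfold wbB wb
  have e : omg ^ j = omg ^ (j % 3) := by
    conv_lhs => rw [← Nat.div_add_mod j 3, pow_add, pow_mul, omg_cube, one_pow, one_mul]
  rw [e]
  have h3 : j % 3 < 3 := Nat.mod_lt _ (by norm_num)
  split_ifs with h1 h2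
  · rw [h1, pow_zero]; exact mem_one_ofInt
  · rw [h2, pow_one]; exact mem_omB
  · have : j % 3 = 2 := by omega
    rw [this, pow_two, omg_sq]; exact mem_omB.conj

theorem mem_wcB (j : ℕ) : (wcB j).Mem (wc j) := by
  unfold wcB wc
  have e : I ^ j = I ^ (j % 4) := by
    conv_lhs => rw [← Nat.div_add_mod j 4, pow_add, pow_mul, I_pow_four, one_pow, one_mul]
  rw [e]
  have h3 : j % 4 < 4 := Nat.mod_lt _ (by norm_num)
  split_ifs with h1 h2 h2'
  · rw [h1, pow_zero]; exact mem_one_ofInt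
  · rw [h2, pow_one]; exact mem_cI
  · rw [h2', I_sq]; simpa using CB.mem_ofInt (-1)
  · have : j % 4 = 3 := by omega
    rw [this]
    have e3 : I ^ 3 = -I := by rw [pow_succ, I_sq]; ring
    rw [e3]; exact mem_cI.neg

theorem wb_inv (j : ℕ) : (wb j)⁻¹ = (starRingEnd ℂ) (wb j) := by
  have h : wb j * (starRingEnd ℂ) (wb j) = 1 := by
    rw [Complex.mul_conj]; unfold wb; rw [map_pow, normSq_omg, one_pow, ofReal_one]
  exact inv_eq_of_mul_eq_one_right h

theorem wc_inv (j : ℕ) : (wc j)⁻¹ = (starRingEnd ℂ) (wc j) := by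
  have h : wc j * (starRingEnd ℂ) (wc j) = 1 := by
    rw [Complex.mul_conj]; unfold wc; rw [map_pow, normSq_I, one_pow, ofReal_one]
  exact inv_eq_of_mul_eq_one_right h

/-- matrix ball operations -/
def CBM.add (A B : M4 CB) : M4 CB := ⟨A.a.add B.a, A.b.add B.b, A.c.add B.c, A.d.add B.d⟩
def CBM.sub (A B : M4 CB) : M4 CB := ⟨A.a.sub B.a, A.b.sub B.b, A.c.sub B.c, A.d.sub B.d⟩
def CBM.neg (A : M4 CB) : M4 CB := ⟨A.a.neg, A.b.neg, A.c.neg, A.d.neg⟩
def CBM.zero : M4 CB := ⟨cb0, cb0, cb0, cb0⟩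

theorem mem_cb0' : cb0.Mem 0 := by
  unfold CB.Mem
  simp [cb0, SB.toC_zero]

theorem CBM.mem_zero : CBM.Mem CBM.zero 0 := ⟨mem_cb0', mem_cb0', mem_cb0', mem_cb0'⟩
theorem CBM.Mem.add {A B : M4 CB} {M N : MatC} (hA : CBM.Mem A M) (hB : CBM.Mem B N) : CBM.Mem (CBM.add A B) (M + N) :=
  ⟨hA.1.add hB.1, hA.2.1.add hB.2.1, hA.2.2.1.add hB.2.2.1, hA.2.2.2.add hB.2.2.2⟩
theorem CBM.Mem.sub {A B : M4 CB} {M N : MatC} (hA : CBM.Mem A M) (hB : CBM.Mem B N) : CBM.Mem (CBM.sub A B) (M - N) :=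
  ⟨hA.1.sub hB.1, hA.2.1.sub hB.2.1, hA.2.2.1.sub hB.2.2.1, hA.2.2.2.sub hB.2.2.2⟩
theorem CBM.Mem.neg {A : M4 CB} {M : MatC} (hA : CBM.Mem A M) : CBM.Mem (CBM.neg A) (-M) :=
  ⟨hA.1.neg, hA.2.1.neg, hA.2.2.1.neg, hA.2.2.2.neg⟩

/-- cocycle on a letter -/
noncomputable def faM (L : ℕ → MatC) : ℕ → MatC × MatC
  | 2 => (1, 0)
  | 3 => (-(L 3), 0)
  | 4 => (0, 1)
  | 5 => (0, -(L 5))
  | _ => (0, 0)
def faB (L : ℕ → M4 CB) : ℕ → M4 CB × M4 CB
  | 2 => (CBM.one, CBM.zero)
  | 3 => (CBM.neg (L 3), CBM.zero)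
  | 4 => (CBM.zero, CBM.one)
  | 5 => (CBM.zero, CBM.neg (L 5))
  | _ => (CBM.zero, CBM.zero)

/-- cocycle on a word -/
noncomputable def foxM (L : ℕ → MatC) : List ℕ → MatC × MatC
  | [] => (0, 0)
  | i :: w => ((faM L i).1 + L i * (foxM L w).1, (faM L i).2 + L i * (foxM L w).2)
def foxB (L : ℕ → M4 CB) : List ℕ → M4 CB × M4 CB
  | [] => (CBM.zero, CBM.zero)
  | i :: w => (CBM.add (faB L i).1 (CBM.mul (L i) (foxB L w).1), CBM.add (faB L i).2 (CBM.mul (L i) (foxB L w).2))

theorem mem_fa {LB : ℕ → M4 CB} {L : ℕ → MatC} (h : ∀ i < 6, CBM.Mem (LB i) (L i)) (i : ℕ) :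
    CBM.Mem (faB LB i).1 (faM L i).1 ∧ CBM.Mem (faB LB i).2 (faM L i).2 := by
  match i with
  | 0 => exact ⟨CBM.mem_zero, CBM.mem_zero⟩
  | 1 => exact ⟨CBM.mem_zero, CBM.mem_zero⟩
  | 2 => exact ⟨CBM.mem_one, CBM.mem_zero⟩
  | 3 => exact ⟨(h 3 (by norm_num)).neg, CBM.mem_zero⟩
  | 4 => exact ⟨CBM.mem_zero, CBM.mem_one⟩
  | 5 => exact ⟨CBM.mem_zero, (h 5 (by norm_num)).neg⟩
  | n + 6 => exact ⟨CBM.mem_zero, CBM.mem_zero⟩

theorem mem_fox {LB : ℕ → M4 CB} {L : ℕ → MatC} (h : ∀ i < 6, CBM.Mem (LB i) (L i)) (w : List ℕ) (hw : ∀ i ∈ w, i < 6) :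
    CBM.Mem (foxB LB w).1 (foxM L w).1 ∧ CBM.Mem (foxB LB w).2 (foxM L w).2 := by
  induction w with
  | nil => exact ⟨CBM.mem_zero, CBM.mem_zero⟩
  | cons i w ih =>
    obtain ⟨i1, i2⟩ := ih (fun k hk => hw k (List.mem_cons_of_mem _ hk))
    obtain ⟨a1, a2⟩ := mem_fa h i
    have hi := h i (hw i (by simp))
    exact ⟨a1.add (hi.mul i1), a2.add (hi.mul i2)⟩

/-- a strictly contracting linear system has only the zero solution -/
theorem four_zero (v : Fin 4 → ℂ) (E : Fin 4 → Fin 4 → ℂ) (h : ∀ i, v i = -∑ j, E i j * v j) (hE : ∀ i, ∑ j, ‖E i j‖ < 1) :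
    v = 0 := by
  obtain ⟨i, -, hi⟩ := Finset.exists_max_image (Finset.univ : Finset (Fin 4)) (fun i => ‖v i‖) ⟨0, Finset.mem_univ _⟩
  have h1 : ‖v i‖ ≤ (∑ j, ‖E i j‖) * ‖v i‖ := by
    calc ‖v i‖ = ‖∑ j, E i j * v j‖ := by
          conv_lhs => rw [h i, norm_neg]
      _ ≤ ∑ j, ‖E i j * v j‖ := norm_sum_le _ _
      _ ≤ ∑ j, ‖E i j‖ * ‖v i‖ := by
        refine Finset.sum_le_sum fun j _ => ?_
        rw [norm_mul]
        exact mul_le_mul_of_nonneg_left (hi j (Finset.mem_univ _)) (norm_nonneg _)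
      _ = _ := by rw [Finset.sum_mul]
  have h2 : ‖v i‖ = 0 := by
    by_contra hne
    have hpos : 0 < ‖v i‖ := lt_of_le_of_ne (norm_nonneg _) (Ne.symm hne)
    have := hE i
    nlinarith
  funext j
  have := hi j (Finset.mem_univ _)
  rw [h2] at this
  exact norm_le_zero_iff.1 this

/-- centre of a ball -/
noncomputable def cenM (A : M4 CB) : MatC := !![A.a.c.toC / SC, A.b.c.toC / SC; A.c.c.toC / SC, A.d.c.toC / SC]

theorem mem_cen (a : CB) : a.Mem (a.c.toC / SC) := by
  unfold CB.Mem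
  have h : (SC : ℂ) * (a.c.toC / SC) - a.c.toC = 0 := by
    rw [mul_div_cancel₀ _ CB.SC_ne, sub_self]
  rw [h, norm_zero]
  positivity

theorem mem_cenM (A : M4 CB) : CBM.Mem A (cenM A) := ⟨mem_cen _, mem_cen _, mem_cen _, mem_cen _⟩

/-- norm bound of a ball -/
def nb (a : CB) : ℕ := a.c.n1 + a.r

theorem nb_spec {a : CB} {z : ℂ} (ha : a.Mem z) : (SC : ℝ) * ‖z‖ ≤ nb a := by
  unfold CB.Mem at ha
  have h1 : (SC : ℝ) * ‖z‖ = ‖(SC : ℂ) * z‖ := by rw [norm_mul, CB.norm_SC]
  rw [h1]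
  have h2 : (SC : ℂ) * z = ((SC : ℂ) * z - a.c.toC) + a.c.toC := by ring
  rw [h2]
  refine (norm_add_le _ _).trans ?_
  have h3 := GI.norm_le a.c
  unfold nb
  push_cast
  linarith

def relA : List (List ℕ) := [[2, 2, 2], [4, 4, 4, 4], [4, 1, 4, 0, 5], wL4]
def relC : List (List ℕ) := [[], [], wW ++ [4] ++ wWi, wR4]

def DB (L : ℕ → M4 CB) (r : ℕ) : M4 CB × M4 CB :=
  (CBM.sub (foxB L (relA.getD r [])).1 (foxB L (relC.getD r [])).1, CBM.sub (foxB L (relA.getD r [])).2 (foxB L (relC.getD r [])).2)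
noncomputable def DM (L : ℕ → MatC) (r : ℕ) : MatC × MatC :=
  ((foxM L (relA.getD r [])).1 - (foxM L (relC.getD r [])).1, (foxM L (relA.getD r [])).2 - (foxM L (relC.getD r [])).2)

theorem mem_D {LB : ℕ → M4 CB} {L : ℕ → MatC} (h : ∀ i < 6, CBM.Mem (LB i) (L i)) (r : ℕ) :
    CBM.Mem (DB LB r).1 (DM L r).1 ∧ CBM.Mem (DB LB r).2 (DM L r).2 := by
  have hA : ∀ w ∈ relA, ∀ i ∈ w, i < 6 := by decide
  have hC : ∀ w ∈ relC, ∀ i ∈ w, i < 6 := by decide
  have g1 : ∀ i ∈ relA.getD r [], i < 6 := by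
    rcases lt_or_ge r relA.length with h' | h'
    · rw [List.getD_eq_getElem _ _ h']; exact hA _ (List.getElem_mem h')
    · rw [List.getD_eq_default _ _ h']; simp
  have g2 : ∀ i ∈ relC.getD r [], i < 6 := by
    rcases lt_or_ge r relC.length with h' | h'
    · rw [List.getD_eq_getElem _ _ h']; exact hC _ (List.getElem_mem h')
    · rw [List.getD_eq_default _ _ h']; simp
  obtain ⟨a1, a2⟩ := mem_fox h _ g1
  obtain ⟨b1, b2⟩ := mem_fox h _ g2
  exact ⟨a1.sub b1, a2.sub b2⟩

/-- certificate blocks -/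
def PB (j r : ℕ) : M4 CB := (cerT.getD j []).getD (2 * r) CBM.zero
def QB (j r : ℕ) : M4 CB := (cerT.getD j []).getD (2 * r + 1) CBM.zero

def SB4 (P : ℕ → M4 CB) (D : ℕ → M4 CB) : M4 CB :=
  CBM.add (CBM.add (CBM.mul (P 0) (D 0)) (CBM.mul (P 1) (D 1))) (CBM.add (CBM.mul (P 2) (D 2)) (CBM.mul (P 3) (D 3)))
noncomputable def SM4 (P : ℕ → MatC) (D : ℕ → MatC) : MatC := (P 0 * D 0 + P 1 * D 1) + (P 2 * D 2 + P 3 * D 3)

theorem mem_S4 {PB' DB' : ℕ → M4 CB} {P D : ℕ → MatC} (h : ∀ r, CBM.Mem (PB' r) (P r)) (h' : ∀ r, CBM.Mem (DB' r) (D r)) :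
    CBM.Mem (SB4 PB' DB') (SM4 P D) :=
  (((h 0).mul (h' 0)).add ((h 1).mul (h' 1))).add (((h 2).mul (h' 2)).add ((h 3).mul (h' 3)))

/-- letters of the twist j at z = -1 -/
def twB (j : ℕ) : ℕ → CB
  | 0 => CB.ofInt (-1)
  | 1 => CB.ofInt (-1)
  | 2 => wbB j
  | 3 => (wbB j).conj
  | 4 => wcB j
  | 5 => (wcB j).conj
  | _ => CB.ofInt 1
noncomputable def twM (j : ℕ) : ℕ → ℂ
  | 0 => -1
  | 1 => -1
  | 2 => wb j
  | 3 => (starRingEnd ℂ) (wb j)
  | 4 => wc j
  | 5 => (starRingEnd ℂ) (wc j)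
  | _ => 1

theorem mem_tw (j i : ℕ) : (twB j i).Mem (twM j i) := by
  have m1 : (CB.ofInt (-1)).Mem (-1) := by simpa using CB.mem_ofInt (-1)
  match i with
  | 0 => exact m1
  | 1 => exact m1
  | 2 => exact mem_wbB j
  | 3 => exact (mem_wbB j).conj
  | 4 => exact mem_wcB j
  | 5 => exact (mem_wcB j).conj
  | n + 6 => exact mem_one_ofInt

def LtB (j i : ℕ) : M4 CB := CBM.smul (twB j i) (LBm i)

def chkA4 (j : ℕ) : Bool :=
  let D1 := fun r => (DB (LtB j) r).1
  let D2 := fun r => (DB (LtB j) r).2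
  let E11 := CBM.sub (SB4 (PB j) D1) CBM.one
  let E12 := SB4 (PB j) D2
  let E21 := SB4 (QB j) D1
  let E22 := CBM.sub (SB4 (QB j) D2) CBM.one
  Nat.blt (nb E11.a + nb E11.b + nb E12.a + nb E12.b) SC && Nat.blt (nb E11.c + nb E11.d + nb E12.c + nb E12.d) SC &&
  Nat.blt (nb E21.a + nb E21.b + nb E22.a + nb E22.b) SC && Nat.blt (nb E21.c + nb E21.d + nb E22.c + nb E22.d) SC

set_option maxRecDepth 100000 in
theorem chkA4_all : (List.range 12).all chkA4 = true := by decide +kernel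

section group

open Pool.Agent.Helper95.DFJ

variable {G : Type*} [Group G] {b c t : G} {σ : Representation ℂ G (Fin 2 → ℂ)} {L : ℕ → MatC}

theorem coc_letter (hL : ∀ i < 6, σ (lv b c t i) = Matrix.toLin' (L i)) {z : G → Fin 2 → ℂ} (hz : z ∈ Zt σ t) {i : ℕ}
    (hi : i < 6) : z (lv b c t i) = (faM L i).1.mulVec (z b) + (faM L i).2.mulVec (z c) := by
  obtain ⟨hz1, hzt⟩ := hz
  interval_cases i
  · show z t = _
    rw [hzt]; simp [faM]
  · show z t⁻¹ = _
    rw [Zc_inv hz1, hzt]; simp [faM]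
  · show z b = _
    simp [faM]
  · show z b⁻¹ = _
    have h3 : σ b⁻¹ = Matrix.toLin' (L 3) := hL 3 (by norm_num)
    rw [Zc_inv hz1, h3]
    simp [faM, Matrix.toLin'_apply, Matrix.neg_mulVec]
  · show z c = _
    simp [faM]
  · show z c⁻¹ = _
    have h3 : σ c⁻¹ = Matrix.toLin' (L 5) := hL 5 (by norm_num)
    rw [Zc_inv hz1, h3]
    simp [faM, Matrix.toLin'_apply, Matrix.neg_mulVec]

theorem coc_word (hL : ∀ i < 6, σ (lv b c t i) = Matrix.toLin' (L i)) {z : G → Fin 2 → ℂ} (hz : z ∈ Zt σ t) (w : List ℕ)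
    (hw : ∀ i ∈ w, i < 6) : z (ev b c t w) = (foxM L w).1.mulVec (z b) + (foxM L w).2.mulVec (z c) := by
  induction w with
  | nil =>
    show z 1 = _
    rw [Zc_one hz.1]; simp [foxM]
  | cons i w ih =>
    have hi : i < 6 := hw i (by simp)
    rw [ev_cons, hz.1, ih (fun k hk => hw k (List.mem_cons_of_mem _ hk)), coc_letter hL hz hi, hL i hi]
    simp only [foxM, Matrix.add_mulVec, Matrix.toLin'_apply, Matrix.mulVec_add, Matrix.mulVec_mulVec]
    abel

/-- the relations in words -/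
structure WRels (b c t : G) : Prop where
  hb : ev b c t [2, 2, 2] = ev b c t []
  hc : ev b c t [4, 4, 4, 4] = ev b c t []
  h5 : ev b c t [4, 1, 4, 0, 5] = ev b c t (wW ++ [4] ++ wWi)
  h4 : ev b c t wL4 = ev b c t wR4

theorem D_zero (hR : WRels b c t) (hL : ∀ i < 6, σ (lv b c t i) = Matrix.toLin' (L i)) {z : G → Fin 2 → ℂ} (hz : z ∈ Zt σ t)
    {r : ℕ} (hr : r < 4) : (DM L r).1.mulVec (z b) + (DM L r).2.mulVec (z c) = 0 := by
  have key : ∀ w w' : List ℕ, (∀ i ∈ w, i < 6) → (∀ i ∈ w', i < 6) → ev b c t w = ev b c t w' →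
      ((foxM L w).1 - (foxM L w').1).mulVec (z b) + ((foxM L w).2 - (foxM L w').2).mulVec (z c) = 0 := by
    intro w w' hw hw' he
    have h1 := coc_word hL hz w hw
    have h2 := coc_word hL hz w' hw'
    rw [he, h2] at h1
    rw [Matrix.sub_mulVec, Matrix.sub_mulVec]
    have h3 : (foxM L w).1.mulVec (z b) + (foxM L w).2.mulVec (z c) - ((foxM L w').1.mulVec (z b) + (foxM L w').2.mulVec (z c)) = 0 := by
      rw [← h1]; exact sub_self _
    rw [← h3]; abel
  interval_cases r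
  · exact key [2, 2, 2] [] (by decide) (by decide) hR.hb
  · exact key [4, 4, 4, 4] [] (by decide) (by decide) hR.hc
  · exact key [4, 1, 4, 0, 5] (wW ++ [4] ++ wWi) (by decide) (by decide) hR.h5
  · exact key wL4 wR4 (by decide) (by decide) hR.h4

theorem S4_zero (P D1 D2 : ℕ → MatC) (x y : Fin 2 → ℂ) (h : ∀ r < 4, (D1 r).mulVec x + (D2 r).mulVec y = 0) :
    (SM4 P D1).mulVec x + (SM4 P D2).mulVec y = 0 := by
  have e : ∀ r < 4, (P r * D1 r).mulVec x + (P r * D2 r).mulVec y = 0 := by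
    intro r hr
    rw [← Matrix.mulVec_mulVec, ← Matrix.mulVec_mulVec, ← Matrix.mulVec_add, h r hr, Matrix.mulVec_zero]
  unfold SM4
  simp only [Matrix.add_mulVec]
  have e0 := e 0 (by norm_num)
  have e1 := e 1 (by norm_num)
  have e2 := e 2 (by norm_num)
  have e3 := e 3 (by norm_num)
  calc _ = ((P 0 * D1 0).mulVec x + (P 0 * D2 0).mulVec y) + ((P 1 * D1 1).mulVec x + (P 1 * D2 1).mulVec y) +
        (((P 2 * D1 2).mulVec x + (P 2 * D2 2).mulVec y) + ((P 3 * D1 3).mulVec x + (P 3 * D2 3).mulVec y)) := by abel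
    _ = 0 := by rw [e0, e1, e2, e3]; simp

theorem A4_core {u : V3} (hu : u ∈ box cen rho) {j : ℕ} (hj : j < 12) (hR : WRels b c t)
    (hL : ∀ i < 6, σ (lv b c t i) = Matrix.toLin' (twM j i • ((lM hu i : GLC) : MatC))) {z : G → Fin 2 → ℂ} (hz : z ∈ Zt σ t) :
    z b = 0 ∧ z c = 0 := by
  set L : ℕ → MatC := fun i => twM j i • ((lM hu i : GLC) : MatC) with hLdef
  have hmem : ∀ i < 6, CBM.Mem (LtB j i) (L i) := fun i hi => (mem_tw j i).smul' (mem_lt6 hu i hi)
  have hD := fun r => mem_D hmem r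
  set P : ℕ → MatC := fun r => cenM (PB j r) with hP
  set Q : ℕ → MatC := fun r => cenM (QB j r) with hQ
  have m11 := (mem_S4 (fun r => mem_cenM (PB j r)) (fun r => (hD r).1)).sub CBM.mem_one
  have m12 := mem_S4 (fun r => mem_cenM (PB j r)) (fun r => (hD r).2)
  have m21 := mem_S4 (fun r => mem_cenM (QB j r)) (fun r => (hD r).1)
  have m22 := (mem_S4 (fun r => mem_cenM (QB j r)) (fun r => (hD r).2)).sub CBM.mem_one
  have hDz : ∀ r < 4, (DM L r).1.mulVec (z b) + (DM L r).2.mulVec (z c) = 0 := fun r hr => D_zero hR hL hz hr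
  have z1 := S4_zero P (fun r => (DM L r).1) (fun r => (DM L r).2) (z b) (z c) hDz
  have z2 := S4_zero Q (fun r => (DM L r).1) (fun r => (DM L r).2) (z b) (z c) hDz
  have hchk := chkA4_all
  rw [List.all_eq_true] at hchk
  have hc := hchk j (List.mem_range.2 hj)
  unfold chkA4 at hc
  simp only [Bool.and_eq_true, Nat.blt_eq] at hc
  obtain ⟨⟨⟨c1, c2⟩, c3⟩, c4⟩ := hc
  set S11 := SM4 P (fun r => (DM L r).1) with hS11
  set S12 := SM4 P (fun r => (DM L r).2) with hS12
  set S21 := SM4 Q (fun r => (DM L r).1) with hS21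
  set S22 := SM4 Q (fun r => (DM L r).2) with hS22
  have hv := four_zero ![z b 0, z b 1, z c 0, z c 1]
    ![![(S11 - 1) 0 0, (S11 - 1) 0 1, S12 0 0, S12 0 1], ![(S11 - 1) 1 0, (S11 - 1) 1 1, S12 1 0, S12 1 1],
      ![S21 0 0, S21 0 1, (S22 - 1) 0 0, (S22 - 1) 0 1], ![S21 1 0, S21 1 1, (S22 - 1) 1 0, (S22 - 1) 1 1]] ?_ ?_
  · have v0 := congrFun hv 0
    have v1 := congrFun hv 1
    have v2 := congrFun hv 2
    have v3 := congrFun hv 3
    constructor
    · funext i; fin_cases i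
      · exact v0
      · exact v1
    · funext i; fin_cases i
      · exact v2
      · exact v3
  · have a0 := congrFun z1 0
    have a1 := congrFun z1 1
    have b0 := congrFun z2 0
    have b1 := congrFun z2 1
    simp only [Pi.add_apply, Pi.zero_apply, Matrix.mulVec, dotProduct, Fin.sum_univ_two] at a0 a1 b0 b1
    intro i
    fin_cases i
    · simp [Fin.sum_univ_four, Matrix.sub_apply]
      linear_combination a0
    · simp [Fin.sum_univ_four, Matrix.sub_apply]
      linear_combination a1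
    · simp [Fin.sum_univ_four, Matrix.sub_apply]
      linear_combination b0
    · simp [Fin.sum_univ_four, Matrix.sub_apply]
      linear_combination b1
  · have hS := GI.SCpos
    have key : ∀ {a1 a2 a3 a4 : CB} {w1 w2 w3 w4 : ℂ}, a1.Mem w1 → a2.Mem w2 → a3.Mem w3 → a4.Mem w4 →
        nb a1 + nb a2 + nb a3 + nb a4 < SC → ‖w1‖ + ‖w2‖ + ‖w3‖ + ‖w4‖ < 1 := by
      intro a1 a2 a3 a4 w1 w2 w3 w4 g1 g2 g3 g4 hlt
      have k1 := nb_spec g1
      have k2 := nb_spec g2
      have k3 := nb_spec g3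
      have k4 := nb_spec g4
      have k5 : ((nb a1 + nb a2 + nb a3 + nb a4 : ℕ) : ℝ) < (SC : ℝ) := by exact_mod_cast hlt
      push_cast at k5
      have k6 : (SC : ℝ) * (‖w1‖ + ‖w2‖ + ‖w3‖ + ‖w4‖) < (SC : ℝ) * 1 := by linarith
      exact lt_of_mul_lt_mul_left k6 hS.le
    intro i
    fin_cases i
    · simp only [Fin.sum_univ_four]
      exact key m11.1 m11.2.1 m12.1 m12.2.1 c1
    · simp only [Fin.sum_univ_four]
      exact key m11.2.2.1 m11.2.2.2 m12.2.2.1 m12.2.2.2 c2
    · simp only [Fin.sum_univ_four]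
      exact key m21.1 m21.2.1 m22.1 m22.2.1 c3
    · simp only [Fin.sum_univ_four]
      exact key m21.2.2.1 m21.2.2.2 m22.2.2.1 m22.2.2.2 c4

end group

end Helper46.DFJ
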