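import Pool.Agent.Helper46.DFJ.Geo
import Pool.Agent.Helper20.DFJ.Discrete

/-!
# DFJ: Cls, Cen, Frame, Frame2, Emp, Poly, Inst
-/

section

/-!
Neighbour classes: positions, weights, and the vectors of the sites.
-/

namespace Helper46.DFJ

open Complex
open Pool.Agent.Helper20.DFJ (HE actH cr sp gl_smul_def dt)

section

variable {u : V3} (hu : u ∈ box cen rho)

/-- kappa of a class -/
noncomputable def kap (e : ℕ) : ℝ := normSq (((MW hu (nw e) : GLC) : MatC) 1 0)
/-- position of a class -/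
noncomputable def sC (e : ℕ) : ℂ := ((MW hu (nw e) : GLC) : MatC) 0 0 * (((MW hu (nw e) : GLC) : MatC) 1 0)⁻¹

end

def chkClass (e : ℕ) : Bool :=
  let M := CBM.word LBm (nw e)
  (M.c.mul M.c.conj).incl (kapB e) && (M.c.invchk (ciB e)) && ((M.a.mul (ciB e)).incl (sB e)) &&
    (((ciB e).mul (ciB e).conj).incl (radB e)) && M.c.nz

set_option maxRecDepth 100000 in
theorem chkClass_all : (List.range 29).all chkClass = true := by decide +kernel

section

variable {u : V3} (hu : u ∈ box cen rho) {e : ℕ} (he : e < 29)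
include he

theorem chkClass_e : chkClass e = true := by
  have h := chkClass_all
  rw [List.all_eq_true] at h
  exact h e (List.mem_range.2 he)

theorem c_ne : ((MW hu (nw e) : GLC) : MatC) 1 0 ≠ 0 := by
  have h := chkClass_e he
  unfold chkClass at h
  simp only [Bool.and_eq_true] at h
  exact CB.ne_zero (mem_MW hu (nw e)).2.2.1 h.2

theorem kap_pos : 0 < kap hu e := normSq_pos.2 (c_ne hu he)

theorem kap_mem : (kapB e).Mem ((kap hu e : ℝ) : ℂ) := by
  have h := chkClass_e he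
  unfold chkClass at h
  simp only [Bool.and_eq_true] at h
  have m := (mem_MW hu (nw e)).2.2.1
  have := (m.mul m.conj).incl h.1.1.1.1
  rwa [Complex.mul_conj] at this

theorem ci_mem : (ciB e).Mem (((MW hu (nw e) : GLC) : MatC) 1 0)⁻¹ := by
  have h := chkClass_e he
  unfold chkClass at h
  simp only [Bool.and_eq_true] at h
  exact (mem_MW hu (nw e)).2.2.1.inv h.1.1.1.2

theorem s_mem : (sB e).Mem (sC hu e) := by
  have h := chkClass_e he
  unfold chkClass at h
  simp only [Bool.and_eq_true] at h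
  exact ((mem_MW hu (nw e)).1.mul (ci_mem hu he)).incl h.1.1.2

theorem rad_mem : (radB e).Mem (((kap hu e)⁻¹ : ℝ) : ℂ) := by
  have h := chkClass_e he
  unfold chkClass at h
  simp only [Bool.and_eq_true] at h
  have m := ci_mem hu he
  have := (m.mul m.conj).incl h.1.2
  rw [Complex.mul_conj, map_inv₀] at this
  exact this

end

/-- modulus squared of the lower left entry -/
noncomputable def ns (g : GLC) : ℝ := normSq ((g : MatC) 1 0)

theorem inv_entries (g : GLC) : ((g⁻¹ : GLC) : MatC) 1 0 = -((g : MatC).det)⁻¹ * (g : MatC) 1 0 ∧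
    ((g⁻¹ : GLC) : MatC) 1 1 = ((g : MatC).det)⁻¹ * (g : MatC) 0 0 := by
  have hd : (g : MatC).det ≠ 0 := ((Matrix.isUnit_iff_isUnit_det _).1 g.isUnit).ne_zero
  have e : ((g⁻¹ : GLC) : MatC) * (g : MatC) = 1 := by rw [← Units.val_mul]; simp
  have e10 := congrFun (congrFun e 1) 0
  have e11 := congrFun (congrFun e 1) 1
  rw [Matrix.mul_apply, Fin.sum_univ_two] at e10 e11
  rw [Matrix.one_apply_eq] at e11
  rw [Matrix.one_apply_ne (by decide)] at e10
  set h := ((g⁻¹ : GLC) : MatC) with hh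
  have hdet : (g : MatC).det = (g : MatC) 0 0 * (g : MatC) 1 1 - (g : MatC) 0 1 * (g : MatC) 1 0 := Matrix.det_fin_two _
  constructor
  · have : (g : MatC).det * h 1 0 = -(g : MatC) 1 0 := by
      rw [hdet]; linear_combination (g : MatC) 1 1 * e10 - (g : MatC) 1 0 * e11
    have h2 : h 1 0 = ((g : MatC).det)⁻¹ * ((g : MatC).det * h 1 0) := by
      rw [← mul_assoc, inv_mul_cancel₀ hd, one_mul]
    rw [h2, this]; ring
  · have : (g : MatC).det * h 1 1 = (g : MatC) 0 0 := by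
      rw [hdet]; linear_combination (g : MatC) 0 0 * e11 - (g : MatC) 0 1 * e10
    have h2 : h 1 1 = ((g : MatC).det)⁻¹ * ((g : MatC).det * h 1 1) := by
      rw [← mul_assoc, inv_mul_cancel₀ hd, one_mul]
    rw [h2, this]

theorem ns_inv {g : GLC} (hg : nd g = 1) : ns g⁻¹ = ns g := by
  unfold ns
  rw [(inv_entries g).1, map_mul, Complex.normSq_neg, map_inv₀, ← nd_apply, hg, inv_one, one_mul]

theorem ns_mul_tr {g h : GLC} {v : ℂ} (hh : IsTr h v) : ns (g * h) = ns g := by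
  unfold ns
  rw [Units.val_mul, Matrix.mul_apply, Fin.sum_univ_two, hh.h10, mul_zero, add_zero, map_mul, hh.h00, hh.h11, mul_one]

theorem ns_tr_mul {g h : GLC} {v : ℂ} (hh : IsTr h v) : ns (h * g) = ns g := by
  unfold ns
  rw [Units.val_mul, Matrix.mul_apply, Fin.sum_univ_two, hh.h10, zero_mul, zero_add, map_mul, hh.h11, one_mul]

/-- the functional of a cusp -/
theorem functional {g : GLC} (hg : nd g = 1) (hc : (g : MatC) 1 0 ≠ 0) (y : HE) :
    (g⁻¹ • y).2.2 = normSq ((g : MatC) 1 0) *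
      (y.1 - 2 * sp ((g : MatC) 0 0 * ((g : MatC) 1 0)⁻¹) y.2.1 + normSq ((g : MatC) 0 0 * ((g : MatC) 1 0)⁻¹) * y.2.2) := by
  rw [gl_smul_def]
  have h1 : (actH ((g⁻¹ : GLC) : MatC) y).2.2 = normSq (((g⁻¹ : GLC) : MatC) 1 0) * y.1 +
      2 * ((((g⁻¹ : GLC) : MatC) 1 0) * y.2.1 * (starRingEnd ℂ) (((g⁻¹ : GLC) : MatC) 1 1)).re + normSq (((g⁻¹ : GLC) : MatC) 1 1) * y.2.2 := rfl
  rw [h1, (inv_entries g).1, (inv_entries g).2]
  set a := (g : MatC) 0 0 with ha
  set c := (g : MatC) 1 0 with hcc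
  set d := (g : MatC).det with hd
  have hnd : normSq d = 1 := hg
  have hdi : normSq d⁻¹ = 1 := by rw [map_inv₀, hnd, inv_one]
  have e1 : normSq (-d⁻¹ * c) = normSq c := by
    rw [map_mul, Complex.normSq_neg, hdi, one_mul]
  have e2 : normSq (d⁻¹ * a) = normSq a := by
    rw [map_mul, hdi, one_mul]
  have e3 : (-d⁻¹ * c * y.2.1 * (starRingEnd ℂ) (d⁻¹ * a)).re = -(c * y.2.1 * (starRingEnd ℂ) a).re := by
    have : -d⁻¹ * c * y.2.1 * (starRingEnd ℂ) (d⁻¹ * a) = -((d⁻¹ * (starRingEnd ℂ) d⁻¹) * (c * y.2.1 * (starRingEnd ℂ) a)) := by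
      rw [map_mul]; ring
    rw [this, Complex.mul_conj, hdi, ofReal_one, one_mul, neg_re]
  have e4 : normSq (a * c⁻¹) * normSq c = normSq a := by
    rw [← map_mul, mul_assoc, inv_mul_cancel₀ hc, mul_one]
  have e5 : normSq c * sp (a * c⁻¹) y.2.1 = (c * y.2.1 * (starRingEnd ℂ) a).re := by
    have h6 : sp (a * c⁻¹) y.2.1 = ((starRingEnd ℂ) (a * c⁻¹) * y.2.1).re := by
      simp only [sp, mul_re, conj_re, conj_im]; ring
    have h7 : ((normSq c : ℝ) : ℂ) * ((starRingEnd ℂ) (a * c⁻¹) * y.2.1) = c * y.2.1 * (starRingEnd ℂ) a := by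
      rw [← Complex.mul_conj, map_mul, map_inv₀]
      have hcc' : (starRingEnd ℂ) c ≠ 0 := by simpa using hc
      field_simp
    rw [h6, ← h7, re_ofReal_mul]
  rw [e1, e2, e3]
  have e6 : normSq c * (y.1 - 2 * sp (a * c⁻¹) y.2.1 + normSq (a * c⁻¹) * y.2.2) =
      normSq c * y.1 - 2 * (normSq c * sp (a * c⁻¹) y.2.1) + (normSq (a * c⁻¹) * normSq c) * y.2.2 := by ring
  rw [e6, e5, e4]
  ring

/-- the cusp vector of infinity -/
def E0 : HE := (1, 0, 0)
/-- the vector of a point of the plane -/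
noncomputable def vec (s : ℂ) : HE := (normSq s, s, 1)

theorem tr_E0 {g : GLC} {v : ℂ} (hg : IsTr g v) : g • E0 = E0 := by
  rw [gl_smul_def]
  have h00 : normSq ((g : MatC) 0 0) = 1 := by rw [hg.h00, hg.h11]
  refine Prod.ext ?_ (Prod.ext ?_ ?_)
  · simp [actH, E0, h00]
  · simp [actH, E0, hg.h10]
  · simp [actH, E0, hg.h10]

theorem N_E0 {g : GLC} (hc : (g : MatC) 1 0 ≠ 0) :
    g • E0 = normSq ((g : MatC) 1 0) • vec ((g : MatC) 0 0 * ((g : MatC) 1 0)⁻¹) := by
  rw [gl_smul_def]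
  refine Prod.ext ?_ (Prod.ext ?_ ?_)
  · show normSq ((g : MatC) 0 0) * 1 + 2 * ((g : MatC) 0 0 * 0 * (starRingEnd ℂ) ((g : MatC) 0 1)).re + normSq ((g : MatC) 0 1) * 0 =
      normSq ((g : MatC) 1 0) * normSq ((g : MatC) 0 0 * ((g : MatC) 1 0)⁻¹)
    have e2 : normSq ((g : MatC) 1 0) * normSq ((g : MatC) 0 0 * ((g : MatC) 1 0)⁻¹) = normSq ((g : MatC) 0 0) := by
      rw [← map_mul, mul_comm, inv_mul_cancel_right₀ hc]
    rw [e2]
    simp
  · show (g : MatC) 0 0 * (starRingEnd ℂ) ((g : MatC) 1 0) * ((1 : ℝ) : ℂ) + (g : MatC) 0 0 * (starRingEnd ℂ) ((g : MatC) 1 1) * 0 +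
      (g : MatC) 0 1 * (starRingEnd ℂ) ((g : MatC) 1 0) * (starRingEnd ℂ) 0 + (g : MatC) 0 1 * (starRingEnd ℂ) ((g : MatC) 1 1) * ((0 : ℝ) : ℂ) =
      normSq ((g : MatC) 1 0) • ((g : MatC) 0 0 * ((g : MatC) 1 0)⁻¹)
    rw [real_smul, ← Complex.mul_conj]
    simp only [ofReal_one, mul_one, mul_zero, add_zero, map_zero, ofReal_zero]
    field_simp
  · show normSq ((g : MatC) 1 0) * 1 + 2 * ((g : MatC) 1 0 * 0 * (starRingEnd ℂ) ((g : MatC) 1 1)).re + normSq ((g : MatC) 1 1) * 0 =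
      normSq ((g : MatC) 1 0) * 1
    simp

theorem tr_vec {g : GLC} {v : ℂ} (hg : IsTr g v) (s : ℂ) : g • vec s = vec (s + v) := by
  rw [gl_smul_def]
  have h00 : normSq ((g : MatC) 0 0) = 1 := by rw [hg.h00, hg.h11]
  have hcc : (g : MatC) 1 1 * (starRingEnd ℂ) ((g : MatC) 1 1) = 1 := by rw [Complex.mul_conj, hg.h11, ofReal_one]
  refine Prod.ext ?_ (Prod.ext ?_ ?_)
  · show normSq ((g : MatC) 0 0) * normSq s + 2 * ((g : MatC) 0 0 * s * (starRingEnd ℂ) ((g : MatC) 0 1)).re + normSq ((g : MatC) 0 1) * 1 =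
      normSq (s + v)
    have e : (g : MatC) 0 0 * s * (starRingEnd ℂ) ((g : MatC) 0 1) = s * (starRingEnd ℂ) v := by
      rw [hg.h00, hg.h01, map_mul]
      calc (g : MatC) 1 1 * s * ((starRingEnd ℂ) v * (starRingEnd ℂ) ((g : MatC) 1 1)) =
          ((g : MatC) 1 1 * (starRingEnd ℂ) ((g : MatC) 1 1)) * (s * (starRingEnd ℂ) v) := by ring
        _ = _ := by rw [hcc, one_mul]
    rw [h00, e, hg.h01, map_mul, hg.h11, normSq_add]
    ring
  · show (g : MatC) 0 0 * (starRingEnd ℂ) ((g : MatC) 1 0) * ((normSq s : ℝ) : ℂ) + (g : MatC) 0 0 * (starRingEnd ℂ) ((g : MatC) 1 1) * s +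
      (g : MatC) 0 1 * (starRingEnd ℂ) ((g : MatC) 1 0) * (starRingEnd ℂ) s + (g : MatC) 0 1 * (starRingEnd ℂ) ((g : MatC) 1 1) * ((1 : ℝ) : ℂ) =
      s + v
    rw [hg.h10, hg.h00, hg.h01, map_zero, ofReal_one]
    linear_combination (s + v) * hcc
  · show normSq ((g : MatC) 1 0) * normSq s + 2 * ((g : MatC) 1 0 * s * (starRingEnd ℂ) ((g : MatC) 1 1)).re + normSq ((g : MatC) 1 1) * 1 = 1
    rw [hg.h10, hg.h11]
    simp

end Helper46.DFJ

end

section

/-!
Centres of the tiles: multipliers, exact equations, enclosures.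
-/

set_option linter.unusedSimpArgs false
set_option linter.unusedVariables false
set_option linter.unusedTactic false

namespace Helper46.DFJ

open Complex
open Pool.Agent.Helper20.DFJ (HE actH cr sp gl_smul_def dt actH_smul CH)

def tDet {R : Type*} [CommRing R] (A B C D E F : R) : R :=
  ((A * F) * (A * F) + (B * E) * (B * E) + (C * D) * (C * D)) - 2 * (((A * F) * (B * E) + (A * F) * (C * D)) + (B * E) * (C * D))

def tN0 {R : Type*} [CommRing R] (A B C D E F : R) : R :=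
  (((A * F) * (F - D - E)) + ((B * E) * (E - D - F)) + ((C * D) * (D - E - F))) + 2 * (D * E * F)
def tN1 {R : Type*} [CommRing R] (A B C D E F : R) : R :=
  (((A * F) * (F - B - C)) + ((C * D) * (C - B - F)) + ((B * E) * (B - C - F))) + 2 * (B * C * F)
def tN2 {R : Type*} [CommRing R] (A B C D E F : R) : R :=
  (((B * E) * (E - A - C)) + ((C * D) * (C - A - E)) + ((A * F) * (A - C - E))) + 2 * (A * C * E)
def tN3 {R : Type*} [CommRing R] (A B C D E F : R) : R :=
  (((C * D) * (D - A - B)) + ((B * E) * (B - A - D)) + ((A * F) * (A - B - D))) + 2 * (A * B * D)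

def tN {R : Type*} [CommRing R] (j : ℕ) (A B C D E F : R) : R :=
  match j with
  | 0 => tN0 A B C D E F
  | 1 => tN1 A B C D E F
  | 2 => tN2 A B C D E F
  | _ => tN3 A B C D E F

theorem tN_row0 {R : Type*} [CommRing R] (A B C D E F : R) :
    A * tN1 A B C D E F + B * tN2 A B C D E F + C * tN3 A B C D E F = tDet A B C D E F := by
  simp only [tN0, tN1, tN2, tN3, tDet]; ring
theorem tN_row1 {R : Type*} [CommRing R] (A B C D E F : R) :
    A * tN0 A B C D E F + D * tN2 A B C D E F + E * tN3 A B C D E F = tDet A B C D E F := by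
  simp only [tN0, tN1, tN2, tN3, tDet]; ring
theorem tN_row2 {R : Type*} [CommRing R] (A B C D E F : R) :
    B * tN0 A B C D E F + D * tN1 A B C D E F + F * tN3 A B C D E F = tDet A B C D E F := by
  simp only [tN0, tN1, tN2, tN3, tDet]; ring
theorem tN_row3 {R : Type*} [CommRing R] (A B C D E F : R) :
    C * tN0 A B C D E F + E * tN1 A B C D E F + F * tN2 A B C D E F = tDet A B C D E F := by
  simp only [tN0, tN1, tN2, tN3, tDet]; ring

def c2B : CB := CB.ofInt 2
theorem mem_c2B : c2B.Mem 2 := by simpa [c2B] using CB.mem_ofInt 2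

def tDetB (A B C D E F : CB) : CB :=
  ((((A.mul F).mul (A.mul F)).add ((B.mul E).mul (B.mul E))).add ((C.mul D).mul (C.mul D))).sub
    (c2B.mul ((((A.mul F).mul (B.mul E)).add ((A.mul F).mul (C.mul D))).add ((B.mul E).mul (C.mul D))))

def tNB (j : ℕ) (A B C D E F : CB) : CB :=
  match j with
  | 0 => ((((A.mul F).mul ((F.sub D).sub E)).add ((B.mul E).mul ((E.sub D).sub F))).add ((C.mul D).mul ((D.sub E).sub F))).add (c2B.mul ((D.mul E).mul F))
  | 1 => ((((A.mul F).mul ((F.sub B).sub C)).add ((C.mul D).mul ((C.sub B).sub F))).add ((B.mul E).mul ((B.sub C).sub F))).add (c2B.mul ((B.mul C).mul F))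
  | 2 => ((((B.mul E).mul ((E.sub A).sub C)).add ((C.mul D).mul ((C.sub A).sub E))).add ((A.mul F).mul ((A.sub C).sub E))).add (c2B.mul ((A.mul C).mul E))
  | _ => ((((C.mul D).mul ((D.sub A).sub B)).add ((B.mul E).mul ((B.sub A).sub D))).add ((A.mul F).mul ((A.sub B).sub D))).add (c2B.mul ((A.mul B).mul D))

theorem mem_tDet {A B C D E F : CB} {a b c d e f : ℝ} (hA : A.Mem a) (hB : B.Mem b) (hC : C.Mem c) (hD : D.Mem d)
    (hE : E.Mem e) (hF : F.Mem f) : (tDetB A B C D E F).Mem ((tDet a b c d e f : ℝ) : ℂ) := by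
  have h := ((((hA.mul hF).mul (hA.mul hF)).add ((hB.mul hE).mul (hB.mul hE))).add ((hC.mul hD).mul (hC.mul hD))).sub
    (mem_c2B.mul ((((hA.mul hF).mul (hB.mul hE)).add ((hA.mul hF).mul (hC.mul hD))).add ((hB.mul hE).mul (hC.mul hD))))
  unfold tDetB tDet
  push_cast
  exact h

theorem mem_tN (j : ℕ) {A B C D E F : CB} {a b c d e f : ℝ} (hA : A.Mem a) (hB : B.Mem b) (hC : C.Mem c) (hD : D.Mem d)
    (hE : E.Mem e) (hF : F.Mem f) : (tNB j A B C D E F).Mem ((tN j a b c d e f : ℝ) : ℂ) := by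
  match j with
  | 0 =>
    have h := ((((hA.mul hF).mul ((hF.sub hD).sub hE)).add ((hB.mul hE).mul ((hE.sub hD).sub hF))).add ((hC.mul hD).mul ((hD.sub hE).sub hF))).add (mem_c2B.mul ((hD.mul hE).mul hF))
    simp only [tNB, tN, tN0, tN1, tN2, tN3]
    push_cast
    exact h
  | 1 =>
    have h := ((((hA.mul hF).mul ((hF.sub hB).sub hC)).add ((hC.mul hD).mul ((hC.sub hB).sub hF))).add ((hB.mul hE).mul ((hB.sub hC).sub hF))).add (mem_c2B.mul ((hB.mul hC).mul hF))
    simp only [tNB, tN, tN0, tN1, tN2, tN3]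
    push_cast
    exact h
  | 2 =>
    have h := ((((hB.mul hE).mul ((hE.sub hA).sub hC)).add ((hC.mul hD).mul ((hC.sub hA).sub hE))).add ((hA.mul hF).mul ((hA.sub hC).sub hE))).add (mem_c2B.mul ((hA.mul hC).mul hE))
    simp only [tNB, tN, tN0, tN1, tN2, tN3]
    push_cast
    exact h
  | n + 3 =>
    have h := ((((hC.mul hD).mul ((hD.sub hA).sub hB)).add ((hB.mul hE).mul ((hB.sub hA).sub hD))).add ((hA.mul hF).mul ((hA.sub hB).sub hD))).add (mem_c2B.mul ((hA.mul hB).mul hD))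
    simp only [tNB, tN, tN0, tN1, tN2, tN3]
    push_cast
    exact h

def half (i : ℕ) : ℕ := nv i / 2
/-- class of an incidence -/
def ic (i k l : ℕ) : ℕ := (inc i k l).1

def rowE1 (i k : ℕ) : List ℕ := ((List.range (half i)).filter (fun l => !(Nat.beq l k))).map (fun l => ic i k l)
def rowE2 (i k : ℕ) : List ℕ := ((List.range (half i)).filter (fun l => !(Nat.beq (half i + l) k))).map (fun l => ic i k (half i + l))

def clsumB (L : List ℕ) : CB := (L.map kapB).foldr CB.add cb0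

/-- combinatorial checks on the table -/
def chkTab : Bool :=
  ((List.range 9).all fun i => (List.range (nv i)).all fun k => (List.range (nv i)).all fun l => Nat.beq k l || Nat.blt (ic i k l) 29) &&
  ((List.range 4).all fun j => (List.range (nv (j + 5))).all fun k =>
    if Nat.blt k (half (j + 5)) then (rowE1 (j + 5) k).isPerm (rowE1 (j + 5) 0) && (rowE2 (j + 5) k).isPerm (rowE2 (j + 5) 0)
    else (rowE1 (j + 5) k).isPerm (rowE1 (j + 5) (half (j + 5))) && (rowE2 (j + 5) k).isPerm (rowE2 (j + 5) (half (j + 5)))) &&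
  ((List.range 5).all fun i => Nat.beq (nv i) 4) &&
  ((List.range 4).all fun j => Nat.beq (nv (j + 5)) (2 * half (j + 5)))

set_option maxRecDepth 100000 in
theorem chkTab_true : chkTab = true := by decide +kernel

section

variable {u : V3} (hu : u ∈ box cen rho)

/-- sum of kappas -/
noncomputable def clsum (L : List ℕ) : ℝ := (L.map (kap hu)).sum

/-- weights -/
noncomputable def Gz (i k l : ℕ) : ℝ := if k = l then 0 else kap hu (ic i k l)

noncomputable def dlt (i : ℕ) : ℝ :=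
  if i < 5 then tDet (kap hu (ic i 0 1)) (kap hu (ic i 0 2)) (kap hu (ic i 0 3)) (kap hu (ic i 1 2)) (kap hu (ic i 1 3)) (kap hu (ic i 2 3))
  else clsum hu (rowE1 i 0) * clsum hu (rowE2 i (half i)) - clsum hu (rowE2 i 0) * clsum hu (rowE1 i (half i))

noncomputable def lamN (i l : ℕ) : ℝ :=
  if i < 5 then tN l (kap hu (ic i 0 1)) (kap hu (ic i 0 2)) (kap hu (ic i 0 3)) (kap hu (ic i 1 2)) (kap hu (ic i 1 3)) (kap hu (ic i 2 3))
  else if l < half i then clsum hu (rowE2 i (half i)) - clsum hu (rowE2 i 0)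
  else clsum hu (rowE1 i 0) - clsum hu (rowE1 i (half i))

noncomputable def lam (i l : ℕ) : ℝ := lamN hu i l * (dlt hu i)⁻¹

end

def dltB (i : ℕ) : CB :=
  if i < 5 then tDetB (kapB (ic i 0 1)) (kapB (ic i 0 2)) (kapB (ic i 0 3)) (kapB (ic i 1 2)) (kapB (ic i 1 3)) (kapB (ic i 2 3))
  else ((clsumB (rowE1 i 0)).mul (clsumB (rowE2 i (half i)))).sub ((clsumB (rowE2 i 0)).mul (clsumB (rowE1 i (half i))))

def lamNB (i l : ℕ) : CB :=
  if i < 5 then tNB l (kapB (ic i 0 1)) (kapB (ic i 0 2)) (kapB (ic i 0 3)) (kapB (ic i 1 2)) (kapB (ic i 1 3)) (kapB (ic i 2 3))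
  else if l < half i then (clsumB (rowE2 i (half i))).sub (clsumB (rowE2 i 0))
  else (clsumB (rowE1 i 0)).sub (clsumB (rowE1 i (half i)))

def chkLam : Bool :=
  (List.range 9).all fun i => (dltB i).invchk (detiB i) && (dltB i).nz && (List.range (nv i)).all fun l => ((lamNB i l).mul (detiB i)).incl (lamB i l)

set_option maxRecDepth 100000 in
theorem chkLam_true : chkLam = true := by decide +kernel

section

variable {u : V3} (hu : u ∈ box cen rho)

theorem ic_lt {i k l : ℕ} (hi : i < 9) (hk : k < nv i) (hl : l < nv i) (hkl : k ≠ l) : ic i k l < 29 := by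
  have h := chkTab_true
  unfold chkTab at h
  simp only [Bool.and_eq_true] at h
  have h1 := h.1.1.1
  rw [List.all_eq_true] at h1
  have h2 := h1 i (List.mem_range.2 hi)
  rw [List.all_eq_true] at h2
  have h3 := h2 k (List.mem_range.2 hk)
  rw [List.all_eq_true] at h3
  have h4 := h3 l (List.mem_range.2 hl)
  rw [Bool.or_eq_true] at h4
  rcases h4 with h4 | h4
  · exact absurd (Nat.eq_of_beq_eq_true h4) hkl
  · simpa [Nat.blt_eq] using h4

theorem nv_tet {i : ℕ} (hi : i < 5) : nv i = 4 := by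
  have h := chkTab_true
  unfold chkTab at h
  simp only [Bool.and_eq_true] at h
  have h1 := h.1.2
  rw [List.all_eq_true] at h1
  exact Nat.eq_of_beq_eq_true (h1 i (List.mem_range.2 hi))

theorem nv_orb {i : ℕ} (h5 : 5 ≤ i) (hi : i < 9) : nv i = 2 * half i := by
  have h := chkTab_true
  unfold chkTab at h
  simp only [Bool.and_eq_true] at h
  have h1 := h.2
  rw [List.all_eq_true] at h1
  have := Nat.eq_of_beq_eq_true (h1 (i - 5) (List.mem_range.2 (by omega)))
  rwa [show i - 5 + 5 = i by omega] at this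

theorem half_pos {i : ℕ} (h5 : 5 ≤ i) (hi : i < 9) : 0 < half i := by
  interval_cases i <;> decide +kernel

include hu

theorem mem_clsum (L : List ℕ) (hL : ∀ e ∈ L, e < 29) : (clsumB L).Mem ((clsum hu L : ℝ) : ℂ) := by
  induction L with
  | nil =>
    unfold clsumB clsum CB.Mem
    simp [cb0, SB.toC_zero]
  | cons e L ih =>
    have h1 := kap_mem hu (hL e (by simp))
    have h2 := ih (fun e' he' => hL e' (by simp only [List.mem_cons]; exact Or.inr he'))
    have h3 := h1.add h2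
    unfold clsumB clsum at *
    simpa using h3

theorem rowE1_lt {i k : ℕ} (h5 : 5 ≤ i) (hi : i < 9) (hk : k < nv i) : ∀ e ∈ rowE1 i k, e < 29 := by
  intro e he
  unfold rowE1 at he
  rw [List.mem_map] at he
  obtain ⟨l, hl, rfl⟩ := he
  rw [List.mem_filter, List.mem_range] at hl
  have hn := nv_orb h5 hi
  refine ic_lt hi hk (by omega) ?_
  rintro rfl
  simp at hl

theorem rowE2_lt {i k : ℕ} (h5 : 5 ≤ i) (hi : i < 9) (hk : k < nv i) : ∀ e ∈ rowE2 i k, e < 29 := by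
  intro e he
  unfold rowE2 at he
  rw [List.mem_map] at he
  obtain ⟨l, hl, rfl⟩ := he
  rw [List.mem_filter, List.mem_range] at hl
  have hn := nv_orb h5 hi
  refine ic_lt hi hk (by omega) ?_
  rintro rfl
  simp at hl

theorem mem_dlt {i : ℕ} (hi : i < 9) : (dltB i).Mem ((dlt hu i : ℝ) : ℂ) := by
  unfold dltB dlt
  split_ifs with h5
  · have hn := nv_tet h5
    exact mem_tDet (kap_mem hu (ic_lt hi (by omega) (by omega) (by decide))) (kap_mem hu (ic_lt hi (by omega) (by omega) (by decide)))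
      (kap_mem hu (ic_lt hi (by omega) (by omega) (by decide))) (kap_mem hu (ic_lt hi (by omega) (by omega) (by decide)))
      (kap_mem hu (ic_lt hi (by omega) (by omega) (by decide))) (kap_mem hu (ic_lt hi (by omega) (by omega) (by decide)))
  · have h5' : 5 ≤ i := by omega
    have hn := nv_orb h5' hi
    have hp := half_pos h5' hi
    push_cast
    exact ((mem_clsum hu _ (rowE1_lt hu h5' hi (by omega))).mul (mem_clsum hu _ (rowE2_lt hu h5' hi (by omega)))).sub
      ((mem_clsum hu _ (rowE2_lt hu h5' hi (by omega))).mul (mem_clsum hu _ (rowE1_lt hu h5' hi (by omega))))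

theorem mem_lamN {i : ℕ} (hi : i < 9) (l : ℕ) : (lamNB i l).Mem ((lamN hu i l : ℝ) : ℂ) := by
  unfold lamNB lamN
  split_ifs with h5 hl
  · have hn := nv_tet h5
    exact mem_tN l (kap_mem hu (ic_lt hi (by omega) (by omega) (by decide))) (kap_mem hu (ic_lt hi (by omega) (by omega) (by decide)))
      (kap_mem hu (ic_lt hi (by omega) (by omega) (by decide))) (kap_mem hu (ic_lt hi (by omega) (by omega) (by decide)))
      (kap_mem hu (ic_lt hi (by omega) (by omega) (by decide))) (kap_mem hu (ic_lt hi (by omega) (by omega) (by decide)))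
  · have h5' : 5 ≤ i := by omega
    have hn := nv_orb h5' hi
    have hp := half_pos h5' hi
    push_cast
    exact (mem_clsum hu _ (rowE2_lt hu h5' hi (by omega))).sub (mem_clsum hu _ (rowE2_lt hu h5' hi (by omega)))
  · have h5' : 5 ≤ i := by omega
    have hn := nv_orb h5' hi
    have hp := half_pos h5' hi
    push_cast
    exact (mem_clsum hu _ (rowE1_lt hu h5' hi (by omega))).sub (mem_clsum hu _ (rowE1_lt hu h5' hi (by omega)))

theorem chkLam_i {i : ℕ} (hi : i < 9) : ((dltB i).invchk (detiB i) = true ∧ (dltB i).nz = true) ∧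
    ∀ l < nv i, ((lamNB i l).mul (detiB i)).incl (lamB i l) = true := by
  have h := chkLam_true
  unfold chkLam at h
  rw [List.all_eq_true] at h
  have h1 := h i (List.mem_range.2 hi)
  simp only [Bool.and_eq_true] at h1
  refine ⟨h1.1, fun l hl => ?_⟩
  have h2 := h1.2
  rw [List.all_eq_true] at h2
  exact h2 l (List.mem_range.2 hl)

theorem dlt_ne {i : ℕ} (hi : i < 9) : dlt hu i ≠ 0 := by
  intro h0
  have := CB.ne_zero (mem_dlt hu hi) (chkLam_i hu hi).1.2
  apply this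
  rw [h0]
  simp

theorem mem_lam {i l : ℕ} (hi : i < 9) (hl : l < nv i) : (lamB i l).Mem ((lam hu i l : ℝ) : ℂ) := by
  have h1 := (mem_dlt hu hi).inv (chkLam_i hu hi).1.1
  have h2 := ((mem_lamN hu hi l).mul h1).incl ((chkLam_i hu hi).2 l hl)
  unfold lam
  push_cast
  exact h2

end

end Helper46.DFJ

end

section

/-!
Frames: the centre of a tile seen from one of its vertices.
-/

set_option linter.unusedSimpArgs false
set_option linter.unusedVariables false
set_option linter.unusedSectionVars false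

namespace Helper46.DFJ

open Complex
open Pool.Agent.Helper20.DFJ (HE actH cr sp gl_smul_def dt actH_smul CH)

theorem list_sum_range (f : ℕ → ℝ) (n : ℕ) : ((List.range n).map f).sum = ∑ l ∈ Finset.range n, f l := by
  induction n with
  | zero => simp
  | succ n ih => rw [List.range_succ, List.map_append, List.sum_append, ih, Finset.sum_range_succ]; simp

theorem list_filter_sum (f : ℕ → ℝ) (p : ℕ → Bool) (L : List ℕ) :
    ((L.filter p).map f).sum = (L.map (fun l => if p l then f l else 0)).sum := by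
  induction L with
  | nil => simp
  | cons a L ih =>
    by_cases h : p a
    · simp [List.filter_cons, h, ih]
    · simp [List.filter_cons, h, ih]

section

variable {u : V3} (hu : u ∈ box cen rho)

theorem clsum_rowE1 (i k : ℕ) : clsum hu (rowE1 i k) = ∑ l ∈ Finset.range (half i), Gz hu i k l := by
  unfold clsum rowE1
  rw [List.map_map, list_filter_sum, list_sum_range]
  refine Finset.sum_congr rfl fun l _ => ?_
  unfold Gz
  by_cases h : k = l
  · subst h; simp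
  · have : Nat.beq l k = false := by
      rw [Bool.eq_false_iff]; intro h'; exact h (Nat.eq_of_beq_eq_true h').symm
    simp [h, this]

theorem clsum_rowE2 (i k : ℕ) : clsum hu (rowE2 i k) = ∑ l ∈ Finset.range (half i), Gz hu i k (half i + l) := by
  unfold clsum rowE2
  rw [List.map_map, list_filter_sum, list_sum_range]
  refine Finset.sum_congr rfl fun l _ => ?_
  unfold Gz
  by_cases h : k = half i + l
  · subst h; simp
  · have : Nat.beq (half i + l) k = false := by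
      rw [Bool.eq_false_iff]; intro h'; exact h (Nat.eq_of_beq_eq_true h').symm
    simp [h, this]

theorem perm_rows {i k : ℕ} (h5 : 5 ≤ i) (hi : i < 9) (hk : k < nv i) :
    (k < half i → (rowE1 i k).Perm (rowE1 i 0) ∧ (rowE2 i k).Perm (rowE2 i 0)) ∧
    (¬ k < half i → (rowE1 i k).Perm (rowE1 i (half i)) ∧ (rowE2 i k).Perm (rowE2 i (half i))) := by
  have h := chkTab_true
  unfold chkTab at h
  simp only [Bool.and_eq_true] at h
  have h1 := h.1.1.2
  rw [List.all_eq_true] at h1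
  have h2 := h1 (i - 5) (List.mem_range.2 (by omega))
  rw [show i - 5 + 5 = i by omega, List.all_eq_true] at h2
  have h3 := h2 k (List.mem_range.2 hk)
  constructor
  · intro hlt
    have hb : Nat.blt k (half i) = true := by simpa [Nat.blt_eq] using hlt
    rw [if_pos hb, Bool.and_eq_true] at h3
    exact ⟨List.isPerm_iff.1 h3.1, List.isPerm_iff.1 h3.2⟩
  · intro hlt
    have hb : ¬ Nat.blt k (half i) = true := by simpa [Nat.blt_eq] using hlt
    rw [if_neg hb, Bool.and_eq_true] at h3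
    exact ⟨List.isPerm_iff.1 h3.1, List.isPerm_iff.1 h3.2⟩

theorem clsum_perm {L L' : List ℕ} (h : L.Perm L') : clsum hu L = clsum hu L' := by
  unfold clsum
  exact (h.map _).sum_eq

theorem row_orb {i k : ℕ} (h5 : 5 ≤ i) (hi : i < 9) (hk : k < nv i) :
    ∑ l ∈ Finset.range (nv i), lam hu i l * Gz hu i k l = 1 := by
  have hn := nv_orb h5 hi
  have hp := half_pos h5 hi
  have hd := dlt_ne hu hi
  set h := half i with hh
  have h5' : ¬ i < 5 := by omega
  have hd2 : dlt hu i = clsum hu (rowE1 i 0) * clsum hu (rowE2 i h) - clsum hu (rowE2 i 0) * clsum hu (rowE1 i h) := by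
    unfold dlt; rw [if_neg h5']
  rw [hn, two_mul, Finset.sum_range_add]
  have e1 : ∀ l ∈ Finset.range h, lam hu i l * Gz hu i k l =
      ((clsum hu (rowE2 i h) - clsum hu (rowE2 i 0)) * (dlt hu i)⁻¹) * Gz hu i k l := by
    intro l hl
    rw [Finset.mem_range] at hl
    unfold lam lamN
    rw [if_neg h5', if_pos hl]
  have e2 : ∀ l ∈ Finset.range h, lam hu i (h + l) * Gz hu i k (h + l) =
      ((clsum hu (rowE1 i 0) - clsum hu (rowE1 i h)) * (dlt hu i)⁻¹) * Gz hu i k (h + l) := by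
    intro l hl
    unfold lam lamN
    rw [if_neg h5', if_neg (by omega)]
  rw [Finset.sum_congr rfl e1, Finset.sum_congr rfl e2, ← Finset.mul_sum, ← Finset.mul_sum,
    ← clsum_rowE1, ← clsum_rowE2]
  rcases lt_or_ge k h with hlt | hge
  · obtain ⟨p1, p2⟩ := (perm_rows h5 hi hk).1 hlt
    rw [clsum_perm hu p1, clsum_perm hu p2]
    refine Eq.trans ?_ (mul_inv_cancel₀ hd)
    rw [hd2]; ring
  · obtain ⟨p1, p2⟩ := (perm_rows h5 hi hk).2 (by omega)
    rw [← hh] at p1 p2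
    rw [clsum_perm hu p1, clsum_perm hu p2]
    refine Eq.trans ?_ (mul_inv_cancel₀ hd)
    rw [hd2]; ring

variable (hz : ∀ i, eqF u i = 0)

/-- translations -/
theorem isTr_pe {u : V3} (hu : u ∈ box cen rho) (hz : ∀ i, eqF u i = 0) (a b : ℤ) :
    IsTr (tG u ^ a * (Pel (bG u) (cG u (kappa_ne hu)) (tG u)) ^ b) (a * u 0 + b * om2 hu) :=
  ((isTr_t u).zpow a).mul ((isTr_p hu hz).zpow b)

include hz

theorem ns_site {i k l : ℕ} (hi : i < 9) (hk : k < nv i) (hl : l < nv i) (hkl : k ≠ l) :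
    ns ((MW hu (xw i k))⁻¹ * MW hu (xw i l)) = kap hu (ic i k l) := by
  unfold MW
  rw [inc_spec (rels_mat hu hz) i k l hi hk hl hkl, ns_mul_tr (isTr_pe hu hz _ _), ns_tr_mul (isTr_pe hu hz _ _)]
  rfl

theorem kap_symm {i k l : ℕ} (hi : i < 9) (hk : k < nv i) (hl : l < nv i) (hkl : k ≠ l) :
    kap hu (ic i k l) = kap hu (ic i l k) := by
  rw [← ns_site hu hz hi hk hl hkl, ← ns_site hu hz hi hl hk hkl.symm]
  have e : (MW hu (xw i k))⁻¹ * MW hu (xw i l) = ((MW hu (xw i l))⁻¹ * MW hu (xw i k))⁻¹ := by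
    rw [mul_inv_rev, inv_inv]
  rw [e, ns_inv]
  rw [map_mul, map_inv, nd_MW, nd_MW]
  simp

theorem row_tet {i k : ℕ} (h5 : i < 5) (hk : k < nv i) :
    ∑ l ∈ Finset.range (nv i), lam hu i l * Gz hu i k l = 1 := by
  have hn := nv_tet h5
  have hi : i < 9 := by omega
  have hd := dlt_ne hu hi
  rw [hn] at hk ⊢
  have s10 := kap_symm hu hz hi (k := 1) (l := 0) (by omega) (by omega) (by decide)
  have s20 := kap_symm hu hz hi (k := 2) (l := 0) (by omega) (by omega) (by decide)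
  have s30 := kap_symm hu hz hi (k := 3) (l := 0) (by omega) (by omega) (by decide)
  have s21 := kap_symm hu hz hi (k := 2) (l := 1) (by omega) (by omega) (by decide)
  have s31 := kap_symm hu hz hi (k := 3) (l := 1) (by omega) (by omega) (by decide)
  have s32 := kap_symm hu hz hi (k := 3) (l := 2) (by omega) (by omega) (by decide)
  have hd2 : dlt hu i = tDet (kap hu (ic i 0 1)) (kap hu (ic i 0 2)) (kap hu (ic i 0 3)) (kap hu (ic i 1 2)) (kap hu (ic i 1 3)) (kap hu (ic i 2 3)) := by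
    unfold dlt; rw [if_pos h5]
  simp only [Finset.sum_range_succ, Finset.sum_range_zero, zero_add]
  unfold lam lamN Gz
  simp only [if_pos h5, tN]
  interval_cases k
  · simp only [if_true, if_neg (show ¬ (0 : ℕ) = 1 by decide), if_neg (show ¬ (0 : ℕ) = 2 by decide), if_neg (show ¬ (0 : ℕ) = 3 by decide)]
    have r := tN_row0 (kap hu (ic i 0 1)) (kap hu (ic i 0 2)) (kap hu (ic i 0 3)) (kap hu (ic i 1 2)) (kap hu (ic i 1 3)) (kap hu (ic i 2 3))
    rw [← hd2] at r
    field_simp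
    linear_combination r
  · simp only [if_true, if_neg (show ¬ (1 : ℕ) = 0 by decide), if_neg (show ¬ (1 : ℕ) = 2 by decide), if_neg (show ¬ (1 : ℕ) = 3 by decide)]
    rw [s10]
    have r := tN_row1 (kap hu (ic i 0 1)) (kap hu (ic i 0 2)) (kap hu (ic i 0 3)) (kap hu (ic i 1 2)) (kap hu (ic i 1 3)) (kap hu (ic i 2 3))
    rw [← hd2] at r
    field_simp
    linear_combination r
  · simp only [if_true, if_neg (show ¬ (2 : ℕ) = 0 by decide), if_neg (show ¬ (2 : ℕ) = 1 by decide), if_neg (show ¬ (2 : ℕ) = 3 by decide)]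
    rw [s20, s21]
    have r := tN_row2 (kap hu (ic i 0 1)) (kap hu (ic i 0 2)) (kap hu (ic i 0 3)) (kap hu (ic i 1 2)) (kap hu (ic i 1 3)) (kap hu (ic i 2 3))
    rw [← hd2] at r
    field_simp
    linear_combination r
  · simp only [if_true, if_neg (show ¬ (3 : ℕ) = 0 by decide), if_neg (show ¬ (3 : ℕ) = 1 by decide), if_neg (show ¬ (3 : ℕ) = 2 by decide)]
    rw [s30, s31, s32]
    have r := tN_row3 (kap hu (ic i 0 1)) (kap hu (ic i 0 2)) (kap hu (ic i 0 3)) (kap hu (ic i 1 2)) (kap hu (ic i 1 3)) (kap hu (ic i 2 3))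
    rw [← hd2] at r
    field_simp
    linear_combination r

theorem row_one {i k : ℕ} (hi : i < 9) (hk : k < nv i) :
    ∑ l ∈ Finset.range (nv i), lam hu i l * Gz hu i k l = 1 := by
  rcases lt_or_ge i 5 with h | h
  · exact row_tet hu hz h hk
  · exact row_orb hu h hi hk

end

end Helper46.DFJ

end

section

/-!
Frames, part 2: the centre seen from a vertex, enclosures.
-/

set_option linter.unusedSimpArgs false
set_option linter.unusedVariables false
set_option linter.unusedSectionVars false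

namespace Helper46.DFJ

open Complex
open Pool.Agent.Helper20.DFJ (HE actH cr sp gl_smul_def dt actH_smul CH)

section

variable {u : V3} (hu : u ∈ box cen rho)

/-- position of the vertex `l` of the tile `i` seen from its vertex `k` -/
noncomputable def posI (i k l : ℕ) : ℂ := sC hu (ic i k l) + (((inc i k l).2.1 : ℂ) * u 0 + ((inc i k l).2.2.1 : ℂ) * om2 hu)

/-- centre of the tile `i` -/
noncomputable def cH (i : ℕ) : HE := ∑ l ∈ Finset.range (nv i), lam hu i l • (MW hu (xw i l) • E0)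

noncomputable def zC (i k : ℕ) : ℂ := ∑ l ∈ Finset.range (nv i), if k = l then 0 else ((lam hu i l * kap hu (ic i k l) : ℝ) : ℂ) * posI hu i k l
noncomputable def qR (i k : ℕ) : ℝ := lam hu i k + ∑ l ∈ Finset.range (nv i), if k = l then 0 else lam hu i l * kap hu (ic i k l) * normSq (posI hu i k l)

theorem gl_smul_real (g : GLC) (t : ℝ) (y : HE) : g • (t • y) = t • (g • y) := by
  rw [gl_smul_def, gl_smul_def, actH_smul]

theorem gl_smul_fsum (g : GLC) (n : ℕ) (f : ℕ → HE) : g • (∑ l ∈ Finset.range n, f l) = ∑ l ∈ Finset.range n, g • f l := by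
  induction n with
  | zero => simp
  | succ n ih => rw [Finset.sum_range_succ, Finset.sum_range_succ, smul_add, ih]

theorem frame_vec (hz : ∀ i, eqF u i = 0) {i k l : ℕ} (hi : i < 9) (hk : k < nv i) (hl : l < nv i) (hkl : k ≠ l) :
    ((MW hu (xw i k))⁻¹ * MW hu (xw i l)) • E0 = kap hu (ic i k l) • vec (posI hu i k l) := by
  unfold MW
  rw [inc_spec (rels_mat hu hz) i k l hi hk hl hkl, mul_smul, mul_smul, tr_E0 (isTr_pe hu hz _ _)]
  have h1 := N_E0 (c_ne hu (ic_lt hi hk hl hkl))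
  have h2 : (ev (bG u) (cG u (kappa_ne hu)) (tG u) (nw (inc i k l).1)) • E0 = kap hu (ic i k l) • vec (sC hu (ic i k l)) := h1
  rw [h2, gl_smul_real, tr_vec (isTr_pe hu hz _ _)]
  rfl

theorem cc_eq (hz : ∀ i, eqF u i = 0) {i k : ℕ} (hi : i < 9) (hk : k < nv i) :
    (MW hu (xw i k))⁻¹ • cH hu i = (qR hu i k, zC hu i k, 1) := by
  have e1 : (MW hu (xw i k))⁻¹ • cH hu i = ∑ l ∈ Finset.range (nv i),
      (if k = l then lam hu i l • E0 else (lam hu i l * kap hu (ic i k l)) • vec (posI hu i k l)) := by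
    unfold cH
    rw [gl_smul_fsum]
    refine Finset.sum_congr rfl fun l hl => ?_
    rw [Finset.mem_range] at hl
    rw [gl_smul_real, ← mul_smul]
    by_cases h : k = l
    · subst h
      rw [if_pos rfl, inv_mul_cancel, one_smul]
    · rw [if_neg h, frame_vec hu hz hi hk hl h, smul_smul]
  rw [e1]
  have hsum : ∀ (n : ℕ) (f : ℕ → HE), (∑ l ∈ Finset.range n, f l) =
      (∑ l ∈ Finset.range n, (f l).1, ∑ l ∈ Finset.range n, (f l).2.1, ∑ l ∈ Finset.range n, (f l).2.2) := by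
    intro n f
    induction n with
    | zero => simp only [Finset.sum_range_zero]; rfl
    | succ n ih => rw [Finset.sum_range_succ, ih]; simp only [Finset.sum_range_succ]; rfl
  rw [hsum]
  refine Prod.ext ?_ (Prod.ext ?_ ?_)
  · show ∑ l ∈ Finset.range (nv i), (if k = l then lam hu i l • E0 else (lam hu i l * kap hu (ic i k l)) • vec (posI hu i k l)).1 = qR hu i k
    unfold qR
    have e2 : ∀ l ∈ Finset.range (nv i), (if k = l then lam hu i l • E0 else (lam hu i l * kap hu (ic i k l)) • vec (posI hu i k l)).1 =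
        (if k = l then lam hu i l else 0) + (if k = l then 0 else lam hu i l * kap hu (ic i k l) * normSq (posI hu i k l)) := by
      intro l _
      by_cases h : k = l
      · simp [h, E0]
      · simp [h, vec]
    rw [Finset.sum_congr rfl e2, Finset.sum_add_distrib]
    congr 1
    rw [Finset.sum_ite_eq]
    rw [if_pos (Finset.mem_range.2 hk)]
  · show ∑ l ∈ Finset.range (nv i), (if k = l then lam hu i l • E0 else (lam hu i l * kap hu (ic i k l)) • vec (posI hu i k l)).2.1 = zC hu i k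
    unfold zC
    refine Finset.sum_congr rfl fun l _ => ?_
    by_cases h : k = l
    · simp [h, E0]
    · simp [h, vec]
  · show ∑ l ∈ Finset.range (nv i), (if k = l then lam hu i l • E0 else (lam hu i l * kap hu (ic i k l)) • vec (posI hu i k l)).2.2 = 1
    rw [← row_one hu hz hi hk]
    refine Finset.sum_congr rfl fun l _ => ?_
    unfold Gz
    by_cases h : k = l
    · simp [h, E0]
    · simp [h, vec]

end

def posB (e : ℕ) (a b : ℤ) : CB := (sB e).add (((CB.ofInt a).mul w1B).add ((CB.ofInt b).mul w2B))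
def posIB (i k l : ℕ) : CB := posB (ic i k l) (inc i k l).2.1 (inc i k l).2.2.1

def sumB (f : ℕ → CB) : ℕ → CB
  | 0 => cb0
  | n + 1 => (sumB f n).add (f n)

def zF (i k : ℕ) : CB := sumB (fun l => if Nat.beq k l then cb0 else ((lamB i l).mul (kapB (ic i k l))).mul (posIB i k l)) (nv i)
def qF (i k : ℕ) : CB := (lamB i k).add (sumB (fun l => if Nat.beq k l then cb0 else ((lamB i l).mul (kapB (ic i k l))).mul ((posIB i k l).mul (posIB i k l).conj)) (nv i))

def chkZ : Bool :=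
  (List.range 9).all fun i => (List.range (nv i)).all fun k => (zF i k).incl (zB i k) && (qF i k).incl (qB i k)

set_option maxRecDepth 100000 in
theorem chkZ_true : chkZ = true := by decide +kernel

theorem mem_cb0 : cb0.Mem 0 := by
  unfold CB.Mem
  simp [cb0, SB.toC_zero]

theorem mem_sumB {f : ℕ → CB} {g : ℕ → ℂ} {n : ℕ} (h : ∀ l < n, (f l).Mem (g l)) :
    (sumB f n).Mem (∑ l ∈ Finset.range n, g l) := by
  induction n with
  | zero => simpa [sumB] using mem_cb0
  | succ n ih =>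
    rw [Finset.sum_range_succ]
    exact (ih (fun l hl => h l (by omega))).add (h n (by omega))

section

variable {u : V3} (hu : u ∈ box cen rho)

theorem mem_posB {e : ℕ} (he : e < 29) (a b : ℤ) : (posB e a b).Mem (sC hu e + ((a : ℂ) * u 0 + (b : ℂ) * om2 hu)) :=
  (s_mem hu he).add (((CB.mem_ofInt a).mul (mem_w1 hu)).add ((CB.mem_ofInt b).mul (mem_w2 hu)))

theorem mem_z {i k : ℕ} (hi : i < 9) (hk : k < nv i) : (zB i k).Mem (zC hu i k) ∧ (qB i k).Mem ((qR hu i k : ℝ) : ℂ) := by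
  have h := chkZ_true
  unfold chkZ at h
  rw [List.all_eq_true] at h
  have h1 := h i (List.mem_range.2 hi)
  rw [List.all_eq_true] at h1
  have h2 := h1 k (List.mem_range.2 hk)
  rw [Bool.and_eq_true] at h2
  constructor
  · refine CB.Mem.incl ?_ h2.1
    unfold zF zC
    apply mem_sumB
    intro l hl
    by_cases hkl : k = l
    · subst hkl
      rw [if_pos (Nat.beq_refl k), if_pos rfl]
      exact mem_cb0
    · have hb : ¬ (Nat.beq k l = true) := fun h' => hkl (Nat.eq_of_beq_eq_true h')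
      rw [if_neg hb, if_neg hkl]
      push_cast
      exact ((mem_lam hu hi hl).mul (kap_mem hu (ic_lt hi hk hl hkl))).mul (mem_posB hu (ic_lt hi hk hl hkl) _ _)
  · refine CB.Mem.incl ?_ h2.2
    unfold qF qR
    rw [Complex.ofReal_add]
    refine (mem_lam hu hi hk).add ?_
    rw [Complex.ofReal_sum]
    apply mem_sumB
    intro l hl
    by_cases hkl : k = l
    · subst hkl
      rw [if_pos (Nat.beq_refl k), if_pos rfl, Complex.ofReal_zero]
      exact mem_cb0
    · have hb : ¬ (Nat.beq k l = true) := fun h' => hkl (Nat.eq_of_beq_eq_true h')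
      rw [if_neg hb, if_neg hkl]
      have hp : (posIB i k l).Mem (posI hu i k l) := mem_posB hu (ic_lt hi hk hl hkl) _ _
      have := ((mem_lam hu hi hl).mul (kap_mem hu (ic_lt hi hk hl hkl))).mul (hp.mul hp.conj)
      rw [Complex.mul_conj] at this
      push_cast
      exact this

end

end Helper46.DFJ

end

section

/-!
Emptiness: all sites which are not vertices are strictly outside.
-/

set_option linter.unusedSimpArgs false
set_option linter.unusedVariables false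
set_option linter.unusedSectionVars false

namespace Helper46.DFJ

open Complex
open Pool.Agent.Helper20.DFJ (HE actH cr sp gl_smul_def dt actH_smul CH)

/-- power of the site at the frame: q - 2 Re(conj z P) + |P|^2 - rad -/
def powB (i k e : ℕ) (a b : ℤ) : CB :=
  let P := posB e a b
  let z := zB i k
  ((((qB i k).sub (z.conj.mul P)).sub (z.mul P.conj)).add (P.mul P.conj)).sub (radB e)

/-- the area, as the imaginary part of conj w1 * w2 -/
def areaB : CB := w1B.conj.mul w2B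

/-- nearest translates -/
def near1 (i k e : ℕ) : ℤ := (2 * (-((((zB i k).sub (sB e)).conj.mul w2B).c.y)) - areaB.c.y) / (2 * (-areaB.c.y))
def near2 (i k e : ℕ) : ℤ := (2 * (-((w1B.conj.mul ((zB i k).sub (sB e))).c.y)) - areaB.c.y) / (2 * (-areaB.c.y))

/-- is the site a vertex of the frame -/
def isV (i k e : ℕ) (a b : ℤ) : Bool :=
  (List.range (nv i)).any fun l => !(Nat.beq l k) && Nat.beq (ic i k l) e && decide ((inc i k l).2.1 = a) && decide ((inc i k l).2.2.1 = b)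

def absLe (c : CB) (n : ℤ) : Bool := decide (1000 * (c.c.y + c.r) ≤ n * SC) && decide (-(n * SC) ≤ 1000 * (c.c.y - c.r))

def chkE (i k e : ℕ) : Bool :=
  let a := near1 i k e
  let b := near2 i k e
  absLe (((((zB i k).sub (sB e)).sub ((CB.ofInt a).mul w1B)).conj).mul w2B) 5400 &&
  absLe (w1B.conj.mul (((zB i k).sub (sB e)).sub ((CB.ofInt b).mul w2B))) 5400 &&
  (isV i k e a b || decide (((powB i k e a b).r : ℤ) < (powB i k e a b).c.x)) &&
  decide (1000 * ((((radB e).sub (qB i k)).add ((zB i k).mul (zB i k).conj)).c.x + (((radB e).sub (qB i k)).add ((zB i k).mul (zB i k).conj)).r) ≤ 870 * SC)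

def chkEAll : Bool :=
  (List.range 9).all fun i => (List.range (nv i)).all fun k => (List.range 29).all fun e => chkE i k e

set_option maxRecDepth 100000 in
theorem chkEAll_true : chkEAll = true := by decide +kernel

def chkLat : Bool :=
  decide (1000 * (areaB.c.y + areaB.r) ≤ (-10780) * SC) &&
  decide (1000 * ((w1B.mul w1B.conj).c.x + (w1B.mul w1B.conj).r) ≤ 5050 * SC) &&
  decide (1000 * ((w2B.mul w2B.conj).c.x + (w2B.mul w2B.conj).r) ≤ 25150 * SC)

theorem chkLat_true : chkLat = true := by decide +kernel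

theorem cr_sq_le (v w : ℂ) : (cr v w) ^ 2 ≤ normSq v * normSq w := by
  have : normSq v * normSq w = (cr v w) ^ 2 + (sp v w) ^ 2 := by
    simp only [cr, sp, normSq_apply]; ring
  nlinarith [sq_nonneg (sp v w)]

/-- far translates -/
theorem far_lemma {xi w1 w2 : ℂ} {a0 b0 : ℤ} (hA : cr w1 w2 ≤ -10.78) (h1 : normSq w1 ≤ 5.05) (h2 : normSq w2 ≤ 25.15)
    (hD1 : |cr (xi - a0 * w1) w2| ≤ 5.4) (hD2 : |cr w1 (xi - b0 * w2)| ≤ 5.4) (a b : ℤ) (hab : ¬ (a = a0 ∧ b = b0)) :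
    0.87 < normSq (xi - (a * w1 + b * w2)) := by
  set v := xi - (a * w1 + b * w2) with hv
  rw [abs_le] at hD1 hD2
  by_cases ha : a = a0
  · have hb : b ≠ b0 := fun h => hab ⟨ha, h⟩
    have e : cr w1 v = cr w1 (xi - b0 * w2) - ((b : ℝ) - b0) * cr w1 w2 := by
      simp only [hv, cr, sub_re, sub_im, add_re, add_im, mul_re, mul_im, intCast_re, intCast_im]; ring
    have hint : (1 : ℤ) ≤ |b - b0| := Int.one_le_abs (sub_ne_zero.2 hb)
    have hre : (1 : ℝ) ≤ |(b : ℝ) - b0| := by exact_mod_cast hint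
    have hbig : 5.38 ≤ |cr w1 v| := by
      rw [e]
      rcases le_total 0 ((b : ℝ) - b0) with h | h
      · rw [abs_of_nonneg h] at hre
        rw [le_abs]; left; nlinarith
      · rw [abs_of_nonpos h] at hre
        rw [le_abs]; right; nlinarith
    have h3 := cr_sq_le w1 v
    have h4 : (5.38 : ℝ) ^ 2 ≤ (cr w1 v) ^ 2 := by
      rw [← sq_abs (cr w1 v)]
      exact pow_le_pow_left₀ (by norm_num) hbig 2
    have h5 := normSq_nonneg v
    nlinarith
  · have e : cr v w2 = cr (xi - a0 * w1) w2 - ((a : ℝ) - a0) * cr w1 w2 := by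
      simp only [hv, cr, sub_re, sub_im, add_re, add_im, mul_re, mul_im, intCast_re, intCast_im]; ring
    have hint : (1 : ℤ) ≤ |a - a0| := Int.one_le_abs (sub_ne_zero.2 ha)
    have hre : (1 : ℝ) ≤ |(a : ℝ) - a0| := by exact_mod_cast hint
    have hbig : 5.38 ≤ |cr v w2| := by
      rw [e]
      rcases le_total 0 ((a : ℝ) - a0) with h | h
      · rw [abs_of_nonneg h] at hre
        rw [le_abs]; left; nlinarith
      · rw [abs_of_nonpos h] at hre
        rw [le_abs]; right; nlinarith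
    have h3 := cr_sq_le v w2
    have h4 : (5.38 : ℝ) ^ 2 ≤ (cr v w2) ^ 2 := by
      rw [← sq_abs (cr v w2)]
      exact pow_le_pow_left₀ (by norm_num) hbig 2
    have h5 := normSq_nonneg v
    nlinarith

theorem cr_eq_im (v w : ℂ) : cr v w = ((starRingEnd ℂ) v * w).im := by
  simp only [cr, mul_im, conj_re, conj_im]; ring

theorem absLe_spec {c : CB} {z : ℂ} (hc : c.Mem z) {n : ℤ} (h : absLe c n = true) : |z.im| ≤ (n : ℝ) / 1000 := by
  unfold absLe at h
  rw [Bool.and_eq_true, decide_eq_true_eq, decide_eq_true_eq] at h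
  have h1 := CB.im_le hc n h.1
  have h2 := CB.im_ge hc (-n) (by rw [neg_mul]; exact h.2)
  rw [abs_le]
  push_cast at h2
  constructor <;> linarith

section

variable {u : V3} (hu : u ∈ box cen rho)

theorem lat_facts : cr (u 0) (om2 hu) ≤ -10.78 ∧ normSq (u 0) ≤ 5.05 ∧ normSq (om2 hu) ≤ 25.15 := by
  have h := chkLat_true
  unfold chkLat at h
  rw [Bool.and_eq_true, Bool.and_eq_true, decide_eq_true_eq, decide_eq_true_eq, decide_eq_true_eq] at h
  obtain ⟨⟨h1, h2⟩, h3⟩ := h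
  have m1 := mem_w1 hu
  have m2 := mem_w2 hu
  refine ⟨?_, ?_, ?_⟩
  · rw [cr_eq_im]
    have := CB.im_le (m1.conj.mul m2) (-10780) h1
    push_cast at this
    linarith
  · have := CB.re_le (m1.mul m1.conj) 5050 h2
    rw [Complex.mul_conj, Complex.ofReal_re] at this
    push_cast at this
    linarith
  · have := CB.re_le (m2.mul m2.conj) 25150 h3
    rw [Complex.mul_conj, Complex.ofReal_re] at this
    push_cast at this
    linarith

theorem emptiness {i k e : ℕ} (hi : i < 9) (hk : k < nv i) (he : e < 29) (a b : ℤ)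
    (hnv : ∀ l < nv i, l ≠ k → ¬ (ic i k l = e ∧ (inc i k l).2.1 = a ∧ (inc i k l).2.2.1 = b)) :
    (kap hu e)⁻¹ < normSq (zC hu i k - (sC hu e + (a * u 0 + b * om2 hu))) + (qR hu i k - normSq (zC hu i k)) := by
  have h := chkEAll_true
  unfold chkEAll at h
  rw [List.all_eq_true] at h
  have h1 := h i (List.mem_range.2 hi)
  rw [List.all_eq_true] at h1
  have h2 := h1 k (List.mem_range.2 hk)
  rw [List.all_eq_true] at h2
  have h3 := h2 e (List.mem_range.2 he)
  unfold chkE at h3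
  simp only [Bool.and_eq_true] at h3
  obtain ⟨⟨⟨c1, c2⟩, c3⟩, c4⟩ := h3
  rw [decide_eq_true_eq] at c4
  set a0 := near1 i k e with ha0
  set b0 := near2 i k e with hb0
  obtain ⟨mz, mq⟩ := mem_z hu hi hk
  have ms := s_mem hu he
  have mr := rad_mem hu he
  have m1 := mem_w1 hu
  have m2 := mem_w2 hu
  obtain ⟨hA, hn1, hn2⟩ := lat_facts hu
  have d1 := absLe_spec (((mz.sub ms).sub ((CB.mem_ofInt a0).mul m1)).conj.mul m2) c1
  have d2 := absLe_spec (m1.conj.mul ((mz.sub ms).sub ((CB.mem_ofInt b0).mul m2))) c2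
  rw [← cr_eq_im] at d1 d2
  have hrad : (kap hu e)⁻¹ - qR hu i k + normSq (zC hu i k) ≤ 0.87 := by
    have m5 := (mr.sub mq).add (mz.mul mz.conj)
    have := CB.re_le m5 870 c4
    rw [Complex.mul_conj, ← Complex.ofReal_sub, ← Complex.ofReal_add, Complex.ofReal_re] at this
    push_cast at this
    linarith
  have e0 : zC hu i k - (sC hu e + (a * u 0 + b * om2 hu)) = (zC hu i k - sC hu e) - (a * u 0 + b * om2 hu) := by ring
  by_cases hab : a = a0 ∧ b = b0
  · obtain ⟨ha, hb⟩ := hab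
    have c3' : decide (((powB i k e a b).r : ℤ) < (powB i k e a b).c.x) = true := by
      rw [Bool.or_eq_true] at c3
      rcases c3 with c3 | c3
      · exfalso
        unfold isV at c3
        rw [List.any_eq_true] at c3
        obtain ⟨l, hl, hl2⟩ := c3
        simp only [Bool.and_eq_true, decide_eq_true_eq] at hl2
        obtain ⟨⟨⟨g1, g2⟩, g3⟩, g4⟩ := hl2
        refine hnv l (List.mem_range.1 hl) ?_ ⟨Nat.eq_of_beq_eq_true g2, ?_, ?_⟩
        · rintro rfl
          simp at g1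
        · rw [ha]; exact g3
        · rw [hb]; exact g4
      · rw [ha, hb]; exact c3
    rw [decide_eq_true_eq] at c3'
    have mP := mem_posB hu he a b
    set P := sC hu e + ((a : ℂ) * u 0 + (b : ℂ) * om2 hu) with hP
    have mF := ((((mq.sub (mz.conj.mul mP)).sub (mz.mul mP.conj)).add (mP.mul mP.conj)).sub mr)
    have hpos := CB.re_pos mF c3'
    have e1 : ((qR hu i k : ℂ) - (starRingEnd ℂ) (zC hu i k) * P - zC hu i k * (starRingEnd ℂ) P + P * (starRingEnd ℂ) P - (((kap hu e)⁻¹ : ℝ) : ℂ)).re =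
        qR hu i k - 2 * ((zC hu i k).re * P.re + (zC hu i k).im * P.im) + normSq P - (kap hu e)⁻¹ := by
      rw [Complex.mul_conj]
      simp only [sub_re, add_re, ofReal_re, mul_re, conj_re, conj_im]
      ring
    rw [e1] at hpos
    have e2 : normSq (zC hu i k - P) = normSq (zC hu i k) - 2 * ((zC hu i k).re * P.re + (zC hu i k).im * P.im) + normSq P := by
      simp only [normSq_apply, sub_re, sub_im]; ring
    rw [e2]
    linarith
  · have hfar := far_lemma (xi := zC hu i k - sC hu e) (w1 := u 0) (w2 := om2 hu) (a0 := a0) (b0 := b0) hA hn1 hn2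
      (by push_cast at d1; linarith) (by push_cast at d2; linarith) a b hab
    rw [e0]
    linarith

end

end Helper46.DFJ

end

section

/-!
The face polygons: tables and orientation signs.
-/

set_option linter.unusedSimpArgs false
set_option linter.unusedVariables false
set_option linter.unusedSectionVars false

namespace Helper46.DFJ

open Complex
open Pool.Agent.Helper20.DFJ (HE actH cr sp gl_smul_def dt actH_smul CH)

/-- corners and separators of the polygons -/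
def polyT : List (List (ℕ × ℕ × ℤ × ℤ) × List (ℕ × ℤ × ℤ)) :=
  [([(2, 0, 0, 0), (5, 0, 0, 0), (6, 0, 0, 0), (1, 1, (-1), 0), (0, 2, (-1), 0), (0, 1, (-1), 0), (0, 0, 0, 0)], [(10, 0, 0), (1, 0, 0), (2, (-1), 0), (5, (-1), 0), (1, (-1), 0), (4, 0, 0), (6, 0, 0)]),
   ([(2, 1, 0, 0), (0, 1, 0, 0), (0, 2, 0, 0), (0, 3, 0, 0), (1, 2, 0, 0), (6, 0, 0, 0), (5, 0, 0, 0)], [(4, 1, 0), (0, 1, 0), (5, 0, 0), (7, 0, 0), (12, 0, 0), (0, 0, 0), (8, 1, 0)]),
   ([(3, 1, 0, 0), (2, 2, 0, 0), (1, 1, 0, 0), (6, 0, 1, 0), (4, 3, 0, 0), (8, 4, 0, 0), (8, 0, 0, 0)], [(7, 0, 0), (5, 0, 0), (0, 1, 0), (12, 1, 0), (16, 0, 0), (3, 0, 0), (15, 0, 0)]),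
   ([(3, 2, 0, 0), (8, 0, 0, 0), (8, 4, 0, 0), (4, 2, 1, 0), (6, 3, 0, 0), (1, 3, 0, 0), (2, 3, 0, 0)], [(17, 0, 0), (2, 0, 0), (14, 0, 0), (9, 1, 0), (13, 0, 0), (9, 0, 0), (11, 0, 0)]),
   ([(0, 0, 0, 0), (0, 1, (-1), 0), (2, 1, (-1), 0), (1, 0, 0, 0)], [(0, 0, 0), (1, (-1), 0), (8, 0, 0), (6, 0, 0)]),
   ([(2, 2, 0, 0), (0, 3, 0, 0), (0, 2, 0, 0), (1, 1, 0, 0)], [(7, 0, 0), (1, 0, 0), (0, 1, 0), (2, 0, 0)]),
   ([(1, 0, 0, 0), (7, 3, 0, 1), (4, 0, 0, 0), (3, 0, 0, 0), (2, 0, 0, 0), (0, 0, 0, 0)], [(8, 0, 0), (13, 0, 1), (8, 1, 0), (10, 0, 0), (0, 0, 0), (4, 0, 0)]),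
   ([(1, 2, 0, 0), (0, 3, 0, 0), (2, 2, 0, 0), (3, 1, 0, 0), (4, 1, 0, 0), (7, 0, 0, 0)], [(1, 0, 0), (5, 0, 0), (2, 0, 0), (15, 0, 0), (17, 0, 0), (12, 0, 0)]),
   ([(7, 3, 0, 1), (1, 0, 0, 0), (2, 1, (-1), 0), (5, 0, (-1), 0), (3, 0, (-1), 0), (4, 0, (-1), 0), (6, 3, (-1), 1)], [(6, 0, 0), (4, 0, 0), (1, (-1), 0), (10, (-1), 0), (6, (-1), 0), (13, (-1), 1), (9, 0, 1)]),
   ([(7, 3, 0, 0), (6, 3, (-1), 0), (4, 2, 0, 0), (3, 3, 0, 0), (5, 3, 0, 0), (2, 3, 0, 0), (1, 3, 0, 0)], [(8, 0, (-1)), (3, (-1), 0), (14, (-1), 0), (16, (-1), 0), (11, 0, 0), (3, 0, 0), (13, 0, 0)]),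
   ([(2, 0, 0, 0), (3, 0, 0, 0), (5, 0, 0, 0)], [(6, 0, 0), (8, 1, 0), (0, 0, 0)]),
   ([(3, 2, 0, 0), (2, 3, 0, 0), (5, 3, 0, 0)], [(3, 0, 0), (9, 0, 0), (17, 0, 0)]),
   ([(6, 0, 0, 0), (1, 2, 0, 0), (7, 0, 0, 0), (4, 3, (-1), 0)], [(1, 0, 0), (7, 0, 0), (16, (-1), 0), (2, (-1), 0)]),
   ([(7, 3, 0, 0), (1, 3, 0, 0), (6, 3, 0, 0), (4, 0, 0, (-1))], [(9, 0, 0), (3, 0, 0), (8, 1, (-1)), (6, 0, (-1))]),
   ([(8, 4, 0, 0), (3, 3, 1, 0), (4, 2, 1, 0)], [(16, 0, 0), (9, 1, 0), (3, 0, 0)]),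
   ([(4, 1, 0, 0), (3, 1, 0, 0), (8, 0, 0, 0)], [(7, 0, 0), (2, 0, 0), (17, 0, 0)]),
   ([(8, 4, 0, 0), (4, 3, 0, 0), (7, 0, 1, 0), (5, 3, 1, 0), (3, 3, 1, 0)], [(2, 0, 0), (12, 1, 0), (17, 1, 0), (9, 1, 0), (14, 0, 0)]),
   ([(8, 0, 0, 0), (3, 2, 0, 0), (5, 3, 0, 0), (7, 0, 0, 0), (4, 1, 0, 0)], [(3, 0, 0), (11, 0, 0), (16, (-1), 0), (7, 0, 0), (15, 0, 0)])]

/-- degenerate classes 19..28 -/
def degT : List (ℕ × ℕ × ℕ × ℕ × ℕ × ℕ × ℤ × ℤ) :=
  [(8, 4, 3, 1, 7, 5, 0, 0),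
   (8, 4, 2, 0, 5, 1, 0, 0),
   (8, 0, 5, 1, 3, 7, 0, 0),
   (8, 0, 6, 1, 3, 7, 0, 0),
   (6, 0, 4, 1, 2, 3, 0, 0),
   (6, 3, 2, 0, 5, 4, 0, 0),
   (5, 0, 5, 1, 3, 2, 0, 0),
   (5, 3, 1, 0, 4, 5, 0, 0),
   (7, 0, 4, 1, 3, 2, 0, 0),
   (7, 3, 2, 0, 4, 5, 0, 0)]

/-- number of corners -/
def mP (j : ℕ) : ℕ := (polyT.getD j ([], [])).1.length
/-- corner -/
def cor (j a : ℕ) : ℕ × ℕ × ℤ × ℤ := (polyT.getD j ([], [])).1.getD a (0, 0, 0, 0)
/-- separator -/
def sepN (j a : ℕ) : ℕ × ℤ × ℤ := (polyT.getD j ([], [])).2.getD a (0, 0, 0)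

/-- the sites in the numbers -/
def siteN (i k l : ℕ) : ℕ × ℤ × ℤ := ((inc i k l).1, (inc i k l).2.1, (inc i k l).2.2.1)
def shN (a b : ℤ) (s : ℕ × ℤ × ℤ) : ℕ × ℤ × ℤ := (s.1, a + s.2.1, b + s.2.2)

def hasS (i k : ℕ) (a b : ℤ) (s : ℕ × ℤ × ℤ) : Bool :=
  (List.range (nv i)).any fun l => !(Nat.beq l k) && decide (shN a b (siteN i k l) = s)

theorem hasS_iff {i k : ℕ} {a b : ℤ} {s : ℕ × ℤ × ℤ} :
    hasS i k a b s = true ↔ ∃ l < nv i, l ≠ k ∧ shN a b (siteN i k l) = s := by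
  unfold hasS
  rw [List.any_eq_true]
  constructor
  · rintro ⟨l, hl, h⟩
    rw [Bool.and_eq_true, decide_eq_true_eq] at h
    refine ⟨l, List.mem_range.1 hl, ?_, h.2⟩
    rintro rfl
    simp at h
  · rintro ⟨l, hl, hne, h⟩
    refine ⟨l, List.mem_range.2 hl, ?_⟩
    rw [Bool.and_eq_true, decide_eq_true_eq]
    refine ⟨?_, h⟩
    have : Nat.beq l k = false := by
      rw [Bool.eq_false_iff]; intro h'; exact hne (Nat.eq_of_beq_eq_true h')
    simp [this]

/-- corner position ball -/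
def ZcB (j a : ℕ) : CB :=
  (zB (cor j a).1 (cor j a).2.1).add (((CB.ofInt (cor j a).2.2.1).mul w1B).add ((CB.ofInt (cor j a).2.2.2).mul w2B))

def crB (x y : CB) : CB := x.conj.mul y

def hasC (j a : ℕ) (s : ℕ × ℤ × ℤ) : Bool := hasS (cor j a).1 (cor j a).2.1 (cor j a).2.2.1 (cor j a).2.2.2 s

def chkP (j : ℕ) : Bool :=
  let m := mP j
  Nat.ble 3 m &&
  ((List.range m).all fun a => Nat.blt (cor j a).1 9 && Nat.blt (cor j a).2.1 (nv (cor j a).1) && hasC j a (j, 0, 0) &&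
    hasC j a (sepN j a) && Nat.blt (sepN j a).1 29) &&
  ((List.range (m - 1)).all fun a => hasC j (a + 1) (sepN j a)) &&
  hasC j 0 (sepN j (m - 1)) &&
  (!(hasC j 2 (sepN j 0))) &&
  ((List.range (m - 1)).all fun a => Nat.beq a 0 || !(hasC j 0 (sepN j a))) &&
  (!(hasC j (m - 2) (sepN j (m - 1)))) &&
  ((List.range (m - 1)).all fun a => Nat.beq a 0 ||
    decide (((crB ((ZcB j a).sub (ZcB j 0)) ((ZcB j (a + 1)).sub (ZcB j 0))).r : ℤ) <
      (crB ((ZcB j a).sub (ZcB j 0)) ((ZcB j (a + 1)).sub (ZcB j 0))).c.y))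

set_option maxRecDepth 100000 in
theorem chkP_all : (List.range 18).all chkP = true := by decide +kernel

def dg (j : ℕ) : ℕ × ℕ × ℕ × ℕ × ℕ × ℕ × ℤ × ℤ := degT.getD (j - 19) (0, 0, 0, 0, 0, 0, 0, 0)

def chkD (j : ℕ) : Bool :=
  let d := dg j
  let i := d.1
  let k := d.2.1
  let l := d.2.2.1
  let l1 := d.2.2.2.1
  let l2 := d.2.2.2.2.1
  let l3 := d.2.2.2.2.2.1
  Nat.blt i 9 && Nat.blt k (nv i) && Nat.blt l (nv i) && Nat.blt l1 (nv i) && Nat.blt l2 (nv i) && Nat.blt l3 (nv i) &&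
  (!(Nat.beq l k)) && (!(Nat.beq l1 k)) && (!(Nat.beq l2 k)) && (!(Nat.beq l3 k)) &&
  decide (shN d.2.2.2.2.2.2.1 d.2.2.2.2.2.2.2 (siteN i k l) = (j, 0, 0)) &&
  decide (((crB ((posIB i k l1).sub (posIB i k l)) ((posIB i k l2).sub (posIB i k l))).r : ℤ) <
    (crB ((posIB i k l1).sub (posIB i k l)) ((posIB i k l2).sub (posIB i k l))).c.y) &&
  decide (((crB ((posIB i k l2).sub (posIB i k l)) ((posIB i k l3).sub (posIB i k l))).r : ℤ) <
    (crB ((posIB i k l2).sub (posIB i k l)) ((posIB i k l3).sub (posIB i k l))).c.y) &&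
  decide (((crB ((posIB i k l3).sub (posIB i k l)) ((posIB i k l1).sub (posIB i k l))).r : ℤ) <
    (crB ((posIB i k l3).sub (posIB i k l)) ((posIB i k l1).sub (posIB i k l))).c.y)

set_option maxRecDepth 100000 in
theorem chkD_all : (List.range 10).all (fun j => chkD (j + 19)) = true := by decide +kernel

def chkSeg : Bool :=
  hasS 8 0 0 0 (18, 0, 0) && hasS 8 4 0 0 (18, 0, 0) && hasS 8 0 0 0 (2, 0, 0) && hasS 8 0 0 0 (3, 0, 0) &&
  hasS 8 0 0 0 (15, 0, 0) && hasS 8 4 0 0 (2, 0, 0) && hasS 8 4 0 0 (14, 0, 0) && (!(hasS 8 4 0 0 (15, 0, 0))) &&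
  (!(hasS 8 0 0 0 (14, 0, 0))) && ((sB 2).sub (sB 3)).nz

set_option maxRecDepth 100000 in
theorem chkSeg_true : chkSeg = true := by decide +kernel

section

variable {u : V3} (hu : u ∈ box cen rho)

/-- corner position -/
noncomputable def Zc (j a : ℕ) : ℂ :=
  zC hu (cor j a).1 (cor j a).2.1 + (((cor j a).2.2.1 : ℂ) * u 0 + ((cor j a).2.2.2 : ℂ) * om2 hu)

theorem mem_crB {x y : CB} {v w : ℂ} (hx : x.Mem v) (hy : y.Mem w)
    (h : ((crB x y).r : ℤ) < (crB x y).c.y) : 0 < cr v w := by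
  rw [cr_eq_im]
  exact CB.im_pos (hx.conj.mul hy) h

theorem polyN {j : ℕ} (hj : j < 18) : 3 ≤ mP j ∧
    (∀ a < mP j, (cor j a).1 < 9 ∧ (cor j a).2.1 < nv (cor j a).1 ∧ hasC j a (j, 0, 0) = true ∧ hasC j a (sepN j a) = true ∧
      (sepN j a).1 < 29) ∧
    (∀ a, a + 1 < mP j → hasC j (a + 1) (sepN j a) = true) ∧ hasC j 0 (sepN j (mP j - 1)) = true ∧
    hasC j 2 (sepN j 0) = false ∧ (∀ a, 1 ≤ a → a + 1 < mP j → hasC j 0 (sepN j a) = false) ∧
    hasC j (mP j - 2) (sepN j (mP j - 1)) = false ∧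
    (∀ a, 1 ≤ a → a + 1 < mP j → 0 < cr (Zc hu j a - Zc hu j 0) (Zc hu j (a + 1) - Zc hu j 0)) := by
  have h := chkP_all
  rw [List.all_eq_true] at h
  have h1 := h j (List.mem_range.2 hj)
  unfold chkP at h1
  simp only [Bool.and_eq_true] at h1
  obtain ⟨⟨⟨⟨⟨⟨⟨c1, c2⟩, c3⟩, c4⟩, c5⟩, c6⟩, c7⟩, c8⟩ := h1
  have c1' := Nat.le_of_ble_eq_true c1
  rw [List.all_eq_true] at c2 c3 c6 c8
  have c2' : ∀ a < mP j, (cor j a).1 < 9 ∧ (cor j a).2.1 < nv (cor j a).1 ∧ hasC j a (j, 0, 0) = true ∧ hasC j a (sepN j a) = true ∧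
      (sepN j a).1 < 29 := by
    intro a ha
    have := c2 a (List.mem_range.2 ha)
    simp only [Bool.and_eq_true, Nat.blt_eq] at this
    exact ⟨this.1.1.1.1, this.1.1.1.2, this.1.1.2, this.1.2, this.2⟩
  refine ⟨c1', c2', ?_, c4, ?_, ?_, ?_, ?_⟩
  · intro a ha
    exact c3 a (List.mem_range.2 (by omega))
  · simpa using c5
  · intro a ha1 ha
    have := c6 a (List.mem_range.2 (by omega))
    rw [Bool.or_eq_true] at this
    rcases this with h' | h'
    · have := Nat.eq_of_beq_eq_true h'; omega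
    · simpa using h'
  · simpa using c7
  · intro a ha1 ha
    have := c8 a (List.mem_range.2 (by omega))
    rw [Bool.or_eq_true] at this
    have hm : ∀ b < mP j, (ZcB j b).Mem (Zc hu j b) := by
      intro b hb
      obtain ⟨q1, q2, -⟩ := c2' b hb
      exact (mem_z hu q1 q2).1.add (((CB.mem_ofInt _).mul (mem_w1 hu)).add ((CB.mem_ofInt _).mul (mem_w2 hu)))
    rcases this with h' | h'
    · have := Nat.eq_of_beq_eq_true h'; omega
    · rw [decide_eq_true_eq] at h'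
      exact mem_crB ((hm a (by omega)).sub (hm 0 (by omega))) ((hm (a + 1) ha).sub (hm 0 (by omega))) h'

theorem degN {j : ℕ} (h1 : 19 ≤ j) (h2 : j < 29) :
    ∃ i k l l1 l2 l3 : ℕ, ∃ a b : ℤ, i < 9 ∧ k < nv i ∧ l < nv i ∧ l1 < nv i ∧ l2 < nv i ∧ l3 < nv i ∧
      l ≠ k ∧ l1 ≠ k ∧ l2 ≠ k ∧ l3 ≠ k ∧ shN a b (siteN i k l) = (j, 0, 0) ∧
      0 < cr (posI hu i k l1 - posI hu i k l) (posI hu i k l2 - posI hu i k l) ∧
      0 < cr (posI hu i k l2 - posI hu i k l) (posI hu i k l3 - posI hu i k l) ∧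
      0 < cr (posI hu i k l3 - posI hu i k l) (posI hu i k l1 - posI hu i k l) := by
  have h := chkD_all
  rw [List.all_eq_true] at h
  have h3 := h (j - 19) (List.mem_range.2 (by omega))
  rw [show j - 19 + 19 = j by omega] at h3
  unfold chkD at h3
  simp only [Bool.and_eq_true, Nat.blt_eq, decide_eq_true_eq] at h3
  obtain ⟨⟨⟨⟨⟨⟨⟨⟨⟨⟨⟨⟨⟨c1, c2⟩, c3⟩, c4⟩, c5⟩, c6⟩, d1⟩, d2⟩, d3⟩, d4⟩, e0⟩, e1⟩, e2⟩, e3⟩ := h3
  have hne : ∀ {l k : ℕ}, (!(Nat.beq l k)) = true → l ≠ k := by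
    intro l k h' he
    subst he
    simp at h'
  have g1 := hne d1
  have g2 := hne d2
  have g3 := hne d3
  have g4 := hne d4
  have hm : ∀ l, l < nv (dg j).1 → l ≠ (dg j).2.1 → (posIB (dg j).1 (dg j).2.1 l).Mem (posI hu (dg j).1 (dg j).2.1 l) := by
    intro l hl hlk
    exact mem_posB hu (ic_lt c1 c2 hl hlk.symm) _ _
  refine ⟨(dg j).1, (dg j).2.1, (dg j).2.2.1, (dg j).2.2.2.1, (dg j).2.2.2.2.1, (dg j).2.2.2.2.2.1, _, _, c1, c2, c3, c4, c5, c6,
    g1, g2, g3, g4, e0, ?_, ?_, ?_⟩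
  · exact mem_crB ((hm _ c4 g2).sub (hm _ c3 g1)) ((hm _ c5 g3).sub (hm _ c3 g1)) e1
  · exact mem_crB ((hm _ c5 g3).sub (hm _ c3 g1)) ((hm _ c6 g4).sub (hm _ c3 g1)) e2
  · exact mem_crB ((hm _ c6 g4).sub (hm _ c3 g1)) ((hm _ c4 g2).sub (hm _ c3 g1)) e3

end

end Helper46.DFJ

end

section

/-!
The instance: any group with elements b, c, t satisfying the relations and a representation onto the
matrices of the exact zero carries the site data, and all checks hold.
-/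

set_option linter.unusedSimpArgs false
set_option linter.unusedVariables false
set_option linter.unusedSectionVars false

namespace Helper46.DFJ

open Complex
open Pool.Agent.Helper20.DFJ

section gen

variable {G : Type*} [Group G] {H : Type*} [Group H]

theorem map_Yel (f : G →* H) (b c t : G) : f (Yel b c t) = Yel (f b) (f c) (f t) := by
  unfold Yel; simp only [map_mul, map_inv]

theorem map_Pel (f : G →* H) (b c t : G) : f (Pel b c t) = Pel (f b) (f c) (f t) := by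
  unfold Pel; simp only [map_mul, map_inv]

theorem map_lv (f : G →* H) (b c t : G) (i : ℕ) : f (lv b c t i) = lv (f b) (f c) (f t) i := by
  match i with
  | 0 => rfl
  | 1 => exact map_inv f t
  | 2 => rfl
  | 3 => exact map_inv f b
  | 4 => rfl
  | 5 => exact map_inv f c
  | 6 => exact map_Yel f b c t
  | 7 =>
    show f (Yel b c t)⁻¹ = (Yel (f b) (f c) (f t))⁻¹
    rw [map_inv, map_Yel]
  | 8 => exact map_Pel f b c t
  | 9 =>
    show f (Pel b c t)⁻¹ = (Pel (f b) (f c) (f t))⁻¹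
    rw [map_inv, map_Pel]
  | n + 10 => exact map_one f

theorem map_ev (f : G →* H) (b c t : G) (w : List ℕ) : f (ev b c t w) = ev (f b) (f c) (f t) w := by
  induction w with
  | nil => exact map_one f
  | cons i w ih => rw [ev_cons, ev_cons, map_mul, ih, map_lv]

/-- peripheral elements -/
def peG (b c t : G) (a : ℤ × ℤ) : G := t ^ a.1 * (Pel b c t) ^ a.2

theorem peG_zero (b c t : G) : peG b c t 0 = 1 := by simp [peG]

theorem peG_add {b c t : G} (h : Rels b c t) (a a' : ℤ × ℤ) : peG b c t (a + a') = peG b c t a * peG b c t a' := by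
  have hc : Commute t (Pel b c t) := h.hP
  have h2 : Pel b c t ^ a.2 * t ^ a'.1 = t ^ a'.1 * Pel b c t ^ a.2 := (hc.zpow_zpow a'.1 a.2).eq.symm
  unfold peG
  rw [Prod.fst_add, Prod.snd_add, zpow_add, zpow_add]
  calc t ^ a.1 * t ^ a'.1 * (Pel b c t ^ a.2 * Pel b c t ^ a'.2) = t ^ a.1 * (t ^ a'.1 * Pel b c t ^ a.2) * Pel b c t ^ a'.2 := by
        simp only [mul_assoc]
    _ = t ^ a.1 * (Pel b c t ^ a.2 * t ^ a'.1) * Pel b c t ^ a'.2 := by rw [h2]
    _ = _ := by simp only [mul_assoc]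

end gen

def chkUsed : Bool :=
  (List.range 29).all fun j => (List.range 9).any fun i => (List.range (nv i)).any fun k => (List.range (nv i)).any fun l =>
    !(Nat.beq k l) && Nat.beq (ic i k l) j

set_option maxRecDepth 100000 in
theorem chkUsed_true : chkUsed = true := by decide +kernel

theorem used_spec {j : ℕ} (hj : j < 29) : ∃ i < 9, ∃ k < nv i, ∃ l < nv i, k ≠ l ∧ ic i k l = j := by
  have h := chkUsed_true
  unfold chkUsed at h
  rw [List.all_eq_true] at h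
  have h1 := h j (List.mem_range.2 hj)
  rw [List.any_eq_true] at h1
  obtain ⟨i, hi, h2⟩ := h1
  rw [List.any_eq_true] at h2
  obtain ⟨k, hk, h3⟩ := h2
  rw [List.any_eq_true] at h3
  obtain ⟨l, hl, h4⟩ := h3
  rw [Bool.and_eq_true] at h4
  refine ⟨i, List.mem_range.1 hi, k, List.mem_range.1 hk, l, List.mem_range.1 hl, ?_, Nat.eq_of_beq_eq_true h4.2⟩
  rintro rfl
  simp at h4

def chkNv : Bool := (List.range 9).all fun i => Nat.blt 0 (nv i)
theorem chkNv_true : chkNv = true := by decide +kernel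
theorem nv_pos {i : ℕ} (hi : i < 9) : 0 < nv i := by
  have h := chkNv_true
  unfold chkNv at h
  rw [List.all_eq_true] at h
  simpa [Nat.blt_eq] using h i (List.mem_range.2 hi)

def chkH : Bool :=
  (List.range 9).all fun i => decide ((((qB i 0).sub ((zB i 0).mul (zB i 0).conj)).r : ℤ) < ((qB i 0).sub ((zB i 0).mul (zB i 0).conj)).c.x)

set_option maxRecDepth 100000 in
theorem chkH_true : chkH = true := by decide +kernel

theorem H_pos {u : V3} (hu : u ∈ box cen rho) {i : ℕ} (hi : i < 9) : normSq (zC hu i 0) < qR hu i 0 := by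
  have h := chkH_true
  unfold chkH at h
  rw [List.all_eq_true] at h
  have h1 := h i (List.mem_range.2 hi)
  rw [decide_eq_true_eq] at h1
  obtain ⟨mz, mq⟩ := mem_z hu hi (nv_pos hi)
  have := CB.re_pos (mq.sub (mz.mul mz.conj)) h1
  rw [Complex.mul_conj, ← Complex.ofReal_sub, Complex.ofReal_re] at this
  linarith

theorem cH_CH {u : V3} (hu : u ∈ box cen rho) (hz : ∀ i, eqF u i = 0) {i : ℕ} (hi : i < 9) : cH hu i ∈ CH := by
  have h1 := cc_eq hu hz hi (nv_pos hi)
  have h2 : cH hu i = MW hu (xw i 0) • (qR hu i 0, zC hu i 0, 1) := by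
    rw [← h1, smul_smul, mul_inv_cancel, one_smul]
  rw [h2]
  apply act_CH
  have h3 := H_pos hu hi
  have h4 := normSq_nonneg (zC hu i 0)
  refine ⟨?_, ?_, ?_⟩
  · show 0 < qR hu i 0
    linarith
  · exact one_pos
  · show 0 < qR hu i 0 * 1 - normSq (zC hu i 0)
    linarith

/-- positions: the middle of the flat quadrilateral -/
theorem s_mid {u : V3} (hu : u ∈ box cen rho) : sC hu 18 + sC hu 18 = sC hu 2 + sC hu 3 := by
  have hk := kappa_ne hu
  have c18 := c_ne hu (e := 18) (by norm_num)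
  have c2 := c_ne hu (e := 2) (by norm_num)
  have c3 := c_ne hu (e := 3) (by norm_num)
  have n18 : MW hu (nw 18) = cG u (kappa_ne hu) * cG u (kappa_ne hu) := by
    unfold MW
    have : nw 18 = [4, 4] := rfl
    rw [this]; simp [ev, lv]
  have n2 : MW hu (nw 2) = cG u (kappa_ne hu) := by
    unfold MW
    have : nw 2 = [4] := rfl
    rw [this]; simp [ev, lv]
  have n3 : MW hu (nw 3) = (cG u (kappa_ne hu))⁻¹ := by
    unfold MW
    have : nw 3 = [5] := rfl
    rw [this]; simp [ev, lv]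
  unfold sC
  rw [n18] at c18 ⊢
  rw [n2] at c2 ⊢
  rw [n3] at c3 ⊢
  have v4 : ((cG u (kappa_ne hu) : GLC) : MatC) = (u 1 - u 2)⁻¹ • gensM u 4 := rfl
  have v5 : (((cG u (kappa_ne hu))⁻¹ : GLC) : MatC) = (u 1 - u 2)⁻¹ • gensM u 5 := rfl
  rw [Units.val_mul] at c18 ⊢
  rw [v5] at c3 ⊢
  rw [v4] at c18 c2 ⊢
  have e4 : gensM u 4 = !![I * u 1 - u 2, (1 - I) * (u 1 * u 2); I - 1, u 1 - I * u 2] := rfl
  have e5 : gensM u 5 = !![-(I * u 1) - u 2, (I + 1) * (u 1 * u 2); -1 - I, u 1 + I * u 2] := rfl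
  rw [e4] at c18 c2 ⊢
  rw [e5] at c3 ⊢
  simp only [Matrix.smul_apply, Matrix.mul_apply, Fin.sum_univ_two, smul_eq_mul, Matrix.of_apply, Matrix.cons_val', Matrix.cons_val_zero,
    Matrix.cons_val_one, Matrix.cons_val_fin_one] at c18 c2 c3 ⊢
  have key : ∀ x y r : ℂ, y ≠ 0 → x = r * y → x * y⁻¹ = r := by
    intro x y r hy h; rw [h, mul_assoc, mul_inv_cancel₀ hy, mul_one]
  rw [key _ _ ((u 1 + u 2) / 2) c18 (by linear_combination ((u 1 - u 2)⁻¹ ^ 2 * (u 1 - u 2) ^ 2 / 2) * I_sq),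
    key _ _ ((u 1 + u 2) / 2 - I * (u 1 - u 2) / 2) c2 (by linear_combination ((u 1 - u 2)⁻¹ * (u 1 - u 2) / 2) * I_sq),
    key _ _ ((u 1 + u 2) / 2 + I * (u 1 - u 2) / 2) c3 (by linear_combination ((u 1 - u 2)⁻¹ * (u 1 - u 2) / 2) * I_sq)]
  ring

/-- the site in the numbers -/
def toN (s : Site (Fin 29)) : ℕ × ℤ × ℤ := (s.1.1, s.2.1, s.2.2)

theorem toN_inj {s s' : Site (Fin 29)} (h : toN s = toN s') : s = s' := by
  obtain ⟨⟨j, hj⟩, a, b⟩ := s
  obtain ⟨⟨j', hj'⟩, a', b'⟩ := s'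
  simp only [toN, Prod.mk.injEq] at h
  obtain ⟨rfl, rfl, rfl⟩ := h
  rfl

theorem toN_iff {s s' : Site (Fin 29)} : toN s = toN s' ↔ s = s' := ⟨toN_inj, fun h => by rw [h]⟩

theorem toN_sh (a : ℤ × ℤ) (s : Site (Fin 29)) : toN (SD.sh a s) = shN a.1 a.2 (toN s) := rfl

def ciF (j a : ℕ) : Fin 9 := ⟨(cor j a).1 % 9, Nat.mod_lt _ (by norm_num)⟩
def ckF (j a : ℕ) : Fin (nv (ciF j a).1) := ⟨(cor j a).2.1 % nv (ciF j a).1, Nat.mod_lt _ (nv_pos (ciF j a).2)⟩
def sepF (j a : ℕ) : Site (Fin 29) := (⟨(sepN j a).1 % 29, Nat.mod_lt _ (by norm_num)⟩, (sepN j a).2.1, (sepN j a).2.2)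

theorem ciF_val {j a : ℕ} (h : (cor j a).1 < 9) : (ciF j a).1 = (cor j a).1 := Nat.mod_eq_of_lt h
theorem ckF_val {j a : ℕ} (h : (cor j a).1 < 9) (h' : (cor j a).2.1 < nv (cor j a).1) : (ckF j a).1 = (cor j a).2.1 := by
  show (cor j a).2.1 % nv (ciF j a).1 = _
  rw [ciF_val h]
  exact Nat.mod_eq_of_lt h'
theorem toN_sepF {j a : ℕ} (h : (sepN j a).1 < 29) : toN (sepF j a) = sepN j a := by
  show ((sepN j a).1 % 29, (sepN j a).2.1, (sepN j a).2.2) = sepN j a
  rw [Nat.mod_eq_of_lt h]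

theorem hasC_D {j a : ℕ} (h1 : (cor j a).1 < 9) (h2 : (cor j a).2.1 < nv (cor j a).1) (s : ℕ × ℤ × ℤ) :
    hasS (ciF j a).1 (ckF j a).1 (cor j a).2.2.1 (cor j a).2.2.2 s = hasC j a s := by
  rw [ckF_val h1 h2, ciF_val h1]; rfl

section inst

variable {G : Type*} [Group G] {b c t : G} (hR : Rels b c t) {u : V3} (hu : u ∈ box cen rho) (hz : ∀ i, eqF u i = 0)
  (ρ : G →* GL (Fin 2) ℂ) (hb : ρ b = bG u) (hc : ρ c = cG u (kappa_ne hu)) (ht : ρ t = tG u)

include hb hc ht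

theorem rho_ev (w : List ℕ) : ρ (ev b c t w) = MW hu w := by
  rw [map_ev, hb, hc, ht]; rfl

include hz in
theorem rho_pe (a : ℤ × ℤ) : IsTr (ρ (peG b c t a)) (a.1 * u 0 + a.2 * om2 hu) := by
  unfold peG
  rw [map_mul, map_zpow, map_zpow, map_Pel, hb, hc, ht]
  exact isTr_pe hu hz a.1 a.2

/-- the site data -/
noncomputable def instSD : SD ρ (Fin 9) (Fin 29) where
  pe := peG b c t
  ω₁ := u 0
  ω₂ := om2 hu
  n := fun i => nv i.1
  x := fun i k => ev b c t (xw i.1 k.1)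
  c := fun i => cH hu i.1
  gJ := fun j => ev b c t (nw j.1)
  s := fun j => sC hu j.1
  κ := fun j => kap hu j.1
  site := fun i k l => (⟨ic i.1 k.1 l.1 % 29, Nat.mod_lt _ (by norm_num)⟩, (inc i.1 k.1 l.1).2.1, (inc i.1 k.1 l.1).2.2.1)
  pe_zero := peG_zero b c t
  pe_add := peG_add hR
  pe_tr := by
    intro a
    have h := rho_pe hu hz ρ hb hc ht a
    exact ⟨h.h10, h.h00, h.h11, h.h01⟩
  ω_ne := by
    have := (lat_facts hu).1
    intro h0
    rw [h0] at this
    norm_num at this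
  c_C := fun i => cH_CH hu hz i.2
  c_one := by
    intro i k
    rw [rho_ev hu ρ hb hc ht, cc_eq hu hz i.2 k.2]
  κ_pos := fun j => kap_pos hu j.2
  gJ_spec := by
    intro j y
    rw [rho_ev hu ρ hb hc ht]
    exact functional (nd_MW hu _) (c_ne hu j.2) y
  site_spec := by
    intro i k l hkl
    have hkl' : k.1 ≠ l.1 := fun h => hkl (Fin.ext h)
    refine ⟨((inc i.1 k.1 l.1).2.2.2.1, (inc i.1 k.1 l.1).2.2.2.2.1), ?_⟩
    have h29 : ic i.1 k.1 l.1 % 29 = ic i.1 k.1 l.1 := Nat.mod_eq_of_lt (ic_lt i.2 k.2 l.2 hkl')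
    show _ = peG b c t ((inc i.1 k.1 l.1).2.1, (inc i.1 k.1 l.1).2.2.1) * ev b c t (nw (ic i.1 k.1 l.1 % 29)) *
      peG b c t ((inc i.1 k.1 l.1).2.2.2.1, (inc i.1 k.1 l.1).2.2.2.2.1)
    rw [h29]
    exact inc_spec hR i.1 k.1 l.1 i.2 k.2 l.2 hkl'
  used := by
    intro j
    obtain ⟨i, hi, k, hk, l, hl, hkl, h⟩ := used_spec j.2
    refine ⟨⟨i, hi⟩, ⟨k, hk⟩, ⟨l, hl⟩, fun h' => hkl (congrArg Fin.val h'), ?_⟩
    apply Fin.ext
    show ic i k l % 29 = j.1
    rw [h]
    exact Nat.mod_eq_of_lt j.2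

theorem toN_site {i : Fin 9} {k l : Fin (nv i.1)} (hkl : k ≠ l) :
    toN ((instSD hR hu hz ρ hb hc ht).site i k l) = siteN i.1 k.1 l.1 := by
  have hkl' : k.1 ≠ l.1 := fun h => hkl (Fin.ext h)
  show (ic i.1 k.1 l.1 % 29, _, _) = _
  rw [Nat.mod_eq_of_lt (ic_lt i.2 k.2 l.2 hkl')]
  rfl

theorem pos_site {i : Fin 9} {k l : Fin (nv i.1)} (hkl : k ≠ l) :
    (instSD hR hu hz ρ hb hc ht).pos ((instSD hR hu hz ρ hb hc ht).site i k l) = posI hu i.1 k.1 l.1 := by
  have hkl' : k.1 ≠ l.1 := fun h => hkl (Fin.ext h)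
  show sC hu (ic i.1 k.1 l.1 % 29) + _ = _
  rw [Nat.mod_eq_of_lt (ic_lt i.2 k.2 l.2 hkl')]
  rfl

theorem cr_D {i : Fin 9} {k l l1 l2 : Fin (nv i.1)} (h0 : l ≠ k) (h1 : l1 ≠ k) (h2 : l2 ≠ k) :
    cr ((instSD hR hu hz ρ hb hc ht).pos ((instSD hR hu hz ρ hb hc ht).site i k l1) - (instSD hR hu hz ρ hb hc ht).pos ((instSD hR hu hz ρ hb hc ht).site i k l))
      ((instSD hR hu hz ρ hb hc ht).pos ((instSD hR hu hz ρ hb hc ht).site i k l2) - (instSD hR hu hz ρ hb hc ht).pos ((instSD hR hu hz ρ hb hc ht).site i k l)) =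
    cr (posI hu i.1 k.1 l1.1 - posI hu i.1 k.1 l.1) (posI hu i.1 k.1 l2.1 - posI hu i.1 k.1 l.1) := by
  rw [pos_site hR hu hz ρ hb hc ht h0.symm, pos_site hR hu hz ρ hb hc ht h1.symm, pos_site hR hu hz ρ hb hc ht h2.symm]

theorem cc_D (i : Fin 9) (k : Fin (nv i.1)) :
    (instSD hR hu hz ρ hb hc ht).cc i k = (qR hu i.1 k.1, zC hu i.1 k.1, 1) := by
  show (ρ (ev b c t (xw i.1 k.1)))⁻¹ • cH hu i.1 = _
  rw [rho_ev hu ρ hb hc ht, cc_eq hu hz i.2 k.2]

theorem Z_D (i : Fin 9) (k : Fin (nv i.1)) : (instSD hR hu hz ρ hb hc ht).Z i k = zC hu i.1 k.1 := by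
  unfold SD.Z
  rw [cc_D]

theorem has_D {i : Fin 9} {k : Fin (nv i.1)} {cp : ℤ × ℤ} {s : Site (Fin 29)} :
    (∃ l : Fin (nv i.1), l ≠ k ∧ SD.sh cp ((instSD hR hu hz ρ hb hc ht).site i k l) = s) ↔
      hasS i.1 k.1 cp.1 cp.2 (toN s) = true := by
  rw [hasS_iff]
  constructor
  · rintro ⟨l, hl, h⟩
    refine ⟨l.1, l.2, fun h' => hl (Fin.ext h'), ?_⟩
    rw [← toN_site hR hu hz ρ hb hc ht hl.symm, ← toN_sh, h]
  · rintro ⟨l, hl, hne, h⟩
    have hne' : (⟨l, hl⟩ : Fin (nv i.1)) ≠ k := fun h' => hne (congrArg Fin.val h')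
    refine ⟨⟨l, hl⟩, hne', ?_⟩
    apply toN_inj
    rw [toN_sh, toN_site hR hu hz ρ hb hc ht hne'.symm]
    exact h

theorem not_has_D {i : Fin 9} {k : Fin (nv i.1)} {cp : ℤ × ℤ} {s : Site (Fin 29)} (h : hasS i.1 k.1 cp.1 cp.2 (toN s) = false)
    (l : Fin (nv i.1)) (hl : l ≠ k) : SD.sh cp ((instSD hR hu hz ρ hb hc ht).site i k l) ≠ s := by
  intro h'
  have := (has_D hR hu hz ρ hb hc ht).1 ⟨l, hl, h'⟩
  rw [h] at this
  exact Bool.noConfusion this

theorem inst_checks (hgen : Subgroup.closure {b, c, t} = ⊤) : (instSD hR hu hz ρ hb hc ht).Checks where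
  finI := inferInstanceAs (Finite (Fin 9))
  finJ := inferInstanceAs (Finite (Fin 29))
  neJ := ⟨(0 : Fin 29)⟩
  empt := by
    intro i k σ h
    have := emptiness hu (i := i.1) (k := k.1) (e := σ.1.1) i.2 k.2 σ.1.2 σ.2.1 σ.2.2 (by
      intro l hl hlk hh
      have hlk' : (⟨l, hl⟩ : Fin (nv i.1)) ≠ k := fun h' => hlk (congrArg Fin.val h')
      refine h ⟨l, hl⟩ hlk' ?_
      apply toN_inj
      refine (toN_site hR hu hz ρ hb hc ht hlk'.symm).trans ?_
      show ((inc i.1 k.1 l).1, (inc i.1 k.1 l).2.1, (inc i.1 k.1 l).2.2.1) = _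
      obtain ⟨h1, h2, h3⟩ := hh
      have h1' : (inc i.1 k.1 l).1 = σ.1.1 := h1
      rw [h1', h2, h3]
      rfl)
    unfold SD.H
    rw [Z_D hR hu hz ρ hb hc ht, cc_D hR hu hz ρ hb hc ht]
    exact this
  poly := by
    intro j
    rcases lt_or_ge j.1 18 with hj | hj
    · left
      obtain ⟨h3, hc1, hc2, hc3, hc4, hc5, hc6, hc7⟩ := polyN hu hj
      have hb9 : ∀ a < mP j.1, (cor j.1 a).1 < 9 := fun a ha => (hc1 a ha).1
      have hbn : ∀ a < mP j.1, (cor j.1 a).2.1 < nv (cor j.1 a).1 := fun a ha => (hc1 a ha).2.1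
      have hZ : ∀ a < mP j.1, (instSD hR hu hz ρ hb hc ht).Z (ciF j.1 a) (ckF j.1 a) +
          (((cor j.1 a).2.2.1 : ℂ) * (instSD hR hu hz ρ hb hc ht).ω₁ + ((cor j.1 a).2.2.2 : ℂ) * (instSD hR hu hz ρ hb hc ht).ω₂) = Zc hu j.1 a := by
        intro a ha
        rw [Z_D hR hu hz ρ hb hc ht, ckF_val (hb9 a ha) (hbn a ha), ciF_val (hb9 a ha)]
        rfl
      refine ⟨mP j.1, h3, ciF j.1, ckF j.1, fun a => ((cor j.1 a).2.2.1, (cor j.1 a).2.2.2), sepF j.1, ?_, ?_, ?_, ?_, ?_, ?_, ?_, ?_⟩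
      · intro a ha
        refine (has_D hR hu hz ρ hb hc ht).2 ?_
        rw [hasC_D (hb9 a ha) (hbn a ha)]
        exact (hc1 a ha).2.2.1
      · intro a ha
        refine (has_D hR hu hz ρ hb hc ht).2 ?_
        rw [hasC_D (hb9 a ha) (hbn a ha), toN_sepF (hc1 a ha).2.2.2.2]
        exact (hc1 a ha).2.2.2.1
      · intro a ha
        refine (has_D hR hu hz ρ hb hc ht).2 ?_
        rw [hasC_D (hb9 _ ha) (hbn _ ha), toN_sepF (hc1 a (by omega)).2.2.2.2]
        exact hc2 a ha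
      · refine (has_D hR hu hz ρ hb hc ht).2 ?_
        rw [hasC_D (hb9 _ (by omega)) (hbn _ (by omega)), toN_sepF (hc1 _ (by omega)).2.2.2.2]
        exact hc3
      · refine not_has_D hR hu hz ρ hb hc ht ?_
        rw [hasC_D (hb9 _ (by omega)) (hbn _ (by omega)), toN_sepF (hc1 _ (by omega)).2.2.2.2]
        exact hc4
      · intro a ha1 ha
        refine not_has_D hR hu hz ρ hb hc ht ?_
        rw [hasC_D (hb9 _ (by omega)) (hbn _ (by omega)), toN_sepF (hc1 _ (by omega)).2.2.2.2]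
        exact hc5 a ha1 ha
      · refine not_has_D hR hu hz ρ hb hc ht ?_
        rw [hasC_D (hb9 _ (by omega)) (hbn _ (by omega)), toN_sepF (hc1 _ (by omega)).2.2.2.2]
        exact hc6
      · intro a ha1 ha
        have := hc7 a ha1 ha
        rw [← hZ a (by omega), ← hZ 0 (by omega), ← hZ (a + 1) ha] at this
        exact this
    · right
      rcases Nat.eq_or_lt_of_le hj with hj | hj
      · right
        have h := chkSeg_true
        unfold chkSeg at h
        simp only [Bool.and_eq_true] at h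
        obtain ⟨⟨⟨⟨⟨⟨⟨⟨⟨g1, g2⟩, g3⟩, g4⟩, g5⟩, g6⟩, g7⟩, g8⟩, g9⟩, g10⟩ := h
        have g8' : hasS 8 4 0 0 (15, 0, 0) = false := by simpa using g8
        have g9' : hasS 8 0 0 0 (14, 0, 0) = false := by simpa using g9
        have hj' : j = (18 : Fin 29) := Fin.ext hj.symm
        subst hj'
        refine ⟨(8 : Fin 9), (8 : Fin 9), (⟨0, by decide +kernel⟩ : Fin (nv 8)), (⟨4, by decide +kernel⟩ : Fin (nv 8)), 0, 0,
          ((2 : Fin 29), 0, 0), ((3 : Fin 29), 0, 0), ((15 : Fin 29), 0, 0), ((14 : Fin 29), 0, 0), ?_, ?_, ?_, ?_, ?_, ?_, ?_, ?_, ?_, ?_, ?_⟩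
        · exact (has_D hR hu hz ρ hb hc ht).2 g1
        · exact (has_D hR hu hz ρ hb hc ht).2 g2
        · exact (has_D hR hu hz ρ hb hc ht).2 g3
        · exact (has_D hR hu hz ρ hb hc ht).2 g4
        · exact (has_D hR hu hz ρ hb hc ht).2 g5
        · exact (has_D hR hu hz ρ hb hc ht).2 g6
        · exact (has_D hR hu hz ρ hb hc ht).2 g7
        · exact not_has_D hR hu hz ρ hb hc ht g8'
        · exact not_has_D hR hu hz ρ hb hc ht g9'
        · show (sC hu 18 + (((0 : ℤ) : ℂ) * u 0 + ((0 : ℤ) : ℂ) * om2 hu)) + (sC hu 18 + (((0 : ℤ) : ℂ) * u 0 + ((0 : ℤ) : ℂ) * om2 hu)) =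
            (sC hu 2 + (((0 : ℤ) : ℂ) * u 0 + ((0 : ℤ) : ℂ) * om2 hu)) + (sC hu 3 + (((0 : ℤ) : ℂ) * u 0 + ((0 : ℤ) : ℂ) * om2 hu))
          have := s_mid hu
          simp only [Int.cast_zero, zero_mul, add_zero]
          exact this
        · show (sC hu 2 + (((0 : ℤ) : ℂ) * u 0 + ((0 : ℤ) : ℂ) * om2 hu)) ≠ (sC hu 3 + (((0 : ℤ) : ℂ) * u 0 + ((0 : ℤ) : ℂ) * om2 hu))
          simp only [Int.cast_zero, zero_mul, add_zero]
          exact sub_ne_zero.1 (CB.ne_zero ((s_mem hu (by norm_num)).sub (s_mem hu (by norm_num))) g10)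
      · left
        obtain ⟨i, k, l, l1, l2, l3, a, b', hi, hk, hl, hl1, hl2, hl3, n0, n1, n2, n3, hs, o1, o2, o3⟩ := degN hu hj j.2
        have m0 : (⟨l, hl⟩ : Fin (nv i)) ≠ ⟨k, hk⟩ := fun h' => n0 (congrArg Fin.val h')
        have m1 : (⟨l1, hl1⟩ : Fin (nv i)) ≠ ⟨k, hk⟩ := fun h' => n1 (congrArg Fin.val h')
        have m2 : (⟨l2, hl2⟩ : Fin (nv i)) ≠ ⟨k, hk⟩ := fun h' => n2 (congrArg Fin.val h')
        have m3 : (⟨l3, hl3⟩ : Fin (nv i)) ≠ ⟨k, hk⟩ := fun h' => n3 (congrArg Fin.val h')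
        refine ⟨⟨i, hi⟩, ⟨k, hk⟩, ⟨l, hl⟩, ⟨l1, hl1⟩, ⟨l2, hl2⟩, ⟨l3, hl3⟩, (a, b'), m0, m1, m2, m3, ?_, ?_, ?_, ?_⟩
        · apply toN_inj
          have e1 := toN_site hR hu hz ρ hb hc ht (i := ⟨i, hi⟩) m0.symm
          refine Eq.trans (congrArg (shN a b') e1) hs
        · exact lt_of_lt_of_eq o1 (cr_D hR hu hz ρ hb hc ht (i := ⟨i, hi⟩) m0 m1 m2).symm
        · exact lt_of_lt_of_eq o2 (cr_D hR hu hz ρ hb hc ht (i := ⟨i, hi⟩) m0 m2 m3).symm
        · exact lt_of_lt_of_eq o3 (cr_D hR hu hz ρ hb hc ht (i := ⟨i, hi⟩) m0 m3 m1).symm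
  gens := by
    refine ⟨{b, c, t}, hgen, ?_⟩
    intro g hg
    simp only [Set.mem_insert_iff, Set.mem_singleton_iff] at hg
    rcases hg with rfl | rfl | rfl
    · refine ⟨[(instSD hR hu hz ρ hb hc ht).gJ (0 : Fin 29)], ?_, ?_⟩
      · intro h hh
        rw [List.mem_singleton] at hh
        exact Or.inr (Or.inl ⟨(0 : Fin 29), hh⟩)
      · rw [List.prod_singleton]
        show _ = ev _ _ _ [2]
        simp [ev, lv]
    · refine ⟨[(instSD hR hu hz ρ hb hc ht).gJ (2 : Fin 29)], ?_, ?_⟩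
      · intro h hh
        rw [List.mem_singleton] at hh
        exact Or.inr (Or.inl ⟨(2 : Fin 29), hh⟩)
      · rw [List.prod_singleton]
        show _ = ev _ _ _ [4]
        simp [ev, lv]
    · refine ⟨[(instSD hR hu hz ρ hb hc ht).pe (1, 0)], ?_, ?_⟩
      · intro h hh
        rw [List.mem_singleton] at hh
        exact Or.inl ⟨(1, 0), hh.symm⟩
      · rw [List.prod_singleton]
        show _ = _ ^ (1 : ℤ) * _ ^ (0 : ℤ)
        simp

end inst

end Helper46.DFJ

end
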