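import Pool.Agent.Helper35.DFJ.Seq

/-!
Incidences of the tessellation: group identities proved by certified rewriting.
Letters: 0 = t, 1 = t inverse, 2 = b, 3 = b inverse, 4 = c, 5 = c inverse, 6 = Y, 7 = Y inverse, 8 = p, 9 = p inverse.
-/

namespace Helper46.DFJ

variable {H : Type*} [Group H]

/-- Y = t c^-1 W -/
def Yel (b c t : H) : H := t * c⁻¹ * b⁻¹ * t⁻¹ * b⁻¹ * t⁻¹ * b * t * b * t * b
/-- p = t Pi -/
def Pel (b c t : H) : H := t * b * t * b * c * t⁻¹ * c⁻¹ * t * b⁻¹ * t⁻¹ * c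

/-- the defining relations -/
structure Rels (b c t : H) : Prop where
  hb : b ^ 3 = 1
  hc : c ^ 4 = 1
  hY : Yel b c t * c = c * Yel b c t
  hP : t * Pel b c t = Pel b c t * t

/-- letters -/
def lv (b c t : H) : ℕ → H
  | 0 => t
  | 1 => t⁻¹
  | 2 => b
  | 3 => b⁻¹
  | 4 => c
  | 5 => c⁻¹
  | 6 => Yel b c t
  | 7 => (Yel b c t)⁻¹
  | 8 => Pel b c t
  | 9 => (Pel b c t)⁻¹
  | _ => 1

/-- inverse letter -/
def il : ℕ → ℕ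
  | 0 => 1
  | 1 => 0
  | 2 => 3
  | 3 => 2
  | 4 => 5
  | 5 => 4
  | 6 => 7
  | 7 => 6
  | 8 => 9
  | 9 => 8
  | n => n

/-- inverse word -/
def invw (w : List ℕ) : List ℕ := (w.map il).reverse

/-- value of a word -/
def ev (b c t : H) (w : List ℕ) : H := (w.map (lv b c t)).prod

theorem lv_il (b c t : H) (i : ℕ) : lv b c t (il i) = (lv b c t i)⁻¹ := by
  match i with
  | 0 => rfl
  | 1 => simp [il, lv]
  | 2 => rfl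
  | 3 => simp [il, lv]
  | 4 => rfl
  | 5 => simp [il, lv]
  | 6 => rfl
  | 7 => simp [il, lv]
  | 8 => rfl
  | 9 => simp [il, lv]
  | n + 10 => simp [il, lv]

theorem ev_nil (b c t : H) : ev b c t [] = 1 := rfl

theorem ev_cons (b c t : H) (i : ℕ) (w : List ℕ) : ev b c t (i :: w) = lv b c t i * ev b c t w := by
  simp [ev]

theorem ev_append (b c t : H) (w w' : List ℕ) : ev b c t (w ++ w') = ev b c t w * ev b c t w' := by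
  simp [ev]

theorem ev_invw (b c t : H) (w : List ℕ) : ev b c t (invw w) = (ev b c t w)⁻¹ := by
  induction w with
  | nil => simp [invw, ev]
  | cons i w ih =>
    have : invw (i :: w) = invw w ++ [il i] := by simp [invw]
    rw [this, ev_append, ih, ev_cons b c t i w, mul_inv_rev]
    simp [ev, lv_il]

/-- rewriting rules -/
def rules : List (List ℕ × List ℕ) :=
 [([0, 1], []),
  ([1, 0], []),
  ([2, 3], []),
  ([3, 2], []),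
  ([4, 5], []),
  ([5, 4], []),
  ([6, 7], []),
  ([7, 6], []),
  ([8, 9], []),
  ([9, 8], []),
  ([2, 2], [3]),
  ([3, 3], [2]),
  ([5, 5], [4, 4]),
  ([4, 4, 4], [5]),
  ([8, 0], [0, 8]),
  ([8, 1], [1, 8]),
  ([9, 0], [0, 9]),
  ([9, 1], [1, 9]),
  ([6, 4], [4, 6]),
  ([6, 5], [5, 6]),
  ([7, 4], [4, 7]),
  ([7, 5], [5, 7]),
  ([3, 1, 3, 1, 2, 0, 2, 0, 2], [4, 1, 6]),
  ([3, 1, 3, 1, 3, 0, 2, 0, 2], [7, 0, 5]),
  ([5, 7, 0, 3, 1, 4], [3, 1, 3, 1, 3, 8]),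
  ([5, 0, 2, 1, 4, 6], [9, 2, 0, 2, 0, 2]),
  ([5, 3, 1, 3, 1, 8], [1, 5, 0, 3, 1, 4]),
  ([0, 2, 0, 2, 4, 1, 5, 0, 3, 1, 4], [8]),
  ([5, 0, 3, 1, 4, 9], [0, 5, 3, 1, 3, 1])]

theorem rules_ok {b c t : H} (h : Rels b c t) : ∀ r ∈ rules, ev b c t r.1 = ev b c t r.2 := by
  have hb := h.hb
  have hc := h.hc
  have hY := h.hY
  have hP := h.hP
  have b2 : b * b = b⁻¹ := by
    rw [eq_inv_iff_mul_eq_one]; simpa [pow_succ] using hb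
  have B2 : b⁻¹ * b⁻¹ = b := by
    rw [← mul_inv_rev, b2, inv_inv]
  have c2 : c⁻¹ * c⁻¹ = c * c := by
    have : c * c * (c * c) = 1 := by
      have : c ^ 4 = c * c * (c * c) := by simp [pow_succ, mul_assoc]
      rw [← this, hc]
    rw [← mul_inv_rev]
    exact inv_eq_of_mul_eq_one_left this
  have c3 : c * c * c = c⁻¹ := by
    rw [← c2]; simp [mul_assoc]
  have dY : Yel b c t = t * c⁻¹ * b⁻¹ * t⁻¹ * b⁻¹ * t⁻¹ * b * t * b * t * b := rfl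
  have dP : Pel b c t = t * b * t * b * c * t⁻¹ * c⁻¹ * t * b⁻¹ * t⁻¹ * c := rfl
  set Y := Yel b c t with hYd
  set p := Pel b c t with hPd
  have Yc : Y * c = c * Y := hY
  have YC : Y * c⁻¹ = c⁻¹ * Y := by
    have : Commute Y c := hY
    exact this.inv_right
  have yc : Y⁻¹ * c = c * Y⁻¹ := by
    have : Commute Y c := hY
    exact this.inv_left
  have yC : Y⁻¹ * c⁻¹ = c⁻¹ * Y⁻¹ := by
    have : Commute Y c := hY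
    exact this.inv_inv
  have tp : t * p = p * t := hP
  have tP : t * p⁻¹ = p⁻¹ * t := by
    have : Commute t p := hP
    exact this.inv_right
  have Tp : t⁻¹ * p = p * t⁻¹ := by
    have : Commute t p := hP
    exact this.inv_left
  have TP : t⁻¹ * p⁻¹ = p⁻¹ * t⁻¹ := by
    have : Commute t p := hP
    exact this.inv_inv
  intro r hr
  simp only [rules, List.mem_cons, List.not_mem_nil, or_false] at hr
  rcases hr with rfl | rfl | rfl | rfl | rfl | rfl | rfl | rfl | rfl | rfl | rfl | rfl | rfl | rfl | rfl | rfl | rfl | rfl | rfl | rfl | rfl | rfl | rfl | rfl | rfl | rfl | rfl | rfl | rfl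
  · simp [ev, lv]
  · simp [ev, lv]
  · simp [ev, lv]
  · simp [ev, lv]
  · simp [ev, lv]
  · simp [ev, lv]
  · simp [ev, lv]
  · simp [ev, lv]
  · simp [ev, lv]
  · simp [ev, lv]
  · simpa [ev, lv] using b2
  · simpa [ev, lv] using B2
  · simpa [ev, lv] using c2
  · simpa [ev, lv, mul_assoc] using c3
  · simpa [ev, lv] using tp.symm
  · simpa [ev, lv] using Tp.symm
  · simpa [ev, lv] using tP.symm
  · simpa [ev, lv] using TP.symm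
  · simpa [ev, lv] using Yc
  · simpa [ev, lv] using YC
  · simpa [ev, lv] using yc
  · simpa [ev, lv] using yC
  · simp [ev, lv, Yel, mul_assoc]
  · simp [ev, lv, Yel, mul_assoc]
  · have e : ev b c t [5, 7, 0, 3, 1, 4] = (c⁻¹ * Y⁻¹) * (t * b⁻¹ * t⁻¹ * c) := by
      simp [ev, lv, mul_assoc, hYd]
    rw [e, ← yC, dY]
    simp [ev, lv, Pel, mul_assoc]
  · simp [ev, lv, Yel, Pel, mul_assoc]
  · simp [ev, lv, Yel, Pel, mul_assoc]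
  · simp [ev, lv, Yel, Pel, mul_assoc]
  · simp [ev, lv, Yel, Pel, mul_assoc]

/-- strip a prefix -/
def stripPre : List ℕ → List ℕ → Option (List ℕ)
  | [], w => some w
  | _ :: _, [] => none
  | a :: l, b :: w => if Nat.beq a b then stripPre l w else none

theorem stripPre_spec : ∀ (l w r : List ℕ), stripPre l w = some r → w = l ++ r := by
  intro l
  induction l with
  | nil => intro w r h; simp only [stripPre, Option.some.injEq] at h; simp [h]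
  | cons a l ih =>
    intro w r h
    cases w with
    | nil => simp [stripPre] at h
    | cons b w =>
      simp only [stripPre] at h
      split_ifs at h with hab
      have hab' : a = b := Nat.eq_of_beq_eq_true hab
      rw [ih w r h, hab']; rfl

/-- apply a rule at a position -/
def applyAt : ℕ → (List ℕ × List ℕ) → List ℕ → Option (List ℕ)
  | 0, r, w => match stripPre r.1 w with
    | some v => some (r.2 ++ v)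
    | none => none
  | _ + 1, _, [] => none
  | n + 1, r, a :: w => match applyAt n r w with
    | some v => some (a :: v)
    | none => none

theorem applyAt_spec {b c t : H} (r : List ℕ × List ℕ) (hr : ev b c t r.1 = ev b c t r.2) :
    ∀ (n : ℕ) (w v : List ℕ), applyAt n r w = some v → ev b c t w = ev b c t v := by
  intro n
  induction n with
  | zero =>
    intro w v h
    simp only [applyAt] at h
    split at h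
    · rename_i v' hv'
      simp only [Option.some.injEq] at h
      rw [stripPre_spec _ _ _ hv', ev_append, hr, ← ev_append, h]
    · simp at h
  | succ n ih =>
    intro w v h
    cases w with
    | nil => simp [applyAt] at h
    | cons a w =>
      simp only [applyAt] at h
      split at h
      · rename_i v' hv'
        simp only [Option.some.injEq] at h
        rw [← h, ev_cons, ev_cons, ih w v' hv']
      · simp at h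

/-- run a certificate -/
def runC : List (ℕ × ℕ) → List ℕ → Option (List ℕ)
  | [], w => some w
  | (n, ri) :: s, w => match applyAt n (rules.getD ri ([], [])) w with
    | some v => runC s v
    | none => none

theorem runC_spec {b c t : H} (h : Rels b c t) :
    ∀ (s : List (ℕ × ℕ)) (w v : List ℕ), runC s w = some v → ev b c t w = ev b c t v := by
  intro s
  induction s with
  | nil => intro w v hw; simp only [runC, Option.some.injEq] at hw; rw [hw]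
  | cons a s ih =>
    intro w v hw
    obtain ⟨n, ri⟩ := a
    simp only [runC] at hw
    split at hw
    · rename_i v' hv'
      have hr : ev b c t (rules.getD ri ([], [])).1 = ev b c t (rules.getD ri ([], [])).2 := by
        rcases lt_or_ge ri rules.length with hlt | hge
        · have : rules.getD ri ([], []) ∈ rules := by
            rw [List.getD_eq_getElem _ _ hlt]; exact List.getElem_mem hlt
          exact rules_ok h _ this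
        · rw [List.getD_eq_default _ _ hge]
      rw [applyAt_spec _ hr n w v' hv']
      exact ih v' v hw
    · simp at hw

/-- vertex words of the nine tile types -/
def xwT : List (List (List ℕ)) :=
  [[[], [2], [2, 0, 2], [2, 0, 2, 0, 2]],
  [[], [2, 0, 2], [2, 0, 2, 0, 2], [2, 0, 2, 4]],
  [[], [2], [2, 0, 2, 0, 2], [2, 0, 2, 0, 2, 4]],
  [[], [2, 0, 2, 0, 2], [2, 0, 2, 0, 2, 4], [0, 2, 0, 2, 4]],
  [[], [2, 0, 2, 0, 2], [0, 2, 0, 2, 4], [0, 2, 0, 2, 4, 1, 5]],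
  [[], [2], [3], [0, 2, 0, 2, 4], [2, 0, 2, 0, 2, 4], [3, 0, 2, 0, 2, 4]],
  [[], [2], [3], [1, 4], [2, 1, 4], [3, 1, 4]],
  [[0, 2, 0, 2, 4], [2, 0, 2, 0, 2, 4], [3, 0, 2, 0, 2, 4], [0, 2, 0, 2, 4, 3, 1, 4], [2, 0, 2, 0, 2, 4, 3, 1, 4], [3, 0, 2, 0, 2, 4, 3, 1, 4]],
  [[], [4], [4, 4], [5], [7], [7, 4], [7, 4, 4], [7, 5]]]

/-- neighbour class words -/
def nwT : List (List ℕ) :=
  [[2],
  [3],
  [4],
  [5],
  [2, 0, 2],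
  [3, 1, 3],
  [2, 0, 2, 0, 2],
  [3, 1, 3, 1, 3],
  [2, 0, 2, 4],
  [5, 3, 1, 3],
  [2, 0, 2, 0, 2, 4],
  [5, 3, 1, 3, 1, 3],
  [3, 1, 4],
  [5, 0, 2],
  [6],
  [7],
  [4, 6],
  [5, 7],
  [4, 4],
  [5, 6],
  [4, 4, 6],
  [4, 7],
  [4, 4, 7],
  [2, 1, 4],
  [5, 0, 3],
  [3, 0, 2, 0, 2, 4],
  [5, 3, 1, 3, 1, 2],
  [5, 3, 1, 3, 1, 2, 0, 2, 0, 2, 4, 3, 1, 4],
  [5, 0, 2, 5, 3, 1, 3, 1, 3, 0, 2, 0, 2, 4]]

/-- incidences: class, translation (left), translation (right), certificate -/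
def incT : List (List (List (ℕ × ℤ × ℤ × ℤ × ℤ × List (ℕ × ℕ)))) :=
 [[[(0, 0, 0, 0, 0, []),
   (0, 0, 0, 0, 0, [(0, 2)]),
   (4, 0, 0, 0, 0, [(2, 2), (1, 0), (0, 2)]),
   (6, 0, 0, 0, 0, [(4, 2), (3, 0), (2, 2), (1, 0), (0, 2)])],
  [(1, 0, 0, 0, 0, [(0, 3)]),
   (0, 0, 0, 0, 0, []),
   (0, 1, 0, 0, 0, [(0, 3), (1, 2), (0, 0)]),
   (4, 1, 0, 0, 0, [(0, 3), (3, 2), (2, 0), (1, 2), (0, 0)])],
  [(5, 0, 0, 0, 0, [(2, 3), (1, 1), (0, 3)]),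
   (1, 0, 0, -1, 0, [(2, 3), (1, 1), (0, 3)]),
   (0, 0, 0, 0, 0, []),
   (0, 1, 0, 0, 0, [(2, 3), (1, 1), (0, 3), (1, 2), (0, 0)])],
  [(7, 0, 0, 0, 0, [(4, 3), (3, 1), (2, 3), (1, 1), (0, 3)]),
   (5, 0, 0, -1, 0, [(4, 3), (3, 1), (2, 3), (1, 1), (0, 3)]),
   (1, 0, 0, -1, 0, [(4, 3), (3, 1), (2, 3), (1, 1), (0, 3)]),
   (0, 0, 0, 0, 0, [])]],
 [[(0, 0, 0, 0, 0, []),
   (4, 0, 0, 0, 0, [(2, 2), (1, 0), (0, 2)]),
   (6, 0, 0, 0, 0, [(4, 2), (3, 0), (2, 2), (1, 0), (0, 2)]),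
   (8, 0, 0, 0, 0, [(3, 4), (2, 2), (1, 0), (0, 2)])],
  [(5, 0, 0, 0, 0, [(2, 3), (1, 1), (0, 3)]),
   (0, 0, 0, 0, 0, []),
   (0, 1, 0, 0, 0, [(2, 3), (1, 1), (0, 3), (1, 2), (0, 0)]),
   (2, 0, 0, 0, 0, [(2, 3), (1, 1), (0, 3), (0, 4)])],
  [(7, 0, 0, 0, 0, [(4, 3), (3, 1), (2, 3), (1, 1), (0, 3)]),
   (1, 0, 0, -1, 0, [(4, 3), (3, 1), (2, 3), (1, 1), (0, 3)]),
   (0, 0, 0, 0, 0, []),
   (12, 0, 0, 0, 0, [(4, 3), (3, 1), (2, 3), (2, 4), (1, 1), (0, 3)])],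
  [(9, 0, 0, 0, 0, [(3, 3), (2, 1), (1, 3), (0, 5)]),
   (3, 0, 0, 0, 0, [(3, 3), (2, 1), (1, 3), (0, 5)]),
   (13, 0, 0, 0, 0, [(3, 3), (2, 1), (1, 3), (2, 2), (1, 0), (0, 5)]),
   (0, 0, 0, 0, 0, [])]],
 [[(0, 0, 0, 0, 0, []),
   (0, 0, 0, 0, 0, [(0, 2)]),
   (6, 0, 0, 0, 0, [(4, 2), (3, 0), (2, 2), (1, 0), (0, 2)]),
   (10, 0, 0, 0, 0, [(5, 4), (4, 2), (3, 0), (2, 2), (1, 0), (0, 2)])],
  [(1, 0, 0, 0, 0, [(0, 3)]),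
   (0, 0, 0, 0, 0, []),
   (4, 1, 0, 0, 0, [(0, 3), (3, 2), (2, 0), (1, 2), (0, 0)]),
   (8, 1, 0, 0, 0, [(0, 3), (4, 4), (3, 2), (2, 0), (1, 2), (0, 0)])],
  [(7, 0, 0, 0, 0, [(4, 3), (3, 1), (2, 3), (1, 1), (0, 3)]),
   (5, 0, 0, -1, 0, [(4, 3), (3, 1), (2, 3), (1, 1), (0, 3)]),
   (0, 0, 0, 0, 0, []),
   (2, 0, 0, 0, 0, [(4, 3), (3, 1), (2, 3), (1, 1), (0, 3), (0, 4)])],
  [(11, 0, 0, 0, 0, [(5, 3), (4, 1), (3, 3), (2, 1), (1, 3), (0, 5)]),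
   (9, 0, 0, -1, 0, [(5, 3), (4, 1), (3, 3), (2, 1), (1, 3), (0, 5)]),
   (3, 0, 0, 0, 0, [(5, 3), (4, 1), (3, 3), (2, 1), (1, 3), (0, 5)]),
   (0, 0, 0, 0, 0, [])]],
 [[(0, 0, 0, 0, 0, []),
   (6, 0, 0, 0, 0, [(4, 2), (3, 0), (2, 2), (1, 0), (0, 2)]),
   (10, 0, 0, 0, 0, [(5, 4), (4, 2), (3, 0), (2, 2), (1, 0), (0, 2)]),
   (8, 1, 0, 0, 0, [(4, 4), (3, 2), (2, 0), (1, 2), (0, 0)])],
  [(7, 0, 0, 0, 0, [(4, 3), (3, 1), (2, 3), (1, 1), (0, 3)]),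
   (0, 0, 0, 0, 0, []),
   (2, 0, 0, 0, 0, [(4, 3), (3, 1), (2, 3), (1, 1), (0, 3), (0, 4)]),
   (15, 0, 0, 1, 0, [(0, 23), (2, 5), (1, 0), (0, 7)])],
  [(11, 0, 0, 0, 0, [(5, 3), (4, 1), (3, 3), (2, 1), (1, 3), (0, 5)]),
   (3, 0, 0, 0, 0, [(5, 3), (4, 1), (3, 3), (2, 1), (1, 3), (0, 5)]),
   (0, 0, 0, 0, 0, []),
   (17, 0, 0, 1, 0, [(1, 23), (3, 5), (2, 0), (1, 7), (0, 5)])],
  [(9, 0, 0, -1, 0, [(4, 1), (3, 3), (2, 1), (1, 3), (0, 5)]),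
   (14, -1, 0, 0, 0, [(1, 22), (0, 5), (1, 6), (0, 1)]),
   (16, -1, 0, 0, 0, [(1, 22), (0, 5), (1, 18), (2, 6), (1, 4), (0, 1)]),
   (0, 0, 0, 0, 0, [])]],
 [[(0, 0, 0, 0, 0, []),
   (6, 0, 0, 0, 0, [(4, 2), (3, 0), (2, 2), (1, 0), (0, 2)]),
   (8, 1, 0, 0, 0, [(4, 4), (3, 2), (2, 0), (1, 2), (0, 0)]),
   (13, 0, 1, -1, 0, [(0, 27), (0, 8)])],
  [(7, 0, 0, 0, 0, [(4, 3), (3, 1), (2, 3), (1, 1), (0, 3)]),
   (0, 0, 0, 0, 0, []),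
   (15, 0, 0, 1, 0, [(0, 23), (2, 5), (1, 0), (0, 7)]),
   (17, 0, 0, 0, 0, [(0, 23), (2, 5), (1, 0), (0, 21), (1, 7), (0, 5)])],
  [(9, 0, 0, -1, 0, [(4, 1), (3, 3), (2, 1), (1, 3), (0, 5)]),
   (14, -1, 0, 0, 0, [(1, 22), (0, 5), (1, 6), (0, 1)]),
   (0, 0, 0, 0, 0, []),
   (3, -1, 0, 0, 0, [(4, 1), (3, 3), (2, 1), (1, 3), (0, 5), (1, 5), (0, 1)])],
  [(12, 1, 0, 0, -1, [(2, 26), (1, 0), (0, 4), (3, 4), (2, 1), (1, 3), (0, 0)]),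
   (16, 0, 0, 0, 0, [(3, 22), (2, 5), (1, 0), (1, 6), (0, 4)]),
   (2, 0, 0, 1, 0, [(6, 1), (5, 3), (4, 1), (3, 3), (2, 5), (1, 0), (0, 4)]),
   (0, 0, 0, 0, 0, [])]],
 [[(0, 0, 0, 0, 0, []),
   (0, 0, 0, 0, 0, [(0, 2)]),
   (1, 0, 0, 0, 0, [(0, 3)]),
   (8, 1, 0, 0, 0, [(4, 4), (3, 2), (2, 0), (1, 2), (0, 0)]),
   (10, 0, 0, 0, 0, [(5, 4), (4, 2), (3, 0), (2, 2), (1, 0), (0, 2)]),
   (25, 0, 0, 0, 0, [(5, 4), (4, 2), (3, 0), (2, 2), (1, 0), (0, 3)])],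
  [(1, 0, 0, 0, 0, [(0, 3)]),
   (0, 0, 0, 0, 0, []),
   (0, 0, 0, 0, 0, [(0, 11), (0, 2)]),
   (25, 0, 0, 0, 0, [(5, 4), (4, 2), (3, 0), (2, 2), (1, 0), (0, 3)]),
   (8, 1, 0, 0, 0, [(0, 3), (4, 4), (3, 2), (2, 0), (1, 2), (0, 0)]),
   (10, 0, 0, 0, 0, [(0, 11), (5, 4), (4, 2), (3, 0), (2, 2), (1, 0), (0, 2)])],
  [(0, 0, 0, 0, 0, [(0, 2)]),
   (1, 0, 0, 0, 0, [(0, 10), (0, 3)]),
   (0, 0, 0, 0, 0, []),
   (10, 0, 0, 0, 0, [(5, 4), (4, 2), (3, 0), (2, 2), (1, 0), (0, 2)]),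
   (25, 0, 0, 0, 0, [(0, 10), (5, 4), (4, 2), (3, 0), (2, 2), (1, 0), (0, 3)]),
   (8, 1, 0, 0, 0, [(0, 2), (4, 4), (3, 2), (2, 0), (1, 2), (0, 0)])],
  [(9, 0, 0, -1, 0, [(4, 1), (3, 3), (2, 1), (1, 3), (0, 5)]),
   (26, 0, 0, 0, 0, [(5, 2), (4, 1), (3, 3), (2, 1), (1, 3), (0, 5)]),
   (11, 0, 0, 0, 0, [(5, 3), (4, 1), (3, 3), (2, 1), (1, 3), (0, 5)]),
   (0, 0, 0, 0, 0, []),
   (16, -1, 0, 0, 0, [(1, 22), (0, 5), (1, 18), (2, 6), (1, 4), (0, 1)]),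
   (17, 0, 0, 1, 0, [(1, 23), (3, 5), (2, 0), (1, 7), (0, 5)])],
  [(11, 0, 0, 0, 0, [(5, 3), (4, 1), (3, 3), (2, 1), (1, 3), (0, 5)]),
   (9, 0, 0, -1, 0, [(5, 3), (4, 1), (3, 3), (2, 1), (1, 3), (0, 5)]),
   (26, 0, 0, 0, 0, [(5, 11), (5, 2), (4, 1), (3, 3), (2, 1), (1, 3), (0, 5)]),
   (17, 0, 0, 1, 0, [(1, 23), (3, 5), (2, 0), (1, 7), (0, 5)]),
   (0, 0, 0, 0, 0, []),
   (16, -1, 0, 0, 0, [(5, 11), (1, 22), (0, 5), (1, 18), (2, 6), (1, 4), (0, 1)])],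
  [(26, 0, 0, 0, 0, [(5, 2), (4, 1), (3, 3), (2, 1), (1, 3), (0, 5)]),
   (11, 0, 0, 0, 0, [(5, 10), (5, 3), (4, 1), (3, 3), (2, 1), (1, 3), (0, 5)]),
   (9, 0, 0, -1, 0, [(5, 2), (4, 1), (3, 3), (2, 1), (1, 3), (0, 5)]),
   (16, -1, 0, 0, 0, [(1, 22), (0, 5), (1, 18), (2, 6), (1, 4), (0, 1)]),
   (17, 0, 0, 1, 0, [(5, 10), (1, 23), (3, 5), (2, 0), (1, 7), (0, 5)]),
   (0, 0, 0, 0, 0, [])]],
 [[(0, 0, 0, 0, 0, []),
   (0, 0, 0, 0, 0, [(0, 2)]),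
   (1, 0, 0, 0, 0, [(0, 3)]),
   (2, -1, 0, 0, 0, [(1, 4), (0, 1)]),
   (23, 0, 0, 0, 0, [(2, 4), (1, 1), (0, 2)]),
   (12, 0, 0, 0, 0, [(2, 4), (1, 1), (0, 3)])],
  [(1, 0, 0, 0, 0, [(0, 3)]),
   (0, 0, 0, 0, 0, []),
   (0, 0, 0, 0, 0, [(0, 11), (0, 2)]),
   (12, 0, 0, 0, 0, [(2, 4), (1, 1), (0, 3)]),
   (2, -1, 0, 0, 0, [(0, 3), (1, 4), (0, 1)]),
   (23, 0, 0, 0, 0, [(0, 11), (2, 4), (1, 1), (0, 2)])],
  [(0, 0, 0, 0, 0, [(0, 2)]),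
   (1, 0, 0, 0, 0, [(0, 10), (0, 3)]),
   (0, 0, 0, 0, 0, []),
   (23, 0, 0, 0, 0, [(2, 4), (1, 1), (0, 2)]),
   (12, 0, 0, 0, 0, [(0, 10), (2, 4), (1, 1), (0, 3)]),
   (2, -1, 0, 0, 0, [(0, 2), (1, 4), (0, 1)])],
  [(3, 0, 0, 1, 0, [(1, 0), (0, 5)]),
   (13, 0, 0, 0, 0, [(2, 2), (1, 0), (0, 5)]),
   (24, 0, 0, 0, 0, [(2, 3), (1, 0), (0, 5)]),
   (0, 0, 0, 0, 0, []),
   (8, 1, -1, -1, 0, [(10, 15), (6, 26), (5, 0), (4, 4), (3, 1), (2, 2), (1, 0), (0, 5)]),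
   (9, 1, 0, -1, 1, [(0, 28), (5, 1), (4, 3), (3, 1), (2, 3), (1, 5), (0, 0)])],
  [(24, 0, 0, 0, 0, [(2, 3), (1, 0), (0, 5)]),
   (3, 0, 0, 1, 0, [(2, 3), (1, 0), (0, 5)]),
   (13, 0, 0, 0, 0, [(2, 11), (2, 2), (1, 0), (0, 5)]),
   (9, 1, 0, -1, 1, [(0, 28), (5, 1), (4, 3), (3, 1), (2, 3), (1, 5), (0, 0)]),
   (0, 0, 0, 0, 0, []),
   (8, 1, -1, -1, 0, [(2, 11), (10, 15), (6, 26), (5, 0), (4, 4), (3, 1), (2, 2), (1, 0), (0, 5)])],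
  [(13, 0, 0, 0, 0, [(2, 2), (1, 0), (0, 5)]),
   (24, 0, 0, 0, 0, [(2, 10), (2, 3), (1, 0), (0, 5)]),
   (3, 0, 0, 1, 0, [(2, 2), (1, 0), (0, 5)]),
   (8, 1, -1, -1, 0, [(10, 15), (6, 26), (5, 0), (4, 4), (3, 1), (2, 2), (1, 0), (0, 5)]),
   (9, 1, 0, -1, 1, [(2, 10), (0, 28), (5, 1), (4, 3), (3, 1), (2, 3), (1, 5), (0, 0)]),
   (0, 0, 0, 0, 0, [])]],
 [[(0, 0, 0, 0, 0, []),
   (16, -1, 0, 0, 0, [(1, 22), (0, 5), (1, 18), (2, 6), (1, 4), (0, 1)]),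
   (17, 0, 0, 1, 0, [(1, 23), (3, 5), (2, 0), (1, 7), (0, 5)]),
   (12, 0, 0, 0, 0, [(4, 1), (3, 3), (2, 1), (1, 3), (0, 5), (2, 4), (1, 1), (0, 3)]),
   (27, 0, 0, 0, 0, [(1, 22), (0, 5), (1, 18), (5, 4), (4, 1), (3, 3), (2, 19), (1, 4), (2, 23), (1, 6), (0, 1), (0, 5)]),
   (7, 0, 0, 0, 1, [(1, 23), (3, 5), (0, 24), (5, 8), (4, 3), (3, 1), (2, 3), (1, 1), (0, 3)])],
  [(17, 0, 0, 1, 0, [(1, 23), (3, 5), (2, 0), (1, 7), (0, 5)]),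
   (0, 0, 0, 0, 0, []),
   (16, -1, 0, 0, 0, [(5, 11), (1, 22), (0, 5), (1, 18), (2, 6), (1, 4), (0, 1)]),
   (7, 0, 0, 0, 1, [(1, 23), (3, 5), (0, 24), (5, 8), (4, 3), (3, 1), (2, 3), (1, 1), (0, 3)]),
   (12, 0, 0, 0, 0, [(5, 3), (4, 1), (3, 3), (2, 1), (1, 3), (0, 5), (2, 4), (1, 1), (0, 3)]),
   (27, 0, 0, 0, 0, [(5, 11), (1, 22), (0, 5), (1, 18), (5, 4), (4, 1), (3, 3), (2, 19), (1, 4), (2, 23), (1, 6), (0, 1), (0, 5)])],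
  [(16, -1, 0, 0, 0, [(1, 22), (0, 5), (1, 18), (2, 6), (1, 4), (0, 1)]),
   (17, 0, 0, 1, 0, [(5, 10), (1, 23), (3, 5), (2, 0), (1, 7), (0, 5)]),
   (0, 0, 0, 0, 0, []),
   (27, 0, 0, 0, 0, [(1, 22), (0, 5), (1, 18), (5, 4), (4, 1), (3, 3), (2, 19), (1, 4), (2, 23), (1, 6), (0, 1), (0, 5)]),
   (7, 0, 0, 0, 1, [(5, 10), (1, 23), (3, 5), (0, 24), (5, 8), (4, 3), (3, 1), (2, 3), (1, 1), (0, 3)]),
   (12, 0, 0, 0, 0, [(5, 2), (4, 1), (3, 3), (2, 1), (1, 3), (0, 5), (2, 4), (1, 1), (0, 3)])],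
  [(13, 0, 0, 0, 0, [(7, 1), (6, 3), (5, 1), (4, 3), (3, 5), (2, 2), (1, 0), (0, 5)]),
   (6, 0, -1, 0, 0, [(4, 22), (3, 5), (4, 18), (0, 25), (5, 2), (4, 0), (3, 2), (2, 0), (1, 2), (0, 9)]),
   (28, 0, 0, 0, 0, [(4, 23), (6, 5), (7, 22), (6, 5), (5, 0), (4, 7), (3, 5), (2, 2), (1, 0), (0, 5)]),
   (0, 0, 0, 0, 0, []),
   (8, 0, -1, 0, 0, [(4, 22), (3, 5), (4, 18), (0, 25), (5, 2), (4, 0), (4, 4), (3, 2), (2, 0), (1, 2), (0, 9)]),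
   (9, 0, 0, 0, 1, [(4, 23), (6, 5), (3, 24), (2, 2), (1, 0), (4, 8), (3, 3), (2, 1), (1, 3), (0, 5)])],
  [(28, 0, 0, 0, 0, [(4, 23), (6, 5), (7, 22), (6, 5), (5, 0), (4, 7), (3, 5), (2, 2), (1, 0), (0, 5)]),
   (13, 0, 0, 0, 0, [(8, 3), (7, 1), (6, 3), (5, 1), (4, 3), (3, 5), (2, 2), (1, 0), (0, 5)]),
   (6, 0, -1, 0, 0, [(8, 11), (4, 22), (3, 5), (4, 18), (0, 25), (5, 2), (4, 0), (3, 2), (2, 0), (1, 2), (0, 9)]),
   (9, 0, 0, 0, 1, [(4, 23), (6, 5), (3, 24), (2, 2), (1, 0), (4, 8), (3, 3), (2, 1), (1, 3), (0, 5)]),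
   (0, 0, 0, 0, 0, []),
   (8, 0, -1, 0, 0, [(8, 11), (4, 22), (3, 5), (4, 18), (0, 25), (5, 2), (4, 0), (4, 4), (3, 2), (2, 0), (1, 2), (0, 9)])],
  [(6, 0, -1, 0, 0, [(4, 22), (3, 5), (4, 18), (0, 25), (5, 2), (4, 0), (3, 2), (2, 0), (1, 2), (0, 9)]),
   (28, 0, 0, 0, 0, [(8, 10), (4, 23), (6, 5), (7, 22), (6, 5), (5, 0), (4, 7), (3, 5), (2, 2), (1, 0), (0, 5)]),
   (13, 0, 0, 0, 0, [(8, 2), (7, 1), (6, 3), (5, 1), (4, 3), (3, 5), (2, 2), (1, 0), (0, 5)]),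
   (8, 0, -1, 0, 0, [(4, 22), (3, 5), (4, 18), (0, 25), (5, 2), (4, 0), (4, 4), (3, 2), (2, 0), (1, 2), (0, 9)]),
   (9, 0, 0, 0, 1, [(8, 10), (4, 23), (6, 5), (3, 24), (2, 2), (1, 0), (4, 8), (3, 3), (2, 1), (1, 3), (0, 5)]),
   (0, 0, 0, 0, 0, [])]],
 [[(0, 0, 0, 0, 0, []),
   (2, 0, 0, 0, 0, [(0, 4)]),
   (18, 0, 0, 0, 0, [(1, 4), (0, 4)]),
   (3, 0, 0, 0, 0, [(0, 5)]),
   (15, 0, 0, 0, 0, [(0, 7)]),
   (21, 0, 0, 0, 0, [(0, 20), (1, 7), (0, 4)]),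
   (22, 0, 0, 0, 0, [(0, 20), (1, 20), (2, 7), (1, 4), (0, 4)]),
   (17, 0, 0, 0, 0, [(0, 21), (1, 7), (0, 5)])],
  [(3, 0, 0, 0, 0, [(0, 5)]),
   (0, 0, 0, 0, 0, []),
   (2, 0, 0, 0, 0, [(0, 5), (0, 4)]),
   (18, 0, 0, 0, 0, [(0, 12), (1, 4), (0, 4)]),
   (17, 0, 0, 0, 0, [(1, 7), (0, 5)]),
   (15, 0, 0, 0, 0, [(1, 20), (0, 5), (0, 7)]),
   (21, 0, 0, 0, 0, [(1, 20), (0, 5), (0, 20), (1, 7), (0, 4)]),
   (22, 0, 0, 0, 0, [(1, 21), (0, 12), (2, 7), (1, 4), (0, 4)])],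
  [(18, 0, 0, 0, 0, [(0, 12), (1, 4), (0, 4)]),
   (3, 0, 0, 0, 0, [(0, 12), (0, 13), (0, 5)]),
   (0, 0, 0, 0, 0, []),
   (2, 0, 0, 0, 0, [(0, 12), (1, 4), (0, 4)]),
   (22, 0, 0, 0, 0, [(0, 12), (2, 7), (1, 4), (0, 4)]),
   (17, 0, 0, 0, 0, [(0, 12), (2, 20), (0, 13), (1, 7), (0, 5)]),
   (15, 0, 0, 0, 0, [(0, 12), (2, 20), (0, 13), (1, 20), (0, 5), (0, 7)]),
   (21, 0, 0, 0, 0, [(0, 12), (2, 21), (1, 4), (1, 7), (0, 4)])],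
  [(2, 0, 0, 0, 0, [(0, 4)]),
   (18, 0, 0, 0, 0, [(1, 4), (0, 4)]),
   (3, 0, 0, 0, 0, [(0, 13), (0, 5)]),
   (0, 0, 0, 0, 0, []),
   (21, 0, 0, 0, 0, [(1, 7), (0, 4)]),
   (22, 0, 0, 0, 0, [(1, 20), (2, 7), (1, 4), (0, 4)]),
   (17, 0, 0, 0, 0, [(1, 20), (2, 20), (0, 13), (1, 7), (0, 5)]),
   (15, 0, 0, 0, 0, [(1, 21), (0, 4), (0, 7)])],
  [(14, 0, 0, 0, 0, [(0, 6)]),
   (16, 0, 0, 0, 0, [(0, 18), (1, 6), (0, 4)]),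
   (20, 0, 0, 0, 0, [(0, 18), (1, 18), (2, 6), (1, 4), (0, 4)]),
   (19, 0, 0, 0, 0, [(0, 19), (1, 6), (0, 5)]),
   (0, 0, 0, 0, 0, []),
   (2, 0, 0, 0, 0, [(0, 6), (0, 4)]),
   (18, 0, 0, 0, 0, [(0, 6), (1, 4), (0, 4)]),
   (3, 0, 0, 0, 0, [(0, 6), (0, 5)])],
  [(19, 0, 0, 0, 0, [(1, 6), (0, 5)]),
   (14, 0, 0, 0, 0, [(1, 18), (0, 5), (0, 6)]),
   (16, 0, 0, 0, 0, [(1, 18), (0, 5), (0, 18), (1, 6), (0, 4)]),
   (20, 0, 0, 0, 0, [(1, 19), (0, 12), (2, 6), (1, 4), (0, 4)]),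
   (3, 0, 0, 0, 0, [(1, 6), (0, 5)]),
   (0, 0, 0, 0, 0, []),
   (2, 0, 0, 0, 0, [(1, 6), (0, 5), (0, 4)]),
   (18, 0, 0, 0, 0, [(1, 6), (0, 12), (1, 4), (0, 4)])],
  [(20, 0, 0, 0, 0, [(0, 12), (2, 6), (1, 4), (0, 4)]),
   (19, 0, 0, 0, 0, [(0, 12), (2, 18), (0, 13), (1, 6), (0, 5)]),
   (14, 0, 0, 0, 0, [(0, 12), (2, 18), (0, 13), (1, 18), (0, 5), (0, 6)]),
   (16, 0, 0, 0, 0, [(0, 12), (2, 19), (1, 4), (1, 6), (0, 4)]),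
   (18, 0, 0, 0, 0, [(0, 12), (2, 6), (1, 4), (0, 4)]),
   (3, 0, 0, 0, 0, [(0, 12), (2, 6), (0, 13), (0, 5)]),
   (0, 0, 0, 0, 0, []),
   (2, 0, 0, 0, 0, [(0, 12), (2, 6), (1, 4), (0, 4)])],
  [(16, 0, 0, 0, 0, [(1, 6), (0, 4)]),
   (20, 0, 0, 0, 0, [(1, 18), (2, 6), (1, 4), (0, 4)]),
   (19, 0, 0, 0, 0, [(1, 18), (2, 18), (0, 13), (1, 6), (0, 5)]),
   (14, 0, 0, 0, 0, [(1, 19), (0, 4), (0, 6)]),
   (2, 0, 0, 0, 0, [(1, 6), (0, 4)]),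
   (18, 0, 0, 0, 0, [(1, 6), (1, 4), (0, 4)]),
   (3, 0, 0, 0, 0, [(1, 6), (0, 13), (0, 5)]),
   (0, 0, 0, 0, 0, [])]]]

def xw (i k : ℕ) : List ℕ := (xwT.getD i []).getD k []
def nw (e : ℕ) : List ℕ := nwT.getD e []
def inc (i k l : ℕ) : ℕ × ℤ × ℤ × ℤ × ℤ × List (ℕ × ℕ) := ((incT.getD i []).getD k []).getD l (0, 0, 0, 0, 0, [])
/-- number of vertices -/
def nv (i : ℕ) : ℕ := (xwT.getD i []).length

def powW (x X : ℕ) : ℤ → List ℕ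
  | Int.ofNat n => List.replicate n x
  | Int.negSucc n => List.replicate (n + 1) X

def pew (a b : ℤ) : List ℕ := powW 0 1 a ++ powW 8 9 b

theorem ev_replicate (b c t : H) (n i : ℕ) : ev b c t (List.replicate n i) = lv b c t i ^ n := by
  simp [ev]

theorem ev_pew (b c t : H) (m n : ℤ) : ev b c t (pew m n) = t ^ m * (Pel b c t) ^ n := by
  unfold pew
  rw [ev_append]
  congr 1
  · cases m with
    | ofNat m => simp [powW, ev_replicate, lv]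
    | negSucc m => simp [powW, ev_replicate, lv, zpow_negSucc]
  · cases n with
    | ofNat m => simp [powW, ev_replicate, lv]
    | negSucc m => simp [powW, ev_replicate, lv, zpow_negSucc]

/-- check one incidence -/
def chkInc (i k l : ℕ) : Bool :=
  let d := inc i k l
  match runC d.2.2.2.2.2 (invw (xw i k) ++ xw i l ++ invw (pew d.2.1 d.2.2.1 ++ nw d.1 ++ pew d.2.2.2.1 d.2.2.2.2.1)) with
  | some [] => true
  | _ => false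

def chkIncAll : Bool :=
  (List.range 9).all fun i => (List.range (nv i)).all fun k => (List.range (nv i)).all fun l => Nat.beq k l || chkInc i k l

set_option maxRecDepth 100000 in
theorem chkIncAll_true : chkIncAll = true := by decide +kernel

theorem inc_spec {b c t : H} (h : Rels b c t) (i k l : ℕ) (hi : i < 9) (hk : k < nv i) (hl : l < nv i) (hkl : k ≠ l) :
    (ev b c t (xw i k))⁻¹ * ev b c t (xw i l) =
      (t ^ (inc i k l).2.1 * (Pel b c t) ^ (inc i k l).2.2.1) * ev b c t (nw (inc i k l).1) *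
      (t ^ (inc i k l).2.2.2.1 * (Pel b c t) ^ (inc i k l).2.2.2.2.1) := by
  have h0 := chkIncAll_true
  unfold chkIncAll at h0
  rw [List.all_eq_true] at h0
  have h1 := h0 i (List.mem_range.2 hi)
  rw [List.all_eq_true] at h1
  have h2 := h1 k (List.mem_range.2 hk)
  rw [List.all_eq_true] at h2
  have h3 := h2 l (List.mem_range.2 hl)
  rw [Bool.or_eq_true] at h3
  rcases h3 with h3 | h3
  · exact absurd (Nat.eq_of_beq_eq_true h3) hkl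
  · unfold chkInc at h3
    simp only at h3
    split at h3
    · rename_i hrun
      have := runC_spec h _ _ _ hrun
      rw [ev_append, ev_append, ev_invw, ev_invw, ev_append, ev_append, ev_pew, ev_pew, ev_nil] at this
      exact mul_inv_eq_one.1 this
    · simp at h3

end Helper46.DFJ
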