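import Mathlib

/-!
# DFJ: Ball, Slope, Contr, Mat, Sys, Rep
-/

section

/-!
Ball arithmetic over the complex numbers with integer mantissas, fixed scale 2^128.
-/

namespace Helper46.DFJ

/-- the scale -/
def SC : ℕ := 340282366920938463463374607431768211456

theorem SC_eq : SC = 2 ^ 128 := by norm_num [SC]

/-- Gaussian integers as plain pairs -/
structure GI where
  x : ℤ
  y : ℤ
deriving DecidableEq

namespace GI

/-- complex value -/
noncomputable def toC (a : GI) : ℂ := ⟨(a.x : ℝ), (a.y : ℝ)⟩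

def add (a b : GI) : GI := ⟨a.x + b.x, a.y + b.y⟩
def sub (a b : GI) : GI := ⟨a.x - b.x, a.y - b.y⟩
def neg (a : GI) : GI := ⟨-a.x, -a.y⟩
def conj (a : GI) : GI := ⟨a.x, -a.y⟩
def mul (a b : GI) : GI := ⟨a.x * b.x - a.y * b.y, a.x * b.y + a.y * b.x⟩
def mulS (a b : GI) : GI := ⟨(a.x * b.x - a.y * b.y) >>> (128 : ℕ), (a.x * b.y + a.y * b.x) >>> (128 : ℕ)⟩
/-- one-norm -/
def n1 (a : GI) : ℕ := a.x.natAbs + a.y.natAbs

theorem toC_add (a b : GI) : (add a b).toC = a.toC + b.toC := by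
  apply Complex.ext <;> simp [add, toC]
theorem toC_sub (a b : GI) : (sub a b).toC = a.toC - b.toC := by
  apply Complex.ext <;> simp [sub, toC]
theorem toC_neg (a : GI) : (neg a).toC = -a.toC := by
  apply Complex.ext <;> simp [neg, toC]
theorem toC_conj (a : GI) : (conj a).toC = (starRingEnd ℂ) a.toC := by
  apply Complex.ext <;> simp [conj, toC]
theorem toC_mul (a b : GI) : (mul a b).toC = a.toC * b.toC := by
  apply Complex.ext <;> simp [mul, toC]

theorem norm_le (a : GI) : ‖a.toC‖ ≤ (a.n1 : ℝ) := by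
  have h := Complex.norm_le_abs_re_add_abs_im a.toC
  have h1 : |a.toC.re| = ((a.x.natAbs : ℕ) : ℝ) := by
    simp [toC, Nat.cast_natAbs]
  have h2 : |a.toC.im| = ((a.y.natAbs : ℕ) : ℝ) := by
    simp [toC, Nat.cast_natAbs]
  rw [h1, h2] at h
  simpa [n1] using h

theorem SCpos : (0 : ℝ) < (SC : ℝ) := by norm_num [SC]

theorem shift_le (a : ℤ) : ((a >>> (128 : ℕ) : ℤ) : ℝ) ≤ (a : ℝ) / SC := by
  rw [le_div_iff₀ SCpos]
  have h : (a >>> (128 : ℕ) : ℤ) = a / (2 ^ 128 : ℕ) := Int.shiftRight_eq_div_pow a 128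
  rw [h]
  have h2 : (a / ((2 ^ 128 : ℕ) : ℤ)) * ((2 ^ 128 : ℕ) : ℤ) ≤ a := Int.ediv_mul_le a (by positivity)
  have h3 : ((SC : ℕ) : ℝ) = (((2 ^ 128 : ℕ) : ℤ) : ℝ) := by rw [SC_eq]; push_cast; ring
  rw [h3]
  exact_mod_cast h2

theorem lt_shift (a : ℤ) : (a : ℝ) / SC < ((a >>> (128 : ℕ) : ℤ) : ℝ) + 1 := by
  rw [div_lt_iff₀ SCpos]
  have h : (a >>> (128 : ℕ) : ℤ) = a / (2 ^ 128 : ℕ) := Int.shiftRight_eq_div_pow a 128
  rw [h]
  have h2 : a < (a / ((2 ^ 128 : ℕ) : ℤ) + 1) * ((2 ^ 128 : ℕ) : ℤ) := Int.lt_ediv_add_one_mul_self a (by positivity)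
  have h3 : ((SC : ℕ) : ℝ) = (((2 ^ 128 : ℕ) : ℤ) : ℝ) := by rw [SC_eq]; push_cast; ring
  rw [h3]
  exact_mod_cast h2

theorem mulS_err (a b : GI) : ‖a.toC * b.toC / SC - (mulS a b).toC‖ ≤ 2 := by
  have h := Complex.norm_le_abs_re_add_abs_im (a.toC * b.toC / SC - (mulS a b).toC)
  have e1 : (a.toC * b.toC / SC - (mulS a b).toC).re = ((a.x * b.x - a.y * b.y : ℤ) : ℝ) / SC - (((a.x * b.x - a.y * b.y) >>> (128 : ℕ) : ℤ) : ℝ) := by
    have : (a.toC * b.toC / (SC : ℂ)).re = (a.toC * b.toC).re / SC := by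
      have hh := Complex.div_natCast_re (a.toC * b.toC) SC
      exact hh
    rw [Complex.sub_re, this]
    simp [toC, mulS]
  have e2 : (a.toC * b.toC / SC - (mulS a b).toC).im = ((a.x * b.y + a.y * b.x : ℤ) : ℝ) / SC - (((a.x * b.y + a.y * b.x) >>> (128 : ℕ) : ℤ) : ℝ) := by
    have : (a.toC * b.toC / (SC : ℂ)).im = (a.toC * b.toC).im / SC := by
      have hh := Complex.div_natCast_im (a.toC * b.toC) SC
      exact hh
    rw [Complex.sub_im, this]
    simp [toC, mulS]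
  have b1 : |(a.toC * b.toC / SC - (mulS a b).toC).re| ≤ 1 := by
    rw [e1, abs_le]
    constructor
    · linarith [shift_le (a.x * b.x - a.y * b.y)]
    · linarith [lt_shift (a.x * b.x - a.y * b.y)]
  have b2 : |(a.toC * b.toC / SC - (mulS a b).toC).im| ≤ 1 := by
    rw [e2, abs_le]
    constructor
    · linarith [shift_le (a.x * b.y + a.y * b.x)]
    · linarith [lt_shift (a.x * b.y + a.y * b.x)]
  linarith

end GI

theorem nshift_le (n : ℕ) : (n : ℝ) / SC ≤ ((n >>> 128 : ℕ) : ℝ) + 1 := by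
  rw [div_le_iff₀ GI.SCpos]
  have h : (n >>> 128 : ℕ) = n / 2 ^ 128 := Nat.shiftRight_eq_div_pow n 128
  rw [h]
  have h2 : n < (n / 2 ^ 128 + 1) * 2 ^ 128 := by
    have := Nat.div_add_mod n (2 ^ 128)
    have h3 := Nat.mod_lt n (show 2 ^ 128 > 0 by positivity)
    nlinarith
  have h3 : ((SC : ℕ) : ℝ) = ((2 ^ 128 : ℕ) : ℝ) := by rw [SC_eq]
  rw [h3]
  exact_mod_cast h2.le

/-- complex ball: centre (scaled Gaussian integer), radius (scaled) -/
structure CB where
  c : GI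
  r : ℕ
deriving DecidableEq

namespace CB

/-- membership -/
def Mem (a : CB) (z : ℂ) : Prop := ‖(SC : ℂ) * z - a.c.toC‖ ≤ (a.r : ℝ)

def add (a b : CB) : CB := ⟨a.c.add b.c, a.r + b.r⟩
def sub (a b : CB) : CB := ⟨a.c.sub b.c, a.r + b.r⟩
def neg (a : CB) : CB := ⟨a.c.neg, a.r⟩
def conj (a : CB) : CB := ⟨a.c.conj, a.r⟩
def mul (a b : CB) : CB := ⟨a.c.mulS b.c, ((a.c.n1 * b.r + b.c.n1 * a.r + a.r * b.r) >>> 128) + 3⟩
def ofInt (n : ℤ) : CB := ⟨⟨n * SC, 0⟩, 0⟩
def ofGI (a : GI) : CB := ⟨⟨a.x * SC, a.y * SC⟩, 0⟩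

theorem Mem.add {a b : CB} {z w : ℂ} (ha : a.Mem z) (hb : b.Mem w) : (a.add b).Mem (z + w) := by
  unfold Mem CB.add at *
  simp only [GI.toC_add]
  have : (SC : ℂ) * (z + w) - (a.c.toC + b.c.toC) = ((SC : ℂ) * z - a.c.toC) + ((SC : ℂ) * w - b.c.toC) := by ring
  rw [this]
  refine (norm_add_le _ _).trans ?_
  push_cast
  linarith

theorem Mem.neg {a : CB} {z : ℂ} (ha : a.Mem z) : (a.neg).Mem (-z) := by
  unfold Mem CB.neg at *
  simp only [GI.toC_neg]
  have : (SC : ℂ) * (-z) - (-a.c.toC) = -((SC : ℂ) * z - a.c.toC) := by ring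
  rw [this, norm_neg]
  exact ha

theorem Mem.sub {a b : CB} {z w : ℂ} (ha : a.Mem z) (hb : b.Mem w) : (a.sub b).Mem (z - w) := by
  unfold Mem CB.sub at *
  simp only [GI.toC_sub]
  have : (SC : ℂ) * (z - w) - (a.c.toC - b.c.toC) = ((SC : ℂ) * z - a.c.toC) - ((SC : ℂ) * w - b.c.toC) := by ring
  rw [this]
  refine (norm_sub_le _ _).trans ?_
  push_cast
  linarith

theorem Mem.conj {a : CB} {z : ℂ} (ha : a.Mem z) : (a.conj).Mem ((starRingEnd ℂ) z) := by
  unfold Mem CB.conj at *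
  simp only [GI.toC_conj]
  have : (SC : ℂ) * ((starRingEnd ℂ) z) - (starRingEnd ℂ) a.c.toC = (starRingEnd ℂ) ((SC : ℂ) * z - a.c.toC) := by
    simp
  rw [this, Complex.norm_conj]
  exact ha

theorem norm_SC : ‖(SC : ℂ)‖ = (SC : ℝ) := by
  simp

theorem SC_ne : (SC : ℂ) ≠ 0 := by
  have := GI.SCpos
  intro h
  have : (SC : ℝ) = 0 := by exact_mod_cast h
  linarith

theorem Mem.mul {a b : CB} {z w : ℂ} (ha : a.Mem z) (hb : b.Mem w) : (a.mul b).Mem (z * w) := by
  unfold Mem at *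
  set A := (SC : ℂ) * z with hA
  set B := (SC : ℂ) * w with hB
  have e : (SC : ℂ) * (z * w) = A * B / SC := by
    rw [hA, hB]; field_simp [SC_ne]
  have h1 : ‖A * B - a.c.toC * b.c.toC‖ ≤ ((a.c.n1 * b.r + b.c.n1 * a.r + a.r * b.r : ℕ) : ℝ) := by
    have e1 : A * B - a.c.toC * b.c.toC = a.c.toC * (B - b.c.toC) + (A - a.c.toC) * b.c.toC + (A - a.c.toC) * (B - b.c.toC) := by ring
    rw [e1]
    have n1 := GI.norm_le a.c
    have n2 := GI.norm_le b.c
    have t1 : ‖a.c.toC * (B - b.c.toC)‖ ≤ (a.c.n1 : ℝ) * b.r := by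
      rw [norm_mul]; exact mul_le_mul n1 hb (norm_nonneg _) (by positivity)
    have t2 : ‖(A - a.c.toC) * b.c.toC‖ ≤ (b.c.n1 : ℝ) * a.r := by
      rw [norm_mul, mul_comm]; exact mul_le_mul n2 ha (norm_nonneg _) (by positivity)
    have t3 : ‖(A - a.c.toC) * (B - b.c.toC)‖ ≤ (a.r : ℝ) * b.r := by
      rw [norm_mul]; exact mul_le_mul ha hb (norm_nonneg _) (by positivity)
    refine (norm_add₃_le).trans ?_
    push_cast
    linarith
  rw [e]
  have h2 := GI.mulS_err a.c b.c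
  have h3 : A * B / SC - (a.mul b).c.toC = (A * B - a.c.toC * b.c.toC) / SC + (a.c.toC * b.c.toC / SC - (a.c.mulS b.c).toC) := by
    simp only [CB.mul]; ring
  rw [h3]
  refine (norm_add_le _ _).trans ?_
  have h4 : ‖(A * B - a.c.toC * b.c.toC) / SC‖ ≤ ((a.c.n1 * b.r + b.c.n1 * a.r + a.r * b.r : ℕ) : ℝ) / SC := by
    rw [norm_div, norm_SC]
    exact div_le_div_of_nonneg_right h1 GI.SCpos.le
  have h5 := nshift_le (a.c.n1 * b.r + b.c.n1 * a.r + a.r * b.r)
  have h6 : (((a.mul b).r : ℕ) : ℝ) = (((a.c.n1 * b.r + b.c.n1 * a.r + a.r * b.r) >>> 128 : ℕ) : ℝ) + 3 := by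
    simp only [CB.mul]; push_cast; ring
  rw [h6]
  linarith

theorem mem_ofInt (n : ℤ) : (ofInt n).Mem (n : ℂ) := by
  unfold Mem ofInt
  have : (SC : ℂ) * (n : ℂ) - (GI.toC ⟨n * SC, 0⟩) = 0 := by
    apply Complex.ext
    · simp [GI.toC, mul_comm]
    · simp [GI.toC]
  simp only [this]
  simp

theorem mem_ofGI (a : GI) : (ofGI a).Mem a.toC := by
  unfold Mem ofGI
  have : (SC : ℂ) * a.toC - (GI.toC ⟨a.x * SC, a.y * SC⟩) = 0 := by
    apply Complex.ext
    · simp [GI.toC, mul_comm]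
    · simp [GI.toC, mul_comm]
  simp only [this]
  simp

/-- positivity of the real part -/
theorem re_pos {a : CB} {z : ℂ} (ha : a.Mem z) (h : (a.r : ℤ) < a.c.x) : 0 < z.re := by
  unfold Mem at ha
  have h1 := (Complex.abs_re_le_norm ((SC : ℂ) * z - a.c.toC)).trans ha
  have h2 : ((SC : ℂ) * z - a.c.toC).re = SC * z.re - a.c.x := by
    simp [GI.toC]
  rw [h2, abs_le] at h1
  have h3 : (a.r : ℝ) < a.c.x := by exact_mod_cast h
  have h4 : 0 < (SC : ℝ) * z.re := by linarith [h1.1]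
  exact (mul_pos_iff_of_pos_left GI.SCpos).1 h4

theorem im_pos {a : CB} {z : ℂ} (ha : a.Mem z) (h : (a.r : ℤ) < a.c.y) : 0 < z.im := by
  unfold Mem at ha
  have h1 := (Complex.abs_im_le_norm ((SC : ℂ) * z - a.c.toC)).trans ha
  have h2 : ((SC : ℂ) * z - a.c.toC).im = SC * z.im - a.c.y := by
    simp [GI.toC]
  rw [h2, abs_le] at h1
  have h3 : (a.r : ℝ) < a.c.y := by exact_mod_cast h
  have h4 : 0 < (SC : ℝ) * z.im := by linarith [h1.1]
  exact (mul_pos_iff_of_pos_left GI.SCpos).1 h4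

/-- nonvanishing test -/
def nz (a : CB) : Bool := decide (a.r < a.c.x.natAbs) || decide (a.r < a.c.y.natAbs)

theorem ne_zero {a : CB} {z : ℂ} (ha : a.Mem z) (h : a.nz = true) : z ≠ 0 := by
  rintro rfl
  unfold Mem at ha
  simp only [mul_zero, zero_sub, norm_neg] at ha
  unfold nz at h
  rw [Bool.or_eq_true, decide_eq_true_eq, decide_eq_true_eq] at h
  rcases h with h | h
  · have h1 := (Complex.abs_re_le_norm a.c.toC).trans ha
    have h2 : |a.c.toC.re| = ((a.c.x.natAbs : ℕ) : ℝ) := by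
      simp [GI.toC, Nat.cast_natAbs]
    rw [h2] at h1
    have h3 : a.c.x.natAbs ≤ a.r := by exact_mod_cast h1
    omega
  · have h1 := (Complex.abs_im_le_norm a.c.toC).trans ha
    have h2 : |a.c.toC.im| = ((a.c.y.natAbs : ℕ) : ℝ) := by
      simp [GI.toC, Nat.cast_natAbs]
    rw [h2] at h1
    have h3 : a.c.y.natAbs ≤ a.r := by exact_mod_cast h1
    omega

end CB

end Helper46.DFJ

end

section

/-!
Slope arithmetic: enclosures of a function of three complex variables on a set, together with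
a linear approximation of its difference quotients.
-/

namespace Helper46.DFJ

/-- three complex variables -/
abbrev V3 := Fin 3 → ℂ

structure SB where
  v : CB
  g0 : GI
  g1 : GI
  g2 : GI
  e : ℕ
deriving DecidableEq

namespace SB

/-- linear form -/
noncomputable def lin (s : SB) (d : V3) : ℂ := s.g0.toC * d 0 + s.g1.toC * d 1 + s.g2.toC * d 2

/-- enclosure on the set `X` -/
structure Encl (X : Set V3) (s : SB) (f : V3 → ℂ) : Prop where
  mem : ∀ u ∈ X, s.v.Mem (f u)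
  slope : ∀ u ∈ X, ∀ w ∈ X, ‖(SC : ℂ) * (f u - f w) - s.lin (u - w)‖ ≤ (s.e : ℝ) * ‖u - w‖

def gn (s : SB) : ℕ := s.g0.n1 + s.g1.n1 + s.g2.n1

theorem lin_le (s : SB) (d : V3) : ‖s.lin d‖ ≤ (s.gn : ℝ) * ‖d‖ := by
  unfold lin gn
  have h0 : ‖s.g0.toC * d 0‖ ≤ (s.g0.n1 : ℝ) * ‖d‖ := by
    rw [norm_mul]; exact mul_le_mul (GI.norm_le _) (norm_le_pi_norm d 0) (norm_nonneg _) (by positivity)
  have h1 : ‖s.g1.toC * d 1‖ ≤ (s.g1.n1 : ℝ) * ‖d‖ := by
    rw [norm_mul]; exact mul_le_mul (GI.norm_le _) (norm_le_pi_norm d 1) (norm_nonneg _) (by positivity)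
  have h2 : ‖s.g2.toC * d 2‖ ≤ (s.g2.n1 : ℝ) * ‖d‖ := by
    rw [norm_mul]; exact mul_le_mul (GI.norm_le _) (norm_le_pi_norm d 2) (norm_nonneg _) (by positivity)
  refine (norm_add₃_le).trans ?_
  push_cast
  linarith

def const (a : CB) : SB := ⟨a, ⟨0, 0⟩, ⟨0, 0⟩, ⟨0, 0⟩, 0⟩
def add (a b : SB) : SB := ⟨a.v.add b.v, a.g0.add b.g0, a.g1.add b.g1, a.g2.add b.g2, a.e + b.e⟩
def neg (a : SB) : SB := ⟨a.v.neg, a.g0.neg, a.g1.neg, a.g2.neg, a.e⟩
def sub (a b : SB) : SB := ⟨a.v.sub b.v, a.g0.sub b.g0, a.g1.sub b.g1, a.g2.sub b.g2, a.e + b.e⟩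
def mul (a b : SB) : SB :=
  ⟨a.v.mul b.v,
   (a.g0.mulS b.v.c).add (a.v.c.mulS b.g0),
   (a.g1.mulS b.v.c).add (a.v.c.mulS b.g1),
   (a.g2.mulS b.v.c).add (a.v.c.mulS b.g2),
   ((a.gn * b.v.r + b.gn * a.v.r + a.e * (b.v.c.n1 + b.v.r) + b.e * (a.v.c.n1 + a.v.r)) >>> 128) + 13⟩

theorem toC_zero : GI.toC ⟨0, 0⟩ = 0 := by
  apply Complex.ext <;> simp [GI.toC]

theorem encl_const {X : Set V3} {a : CB} {z : ℂ} (h : a.Mem z) : Encl X (const a) (fun _ => z) := by
  refine ⟨fun _ _ => h, fun u _ w _ => ?_⟩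
  simp [lin, const, toC_zero]

theorem Encl.add {X : Set V3} {a b : SB} {f g : V3 → ℂ} (ha : Encl X a f) (hb : Encl X b g) :
    Encl X (a.add b) (fun u => f u + g u) := by
  refine ⟨fun u hu => (ha.mem u hu).add (hb.mem u hu), fun u hu w hw => ?_⟩
  have h1 := ha.slope u hu w hw
  have h2 := hb.slope u hu w hw
  have e : (SC : ℂ) * ((f u + g u) - (f w + g w)) - (a.add b).lin (u - w) =
      ((SC : ℂ) * (f u - f w) - a.lin (u - w)) + ((SC : ℂ) * (g u - g w) - b.lin (u - w)) := by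
    simp only [lin, SB.add, GI.toC_add]; ring
  rw [e]
  refine (norm_add_le _ _).trans ?_
  simp only [SB.add]
  push_cast
  linarith

theorem Encl.neg {X : Set V3} {a : SB} {f : V3 → ℂ} (ha : Encl X a f) :
    Encl X (a.neg) (fun u => -f u) := by
  refine ⟨fun u hu => (ha.mem u hu).neg, fun u hu w hw => ?_⟩
  have h1 := ha.slope u hu w hw
  have e : (SC : ℂ) * ((-f u) - (-f w)) - (a.neg).lin (u - w) =
      -((SC : ℂ) * (f u - f w) - a.lin (u - w)) := by
    simp only [lin, SB.neg, GI.toC_neg]; ring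
  rw [e, norm_neg]
  exact h1

theorem Encl.sub {X : Set V3} {a b : SB} {f g : V3 → ℂ} (ha : Encl X a f) (hb : Encl X b g) :
    Encl X (a.sub b) (fun u => f u - g u) := by
  refine ⟨fun u hu => (ha.mem u hu).sub (hb.mem u hu), fun u hu w hw => ?_⟩
  have h1 := ha.slope u hu w hw
  have h2 := hb.slope u hu w hw
  have e : (SC : ℂ) * ((f u - g u) - (f w - g w)) - (a.sub b).lin (u - w) =
      ((SC : ℂ) * (f u - f w) - a.lin (u - w)) - ((SC : ℂ) * (g u - g w) - b.lin (u - w)) := by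
    simp only [lin, SB.sub, GI.toC_sub]; ring
  rw [e]
  refine (norm_sub_le _ _).trans ?_
  simp only [SB.sub]
  push_cast
  linarith

theorem Encl.mul {X : Set V3} {a b : SB} {f g : V3 → ℂ} (ha : Encl X a f) (hb : Encl X b g) :
    Encl X (a.mul b) (fun u => f u * g u) := by
  refine ⟨fun u hu => (ha.mem u hu).mul (hb.mem u hu), fun u hu w hw => ?_⟩
  have h1 := ha.slope u hu w hw
  have h2 := hb.slope u hu w hw
  have mf := ha.mem w hw
  have mg := hb.mem u hu
  unfold CB.Mem at mf mg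
  set D := ‖u - w‖ with hD
  have hD0 : 0 ≤ D := norm_nonneg _
  set Ef := (SC : ℂ) * (f u - f w) - a.lin (u - w) with hEf
  set Eg := (SC : ℂ) * (g u - g w) - b.lin (u - w) with hEg
  set rg := (SC : ℂ) * g u - b.v.c.toC with hrg
  set rf := (SC : ℂ) * f w - a.v.c.toC with hrf
  have hS : (SC : ℂ) ≠ 0 := CB.SC_ne
  -- exact expression
  have e1 : (SC : ℂ) * (f u * g u - f w * g w) =
      (a.lin (u - w) * b.v.c.toC + a.v.c.toC * b.lin (u - w)) / SC
      + (a.lin (u - w) * rg + b.lin (u - w) * rf + Ef * ((SC : ℂ) * g u) + Eg * ((SC : ℂ) * f w)) / SC := by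
    rw [hEf, hEg, hrg, hrf]; field_simp; ring
  have q0a := GI.mulS_err a.g0 b.v.c
  have q1a := GI.mulS_err a.g1 b.v.c
  have q2a := GI.mulS_err a.g2 b.v.c
  have q0b := GI.mulS_err a.v.c b.g0
  have q1b := GI.mulS_err a.v.c b.g1
  have q2b := GI.mulS_err a.v.c b.g2
  have d0 := norm_le_pi_norm (u - w) 0
  have d1 := norm_le_pi_norm (u - w) 1
  have d2 := norm_le_pi_norm (u - w) 2
  have e2 : (a.lin (u - w) * b.v.c.toC + a.v.c.toC * b.lin (u - w)) / SC - (a.mul b).lin (u - w) =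
      ((a.g0.toC * b.v.c.toC / SC - (a.g0.mulS b.v.c).toC) + (a.v.c.toC * b.g0.toC / SC - (a.v.c.mulS b.g0).toC)) * (u - w) 0
      + ((a.g1.toC * b.v.c.toC / SC - (a.g1.mulS b.v.c).toC) + (a.v.c.toC * b.g1.toC / SC - (a.v.c.mulS b.g1).toC)) * (u - w) 1
      + ((a.g2.toC * b.v.c.toC / SC - (a.g2.mulS b.v.c).toC) + (a.v.c.toC * b.g2.toC / SC - (a.v.c.mulS b.g2).toC)) * (u - w) 2 := by
    simp only [lin, SB.mul, GI.toC_add]; field_simp; ring
  have bnd2 : ‖(a.lin (u - w) * b.v.c.toC + a.v.c.toC * b.lin (u - w)) / SC - (a.mul b).lin (u - w)‖ ≤ 12 * D := by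
    rw [e2]
    refine (norm_add₃_le).trans ?_
    have t0 : ‖((a.g0.toC * b.v.c.toC / SC - (a.g0.mulS b.v.c).toC) + (a.v.c.toC * b.g0.toC / SC - (a.v.c.mulS b.g0).toC)) * (u - w) 0‖ ≤ 4 * D := by
      rw [norm_mul]
      exact mul_le_mul ((norm_add_le _ _).trans (by linarith)) d0 (norm_nonneg _) (by norm_num)
    have t1 : ‖((a.g1.toC * b.v.c.toC / SC - (a.g1.mulS b.v.c).toC) + (a.v.c.toC * b.g1.toC / SC - (a.v.c.mulS b.g1).toC)) * (u - w) 1‖ ≤ 4 * D := by
      rw [norm_mul]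
      exact mul_le_mul ((norm_add_le _ _).trans (by linarith)) d1 (norm_nonneg _) (by norm_num)
    have t2 : ‖((a.g2.toC * b.v.c.toC / SC - (a.g2.mulS b.v.c).toC) + (a.v.c.toC * b.g2.toC / SC - (a.v.c.mulS b.g2).toC)) * (u - w) 2‖ ≤ 4 * D := by
      rw [norm_mul]
      exact mul_le_mul ((norm_add_le _ _).trans (by linarith)) d2 (norm_nonneg _) (by norm_num)
    linarith
  have lf := lin_le a (u - w)
  have lg := lin_le b (u - w)
  have ng : ‖(SC : ℂ) * g u‖ ≤ (b.v.c.n1 : ℝ) + b.v.r := by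
    have : (SC : ℂ) * g u = rg + b.v.c.toC := by rw [hrg]; ring
    rw [this]
    refine (norm_add_le _ _).trans ?_
    have := GI.norm_le b.v.c
    linarith
  have nf : ‖(SC : ℂ) * f w‖ ≤ (a.v.c.n1 : ℝ) + a.v.r := by
    have : (SC : ℂ) * f w = rf + a.v.c.toC := by rw [hrf]; ring
    rw [this]
    refine (norm_add_le _ _).trans ?_
    have := GI.norm_le a.v.c
    linarith
  have bnd1 : ‖a.lin (u - w) * rg + b.lin (u - w) * rf + Ef * ((SC : ℂ) * g u) + Eg * ((SC : ℂ) * f w)‖ ≤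
      ((a.gn * b.v.r + b.gn * a.v.r + a.e * (b.v.c.n1 + b.v.r) + b.e * (a.v.c.n1 + a.v.r) : ℕ) : ℝ) * D := by
    have t1 : ‖a.lin (u - w) * rg‖ ≤ ((a.gn : ℝ) * D) * b.v.r := by
      rw [norm_mul]; exact mul_le_mul lf mg (norm_nonneg _) (by positivity)
    have t2 : ‖b.lin (u - w) * rf‖ ≤ ((b.gn : ℝ) * D) * a.v.r := by
      rw [norm_mul]; exact mul_le_mul lg mf (norm_nonneg _) (by positivity)
    have t3 : ‖Ef * ((SC : ℂ) * g u)‖ ≤ ((a.e : ℝ) * D) * ((b.v.c.n1 : ℝ) + b.v.r) := by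
      rw [norm_mul]; exact mul_le_mul h1 ng (norm_nonneg _) (by positivity)
    have t4 : ‖Eg * ((SC : ℂ) * f w)‖ ≤ ((b.e : ℝ) * D) * ((a.v.c.n1 : ℝ) + a.v.r) := by
      rw [norm_mul]; exact mul_le_mul h2 nf (norm_nonneg _) (by positivity)
    have t5 := norm_add_le (a.lin (u - w) * rg + b.lin (u - w) * rf + Ef * ((SC : ℂ) * g u)) (Eg * ((SC : ℂ) * f w))
    have t6 := norm_add_le (a.lin (u - w) * rg + b.lin (u - w) * rf) (Ef * ((SC : ℂ) * g u))
    have t7 := norm_add_le (a.lin (u - w) * rg) (b.lin (u - w) * rf)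
    push_cast
    linarith
  have e3 : (SC : ℂ) * ((fun u => f u * g u) u - (fun u => f u * g u) w) - (a.mul b).lin (u - w) =
      ((a.lin (u - w) * b.v.c.toC + a.v.c.toC * b.lin (u - w)) / SC - (a.mul b).lin (u - w))
      + (a.lin (u - w) * rg + b.lin (u - w) * rf + Ef * ((SC : ℂ) * g u) + Eg * ((SC : ℂ) * f w)) / SC := by
    simp only []
    rw [e1]; ring
  rw [e3]
  refine (norm_add_le _ _).trans ?_
  set n := a.gn * b.v.r + b.gn * a.v.r + a.e * (b.v.c.n1 + b.v.r) + b.e * (a.v.c.n1 + a.v.r) with hn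
  have h5 := nshift_le n
  have bnd3 : ‖(a.lin (u - w) * rg + b.lin (u - w) * rf + Ef * ((SC : ℂ) * g u) + Eg * ((SC : ℂ) * f w)) / SC‖ ≤
      (((n >>> 128 : ℕ) : ℝ) + 1) * D := by
    rw [norm_div, CB.norm_SC, div_le_iff₀ GI.SCpos]
    refine bnd1.trans ?_
    have h6 : (n : ℝ) ≤ (((n >>> 128 : ℕ) : ℝ) + 1) * SC := by
      rwa [div_le_iff₀ GI.SCpos] at h5
    nlinarith [mul_le_mul_of_nonneg_right h6 hD0]
  have h7 : (((a.mul b).e : ℕ) : ℝ) = ((n >>> 128 : ℕ) : ℝ) + 13 := by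
    simp only [SB.mul, hn]; push_cast; ring
  rw [h7]
  linarith

/-- variables -/
def var (c : CB) (i : Fin 3) : SB :=
  ⟨c, if i = 0 then ⟨SC, 0⟩ else ⟨0, 0⟩, if i = 1 then ⟨SC, 0⟩ else ⟨0, 0⟩, if i = 2 then ⟨SC, 0⟩ else ⟨0, 0⟩, 0⟩

theorem toC_SC : GI.toC ⟨SC, 0⟩ = (SC : ℂ) := by
  apply Complex.ext <;> simp [GI.toC]

theorem encl_var {X : Set V3} {c : CB} (i : Fin 3) (h : ∀ u ∈ X, c.Mem (u i)) : Encl X (var c i) (fun u => u i) := by
  refine ⟨h, fun u _ w _ => ?_⟩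
  have : (SC : ℂ) * (u i - w i) - (var c i).lin (u - w) = 0 := by
    fin_cases i <;> simp [lin, var, toC_SC, toC_zero]
  simp only [this, norm_zero]
  positivity

end SB

end Helper46.DFJ

end

section

/-!
Existence of a zero of a system of three equations in three complex variables (simplified Newton iteration).
-/

namespace Helper46.DFJ

open SB

/-- complex number of a scaled Gaussian integer -/
noncomputable def GI.val (a : GI) : ℂ := a.toC / SC

theorem GI.SC_mul_val (a : GI) : (SC : ℂ) * a.val = a.toC := by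
  unfold GI.val
  rw [mul_div_assoc', mul_div_cancel_left₀ _ CB.SC_ne]

/-- the box around `c` of scaled radius `rho` -/
def box (c : Fin 3 → GI) (rho : ℕ) : Set V3 := {u | ‖u - (fun i => (c i).val)‖ ≤ (rho : ℝ) / SC}

theorem mem_box_CB {c : Fin 3 → GI} {rho : ℕ} {u : V3} (h : u ∈ box c rho) (i : Fin 3) :
    (CB.mk (c i) rho).Mem (u i) := by
  unfold CB.Mem
  have h1 : ‖u i - (c i).val‖ ≤ (rho : ℝ) / SC := (norm_le_pi_norm (u - (fun i => (c i).val)) i).trans h
  have h2 : (SC : ℂ) * u i - (c i).toC = (SC : ℂ) * (u i - (c i).val) := by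
    rw [mul_sub, GI.SC_mul_val]
  simp only [h2]
  rw [norm_mul, CB.norm_SC]
  rw [le_div_iff₀ GI.SCpos] at h1
  linarith

theorem center_mem_box (c : Fin 3 → GI) (rho : ℕ) : (fun i => (c i).val) ∈ box c rho := by
  unfold box
  simp only [Set.mem_ofPred_eq, sub_self, norm_zero]
  have := GI.SCpos
  positivity

/-- simplified Newton iteration: if `y i` approximates `u i` with small slope, there is a fixed point -/
theorem exists_fixed (c : Fin 3 → GI) (rho : ℕ) (y : Fin 3 → V3 → ℂ) (Y Y0 : Fin 3 → SB)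
    (hY : ∀ i, Encl (box c rho) (Y i) (y i))
    (hY0 : ∀ i, Encl (box c 0) (Y0 i) (y i))
    (h1 : ∀ i, ((((Y0 i).v.c.sub (c i)).n1 + (Y0 i).v.r) * SC + ((Y i).gn + (Y i).e) * rho) ≤ rho * SC)
    (h2 : ∀ i, 2 * ((Y i).gn + (Y i).e) ≤ SC) :
    ∃ u ∈ box c rho, ∀ i, y i u = u i := by
  classical
  set N : V3 → V3 := fun u i => y i u with hN
  set u0 : V3 := fun i => (c i).val with hu0
  have hslope : ∀ u ∈ box c rho, ∀ w ∈ box c rho, ∀ i, (SC : ℝ) * ‖N u i - N w i‖ ≤ (((Y i).gn + (Y i).e : ℕ) : ℝ) * ‖u - w‖ := by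
    intro u hu w hw i
    have a1 := (hY i).slope u hu w hw
    have a2 := lin_le (Y i) (u - w)
    have a3 : (SC : ℂ) * (N u i - N w i) = ((SC : ℂ) * (y i u - y i w) - (Y i).lin (u - w)) + (Y i).lin (u - w) := by
      simp only [hN]; ring
    have a4 : (SC : ℝ) * ‖N u i - N w i‖ = ‖(SC : ℂ) * (N u i - N w i)‖ := by
      rw [norm_mul, CB.norm_SC]
    rw [a4, a3]
    refine (norm_add_le _ _).trans ?_
    push_cast
    linarith
  have hmaps : Set.MapsTo N (box c rho) (box c rho) := by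
    intro u hu
    unfold box
    simp only [Set.mem_ofPred_eq]
    rw [pi_norm_le_iff_of_nonneg (by have := GI.SCpos; positivity)]
    intro i
    have hu0 : u0 ∈ box c rho := center_mem_box c rho
    have b1 := hslope u hu u0 hu0 i
    have hu' : ‖u - u0‖ ≤ (rho : ℝ) / SC := hu
    have b2 := (hY0 i).mem u0 (center_mem_box c 0)
    unfold CB.Mem at b2
    have b3 : (SC : ℝ) * ‖N u0 i - u0 i‖ ≤ ((((Y0 i).v.c.sub (c i)).n1 + (Y0 i).v.r : ℕ) : ℝ) := by
      have : (SC : ℂ) * (N u0 i - u0 i) = ((SC : ℂ) * y i u0 - (Y0 i).v.c.toC) + ((Y0 i).v.c.sub (c i)).toC := by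
        rw [GI.toC_sub, mul_sub]
        have : (SC : ℂ) * u0 i = (c i).toC := GI.SC_mul_val _
        rw [this]; ring
      have h4 : (SC : ℝ) * ‖N u0 i - u0 i‖ = ‖(SC : ℂ) * (N u0 i - u0 i)‖ := by
        rw [norm_mul, CB.norm_SC]
      rw [h4, this]
      refine (norm_add_le _ _).trans ?_
      have := GI.norm_le ((Y0 i).v.c.sub (c i))
      push_cast
      linarith
    have b4 : ‖(N u - u0) i‖ ≤ ‖N u i - N u0 i‖ + ‖N u0 i - u0 i‖ := by
      have : (N u - u0) i = (N u i - N u0 i) + (N u0 i - u0 i) := by simp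
      rw [this]; exact norm_add_le _ _
    have b5 : (((Y i).gn + (Y i).e : ℕ) : ℝ) * ‖u - u0‖ * SC ≤ (((Y i).gn + (Y i).e : ℕ) : ℝ) * rho := by
      have : ‖u - u0‖ * SC ≤ rho := by rwa [le_div_iff₀ GI.SCpos] at hu'
      have h0 : (0 : ℝ) ≤ (((Y i).gn + (Y i).e : ℕ) : ℝ) := by positivity
      nlinarith
    have b6 : (((((Y0 i).v.c.sub (c i)).n1 + (Y0 i).v.r) * SC + ((Y i).gn + (Y i).e) * rho : ℕ) : ℝ) ≤ ((rho * SC : ℕ) : ℝ) := by
      exact_mod_cast h1 i
    push_cast at b1 b3 b5 b6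
    rw [le_div_iff₀ GI.SCpos]
    have hS := GI.SCpos
    have b7 : ‖(N u - u0) i‖ * SC ≤ (((Y i).gn : ℝ) + (Y i).e) * ‖u - u0‖ + (((((Y0 i).v.c.sub (c i)).n1 : ℝ) + (Y0 i).v.r)) := by
      nlinarith
    have b8 : ‖(N u - u0) i‖ * SC * SC ≤ (rho * SC : ℝ) := by nlinarith
    have : ‖(N u - u0) i‖ * SC ≤ rho := by
      by_contra hcon
      push Not at hcon
      nlinarith
    exact this
  have hclosed : IsClosed (box c rho) := by
    have : box c rho = Metric.closedBall u0 ((rho : ℝ) / SC) := by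
      ext u; simp [box, hu0, dist_eq_norm]
    rw [this]; exact Metric.isClosed_closedBall
  have hcomplete : IsComplete (box c rho) := hclosed.isComplete
  have hcontr : ContractingWith (1 / 2 : NNReal) (hmaps.restrict N (box c rho) (box c rho)) := by
    refine ⟨by rw [← NNReal.coe_lt_coe]; norm_num, ?_⟩
    refine LipschitzWith.of_dist_le_mul ?_
    rintro ⟨u, hu⟩ ⟨w, hw⟩
    rw [Subtype.dist_eq, Subtype.dist_eq]
    simp only [Set.MapsTo.val_restrict_apply]
    rw [dist_eq_norm, dist_eq_norm]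
    have h0 : (0 : ℝ) ≤ ((1 / 2 : NNReal) : ℝ) * ‖u - w‖ := by positivity
    rw [pi_norm_le_iff_of_nonneg h0]
    intro i
    have b1 := hslope u hu w hw i
    have b2 : (2 * ((Y i).gn + (Y i).e) : ℝ) ≤ SC := by exact_mod_cast h2 i
    push_cast at b1 ⊢
    have hS := GI.SCpos
    have h3 : (SC : ℝ) * ‖N u i - N w i‖ ≤ SC * (1 / 2 * ‖u - w‖) := by
      nlinarith [norm_nonneg (u - w)]
    have := le_of_mul_le_mul_left h3 hS
    simpa using this
  obtain ⟨u, hu, hfix, -⟩ := ContractingWith.exists_fixedPoint' hcomplete hmaps hcontr (center_mem_box c rho) (edist_ne_top _ _)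
  exact ⟨u, hu, fun i => congrFun hfix i⟩

end Helper46.DFJ

end

section

/-!
Two by two matrices of balls and of slope balls, words.
-/

namespace Helper46.DFJ

open SB

/-- 2x2 matrices as plain quadruples -/
structure M4 (α : Type) where
  a : α
  b : α
  c : α
  d : α
deriving DecidableEq

abbrev MatC := Matrix (Fin 2) (Fin 2) ℂ

def CBM.Mem (A : M4 CB) (M : MatC) : Prop :=
  A.a.Mem (M 0 0) ∧ A.b.Mem (M 0 1) ∧ A.c.Mem (M 1 0) ∧ A.d.Mem (M 1 1)

def CBM.mul (A B : M4 CB) : M4 CB :=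
  ⟨(A.a.mul B.a).add (A.b.mul B.c), (A.a.mul B.b).add (A.b.mul B.d),
   (A.c.mul B.a).add (A.d.mul B.c), (A.c.mul B.b).add (A.d.mul B.d)⟩

def CBM.one : M4 CB := ⟨CB.ofInt 1, CB.ofInt 0, CB.ofInt 0, CB.ofInt 1⟩

theorem CBM.mem_one : CBM.Mem CBM.one 1 := by
  refine ⟨?_, ?_, ?_, ?_⟩
  · simpa [CBM.one] using CB.mem_ofInt 1
  · simpa [CBM.one] using CB.mem_ofInt 0
  · simpa [CBM.one] using CB.mem_ofInt 0
  · simpa [CBM.one] using CB.mem_ofInt 1

theorem CBM.Mem.mul {A B : M4 CB} {M N : MatC} (hA : CBM.Mem A M) (hB : CBM.Mem B N) :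
    CBM.Mem (CBM.mul A B) (M * N) := by
  obtain ⟨a1, a2, a3, a4⟩ := hA
  obtain ⟨b1, b2, b3, b4⟩ := hB
  refine ⟨?_, ?_, ?_, ?_⟩
  · rw [Matrix.mul_apply, Fin.sum_univ_two]; exact (a1.mul b1).add (a2.mul b3)
  · rw [Matrix.mul_apply, Fin.sum_univ_two]; exact (a1.mul b2).add (a2.mul b4)
  · rw [Matrix.mul_apply, Fin.sum_univ_two]; exact (a3.mul b1).add (a4.mul b3)
  · rw [Matrix.mul_apply, Fin.sum_univ_two]; exact (a3.mul b2).add (a4.mul b4)

/-- product of a word in an alphabet indexed by naturals -/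
def CBM.word (g : ℕ → M4 CB) : List ℕ → M4 CB
  | [] => CBM.one
  | [i] => g i
  | i :: j :: w => CBM.mul (g i) (CBM.word g (j :: w))

noncomputable def wordM (G : ℕ → MatC) (w : List ℕ) : MatC := (w.map G).prod

theorem CBM.mem_word {g : ℕ → M4 CB} {G : ℕ → MatC} (h : ∀ i, CBM.Mem (g i) (G i)) (w : List ℕ) :
    CBM.Mem (CBM.word g w) (wordM G w) := by
  induction w with
  | nil => simpa [wordM, CBM.word] using CBM.mem_one
  | cons i w ih =>
    cases w with
    | nil => simpa [wordM, CBM.word] using h i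
    | cons j w =>
      have e : wordM G (i :: j :: w) = G i * wordM G (j :: w) := by simp [wordM]
      rw [e]
      exact (h i).mul ih

/-- slope matrices -/
structure SBM.Encl (X : Set V3) (A : M4 SB) (F : V3 → MatC) : Prop where
  h00 : SB.Encl X A.a (fun u => F u 0 0)
  h01 : SB.Encl X A.b (fun u => F u 0 1)
  h10 : SB.Encl X A.c (fun u => F u 1 0)
  h11 : SB.Encl X A.d (fun u => F u 1 1)

def SBM.mul (A B : M4 SB) : M4 SB :=
  ⟨(A.a.mul B.a).add (A.b.mul B.c), (A.a.mul B.b).add (A.b.mul B.d),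
   (A.c.mul B.a).add (A.d.mul B.c), (A.c.mul B.b).add (A.d.mul B.d)⟩

def SBM.one : M4 SB := ⟨SB.const (CB.ofInt 1), SB.const (CB.ofInt 0), SB.const (CB.ofInt 0), SB.const (CB.ofInt 1)⟩

theorem SBM.encl_one {X : Set V3} : SBM.Encl X SBM.one (fun _ => 1) := by
  refine ⟨?_, ?_, ?_, ?_⟩
  · have := @SB.encl_const X _ _ (CB.mem_ofInt 1); simpa [SBM.one] using this
  · have := @SB.encl_const X _ _ (CB.mem_ofInt 0); simpa [SBM.one] using this
  · have := @SB.encl_const X _ _ (CB.mem_ofInt 0); simpa [SBM.one] using this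
  · have := @SB.encl_const X _ _ (CB.mem_ofInt 1); simpa [SBM.one] using this

theorem SBM.Encl.mul {X : Set V3} {A B : M4 SB} {M N : V3 → MatC} (hA : SBM.Encl X A M) (hB : SBM.Encl X B N) :
    SBM.Encl X (SBM.mul A B) (fun u => M u * N u) := by
  refine ⟨?_, ?_, ?_, ?_⟩
  · simp only [Matrix.mul_apply, Fin.sum_univ_two]; exact (hA.h00.mul hB.h00).add (hA.h01.mul hB.h10)
  · simp only [Matrix.mul_apply, Fin.sum_univ_two]; exact (hA.h00.mul hB.h01).add (hA.h01.mul hB.h11)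
  · simp only [Matrix.mul_apply, Fin.sum_univ_two]; exact (hA.h10.mul hB.h00).add (hA.h11.mul hB.h10)
  · simp only [Matrix.mul_apply, Fin.sum_univ_two]; exact (hA.h10.mul hB.h01).add (hA.h11.mul hB.h11)

def SBM.word (g : ℕ → M4 SB) : List ℕ → M4 SB
  | [] => SBM.one
  | [i] => g i
  | i :: j :: w => SBM.mul (g i) (SBM.word g (j :: w))

theorem SBM.encl_word {X : Set V3} {g : ℕ → M4 SB} {G : V3 → ℕ → MatC} (h : ∀ i, SBM.Encl X (g i) (fun u => G u i)) (w : List ℕ) :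
    SBM.Encl X (SBM.word g w) (fun u => wordM (G u) w) := by
  induction w with
  | nil => simpa [wordM, SBM.word] using SBM.encl_one
  | cons i w ih =>
    cases w with
    | nil => simpa [wordM, SBM.word] using h i
    | cons j w =>
      have e : (fun u => wordM (G u) (i :: j :: w)) = fun u => G u i * wordM (G u) (j :: w) := by
        funext u; simp [wordM]
      rw [e]
      exact (h i).mul ih

end Helper46.DFJ

end

section

/-!
The concrete system for the example: unknowns T (translation length of the meridian), p, q (fixed points of c).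
-/

namespace Helper46.DFJ

open SB Complex

/-- letters: 0 = t, 1 = t inverse, 2 = b, 3 = b inverse, 4 = (p-q) c, 5 = (p-q) c inverse -/
noncomputable def gensM (u : V3) : ℕ → MatC
  | 0 => !![1, u 0; 0, 1]
  | 1 => !![1, -u 0; 0, 1]
  | 2 => !![0, -1; 1, -1]
  | 3 => !![-1, 1; -1, 0]
  | 4 => !![I * u 1 - u 2, (1 - I) * (u 1 * u 2); I - 1, u 1 - I * u 2]
  | 5 => !![-(I * u 1) - u 2, (I + 1) * (u 1 * u 2); -1 - I, u 1 + I * u 2]
  | _ => 1

def cI : CB := CB.ofGI ⟨0, 1⟩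
def cc (n : ℤ) : CB := CB.ofInt n

theorem mem_cI : cI.Mem I := by
  have := CB.mem_ofGI ⟨0, 1⟩
  have e : GI.toC ⟨0, 1⟩ = I := by
    apply Complex.ext <;> simp [GI.toC]
  rwa [e] at this

/-- slope balls of the letters, given the balls of the variables -/
def gensS (x0 x1 x2 : SB) : ℕ → M4 SB
  | 0 => ⟨const (cc 1), x0, const (cc 0), const (cc 1)⟩
  | 1 => ⟨const (cc 1), x0.neg, const (cc 0), const (cc 1)⟩
  | 2 => ⟨const (cc 0), const (cc (-1)), const (cc 1), const (cc (-1))⟩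
  | 3 => ⟨const (cc (-1)), const (cc 1), const (cc (-1)), const (cc 0)⟩
  | 4 => ⟨((const cI).mul x1).sub x2, (const ((cc 1).sub cI)).mul (x1.mul x2), const (cI.sub (cc 1)), x1.sub ((const cI).mul x2)⟩
  | 5 => ⟨((const cI).mul x1).neg.sub x2, (const (cI.add (cc 1))).mul (x1.mul x2), const ((cc (-1)).sub cI), x1.add ((const cI).mul x2)⟩
  | _ => SBM.one

theorem encl_gens {X : Set V3} {x0 x1 x2 : SB} (h0 : Encl X x0 (fun u => u 0)) (h1 : Encl X x1 (fun u => u 1))
    (h2 : Encl X x2 (fun u => u 2)) : ∀ i, SBM.Encl X (gensS x0 x1 x2 i) (fun u => gensM u i) := by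
  have m0 : (cc 0).Mem 0 := by simpa [cc] using CB.mem_ofInt 0
  have m1 : (cc 1).Mem 1 := by simpa [cc] using CB.mem_ofInt 1
  have mm1 : (cc (-1)).Mem (-1) := by simpa [cc] using CB.mem_ofInt (-1)
  have c0 : Encl X (const (cc 0)) (fun _ => (0 : ℂ)) := encl_const m0
  have c1 : Encl X (const (cc 1)) (fun _ => (1 : ℂ)) := encl_const m1
  have cm1 : Encl X (const (cc (-1))) (fun _ => (-1 : ℂ)) := encl_const mm1
  have cIe : Encl X (const cI) (fun _ => I) := @encl_const X _ _ mem_cI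
  intro i
  match i with
  | 0 => exact ⟨by simpa [gensM, gensS] using c1, by simpa [gensM, gensS] using h0, by simpa [gensM, gensS] using c0, by simpa [gensM, gensS] using c1⟩
  | 1 => exact ⟨by simpa [gensM, gensS] using c1, by simpa [gensM, gensS] using h0.neg, by simpa [gensM, gensS] using c0, by simpa [gensM, gensS] using c1⟩
  | 2 => exact ⟨by simpa [gensM, gensS] using c0, by simpa [gensM, gensS] using cm1, by simpa [gensM, gensS] using c1, by simpa [gensM, gensS] using cm1⟩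
  | 3 => exact ⟨by simpa [gensM, gensS] using cm1, by simpa [gensM, gensS] using c1, by simpa [gensM, gensS] using cm1, by simpa [gensM, gensS] using c0⟩
  | 4 =>
    refine ⟨?_, ?_, ?_, ?_⟩
    · simpa [gensM, gensS] using (cIe.mul h1).sub h2
    · simpa [gensM, gensS] using (@encl_const X _ _ (m1.sub mem_cI)).mul (h1.mul h2)
    · simpa [gensM, gensS] using @encl_const X _ _ (mem_cI.sub m1)
    · simpa [gensM, gensS] using h1.sub (cIe.mul h2)
  | 5 =>
    refine ⟨?_, ?_, ?_, ?_⟩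
    · simpa [gensM, gensS] using (cIe.mul h1).neg.sub h2
    · simpa [gensM, gensS] using (@encl_const X _ _ (mem_cI.add m1)).mul (h1.mul h2)
    · simpa [gensM, gensS] using @encl_const X _ _ (mm1.sub mem_cI)
    · simpa [gensM, gensS] using h1.add (cIe.mul h2)
  | n + 6 => exact SBM.encl_one

/-- W = (tb)^-2 b (tb)^2 -/
def wW : List ℕ := [3, 1, 3, 1, 2, 0, 2, 0, 2]
def wWi : List ℕ := [3, 1, 3, 1, 3, 0, 2, 0, 2]
/-- c t^-1 c t c^-1 -/
def wX : List ℕ := [4, 1, 4, 0, 5]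
/-- W c W^-1 c c^-1 -/
def wY : List ℕ := wW ++ [4] ++ wWi ++ [4, 5]
/-- the longitude -/
def wP : List ℕ := [1, 2, 0, 2, 0, 2, 5, 3, 1, 3, 1, 3, 0, 2, 0, 2, 4, 3, 1, 4]

/-- the three equations -/
noncomputable def eqF (u : V3) : Fin 3 → ℂ :=
  ![wordM (gensM u) wX 1 0 - wordM (gensM u) wY 1 0, wordM (gensM u) wX 0 0 - wordM (gensM u) wY 0 0, wordM (gensM u) wP 1 0]

def cen : Fin 3 → GI := ![⟨736274200433466481601946308789771689344, -203188621979967773653276844133533203103⟩, ⟨1037232025497560733199653605298176502061, 346473909353674984563679646840595752330⟩, ⟨612871343545815256052001502554551392597, 407973657745612054286058257855235400771⟩]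
def Adat : Fin 3 → Fin 3 → GI := ![![⟨-11385294248656809163122492265005534968, -29287988777106296638313103728477211988⟩, ⟨9216734524888933146787168310636074955, 11573824635094963261819244918677020914⟩, ⟨-87810315140149833327802197778716542, 9521079330268827510806043128034180397⟩],
  ![⟨-98017310551834835704984215074303460429, 50981058637899264520985287441565167399⟩, ⟨33432333925594366251494917183222625047, -38782813076728797505583955726062987780⟩, ⟨44533749548760266706777195615386085908, -8582060659275049941300357223819610047⟩],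
  ![⟨-71312522274830920452204893779206605111, 8860358032411982890267281412598397110⟩, ⟨31478204385191268817794417215722691119, -14424054996516987533344114875182495253⟩, ⟨21365534354028862511984465072876363301, -6337748574043679599665262332330730753⟩]]

/-- slope balls of the three equations -/
def eqS (r : ℕ) : Fin 3 → SB :=
  let g := gensS (var ⟨cen 0, r⟩ 0) (var ⟨cen 1, r⟩ 1) (var ⟨cen 2, r⟩ 2)
  let X := SBM.word g wX
  let Y := SBM.word g wY
  let P := SBM.word g wP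
  ![X.c.sub Y.c, X.a.sub Y.a, P.c]

theorem encl_eq (r : ℕ) (i : Fin 3) : Encl (box cen r) (eqS r i) (fun u => eqF u i) := by
  have hg := @encl_gens (box cen r) _ _ _ (encl_var 0 (fun u hu => mem_box_CB hu 0))
    (encl_var 1 (fun u hu => mem_box_CB hu 1)) (encl_var 2 (fun u hu => mem_box_CB hu 2))
  have hX := SBM.encl_word hg wX
  have hY := SBM.encl_word hg wY
  have hP := SBM.encl_word hg wP
  fin_cases i
  · exact hX.h10.sub hY.h10
  · exact hX.h00.sub hY.h00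
  · exact hP.h10

/-- Newton map -/
noncomputable def newt (i : Fin 3) (u : V3) : ℂ :=
  u i - ((Adat i 0).val * eqF u 0 + (Adat i 1).val * eqF u 1 + (Adat i 2).val * eqF u 2)

def newtS (F : Fin 3 → SB) (r : ℕ) (i : Fin 3) : SB :=
  (var ⟨cen i, r⟩ i).sub (((const ⟨Adat i 0, 0⟩).mul (F 0)).add ((const ⟨Adat i 1, 0⟩).mul (F 1)) |>.add ((const ⟨Adat i 2, 0⟩).mul (F 2)))

theorem mem_val (a : GI) : (CB.mk a 0).Mem a.val := by
  unfold CB.Mem
  simp [GI.SC_mul_val]

theorem encl_newt (r : ℕ) (i : Fin 3) : Encl (box cen r) (newtS (eqS r) r i) (newt i) := by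
  unfold newtS newt
  exact (encl_var i (fun u hu => mem_box_CB hu i)).sub
    ((((encl_const (mem_val _)).mul (encl_eq r 0)).add ((encl_const (mem_val _)).mul (encl_eq r 1))).add ((encl_const (mem_val _)).mul (encl_eq r 2)))

/-- the radius of the box -/
def rho : ℕ := 17592186044416

def chk1 (i : Fin 3) (Y Y0 : SB) : Bool :=
  decide (((((Y0.v.c.sub (cen i)).n1 + Y0.v.r) * SC + (Y.gn + Y.e) * rho) ≤ rho * SC) ∧ (2 * (Y.gn + Y.e) ≤ SC))

def checkAll : Bool :=
  let F := eqS rho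
  let F0 := eqS 0
  chk1 0 (newtS F rho 0) (newtS F0 0 0) && chk1 1 (newtS F rho 1) (newtS F0 0 1) && chk1 2 (newtS F rho 2) (newtS F0 0 2)

set_option maxRecDepth 100000 in
theorem checkAll_true : checkAll = true := by decide +kernel

theorem chk1_all (i : Fin 3) : chk1 i (newtS (eqS rho) rho i) (newtS (eqS 0) 0 i) = true := by
  have hc := checkAll_true
  unfold checkAll at hc
  simp only [Bool.and_eq_true] at hc
  obtain ⟨⟨c0, c1⟩, c2⟩ := hc
  match i with
  | 0 => exact c0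
  | 1 => exact c1
  | 2 => exact c2

theorem exists_fix : ∃ u ∈ box cen rho, ∀ i, newt i u = u i := by
  refine exists_fixed cen rho (newt) (newtS (eqS rho) rho) (newtS (eqS 0) 0)
    (encl_newt rho) (encl_newt 0) ?_ ?_
  · intro i
    have h := chk1_all i
    unfold chk1 at h
    rw [decide_eq_true_eq] at h
    exact h.1
  · intro i
    have h := chk1_all i
    unfold chk1 at h
    rw [decide_eq_true_eq] at h
    exact h.2

def m3 (a b c : GI) : GI := (a.mul b).mul c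

def detA : GI :=
  (((((m3 (Adat 0 0) (Adat 1 1) (Adat 2 2)).sub (m3 (Adat 0 0) (Adat 1 2) (Adat 2 1))).sub
    (m3 (Adat 0 1) (Adat 1 0) (Adat 2 2))).add (m3 (Adat 0 1) (Adat 1 2) (Adat 2 0))).add
    (m3 (Adat 0 2) (Adat 1 0) (Adat 2 1))).sub (m3 (Adat 0 2) (Adat 1 1) (Adat 2 0))

theorem toC_eq_zero {a : GI} (h : a.toC = 0) : a = ⟨0, 0⟩ := by
  have h1 := congrArg Complex.re h
  have h2 := congrArg Complex.im h
  simp only [GI.toC, zero_re, zero_im] at h1 h2
  cases a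
  simp only [GI.mk.injEq]
  exact ⟨by exact_mod_cast h1, by exact_mod_cast h2⟩

theorem detA_ne : (Matrix.of fun i j => (Adat i j).toC).det ≠ 0 := by
  intro h
  rw [Matrix.det_fin_three] at h
  simp only [Matrix.of_apply] at h
  have h1 : detA.toC = 0 := by
    rw [← h]
    unfold detA m3
    simp only [GI.toC_add, GI.toC_sub, GI.toC_mul]
  have h2 := toC_eq_zero h1
  have h3 : detA ≠ ⟨0, 0⟩ := by decide +kernel
  exact h3 h2

theorem exists_zero : ∃ u ∈ box cen rho, ∀ i, eqF u i = 0 := by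
  obtain ⟨u, hu, hf⟩ := exists_fix
  refine ⟨u, hu, ?_⟩
  have h1 : (Matrix.of fun i j => (Adat i j).toC).mulVec (eqF u) = 0 := by
    funext i
    have := hf i
    unfold newt at this
    have h2 : (Adat i 0).val * eqF u 0 + (Adat i 1).val * eqF u 1 + (Adat i 2).val * eqF u 2 = 0 := by
      have h3 : u i - ((Adat i 0).val * eqF u 0 + (Adat i 1).val * eqF u 1 + (Adat i 2).val * eqF u 2) = u i := this
      linear_combination -h3
    simp only [Matrix.mulVec, dotProduct, Fin.sum_univ_three, Matrix.of_apply, Pi.zero_apply]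
    rw [← GI.SC_mul_val, ← GI.SC_mul_val, ← GI.SC_mul_val]
    linear_combination (SC : ℂ) * h2
  intro i
  exact congrFun (Matrix.eq_zero_of_mulVec_eq_zero detA_ne h1) i

end Helper46.DFJ

end

section

/-!
From the exact zero to the representation: elements b, c, t of GL(2,C) with b^3 = 1, c^4 = 1 and the two relations.
-/

namespace Helper46.DFJ

open SB Complex

abbrev GLC := GL (Fin 2) ℂ

/-- normalised matrices -/
noncomputable def nM (u : V3) : ℕ → MatC
  | 4 => (u 1 - u 2)⁻¹ • gensM u 4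
  | 5 => (u 1 - u 2)⁻¹ • gensM u 5
  | n => gensM u n

def cnt : List ℕ → ℕ
  | [] => 0
  | 4 :: w => cnt w + 1
  | 5 :: w => cnt w + 1
  | _ :: w => cnt w

theorem wordM_cons (G : ℕ → MatC) (i : ℕ) (w : List ℕ) : wordM G (i :: w) = G i * wordM G w := by
  simp [wordM]

theorem gens_eq (u : V3) (h : u 1 - u 2 ≠ 0) (w : List ℕ) :
    wordM (gensM u) w = (u 1 - u 2) ^ (cnt w) • wordM (nM u) w := by
  induction w with
  | nil => simp [wordM, cnt]
  | cons i w ih =>
    rw [wordM_cons, wordM_cons, ih]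
    match i with
    | 0 => simp [cnt, nM]
    | 1 => simp [cnt, nM]
    | 2 => simp [cnt, nM]
    | 3 => simp [cnt, nM]
    | 4 =>
      simp only [cnt, nM]
      rw [Matrix.smul_mul, Matrix.mul_smul, smul_smul, pow_succ, mul_assoc, mul_inv_cancel₀ h, mul_one]
    | 5 =>
      simp only [cnt, nM]
      rw [Matrix.smul_mul, Matrix.mul_smul, smul_smul, pow_succ, mul_assoc, mul_inv_cancel₀ h, mul_one]
    | n + 6 => simp [cnt, nM]

theorem n01 (u : V3) : nM u 0 * nM u 1 = 1 := by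
  ext i j; fin_cases i <;> fin_cases j <;> simp [nM, gensM, Matrix.mul_apply, Fin.sum_univ_two]

theorem n10 (u : V3) : nM u 1 * nM u 0 = 1 := by
  ext i j; fin_cases i <;> fin_cases j <;> simp [nM, gensM, Matrix.mul_apply, Fin.sum_univ_two]

theorem n23 (u : V3) : nM u 2 * nM u 3 = 1 := by
  ext i j; fin_cases i <;> fin_cases j <;> simp [nM, gensM, Matrix.mul_apply, Fin.sum_univ_two]

theorem n32 (u : V3) : nM u 3 * nM u 2 = 1 := by
  ext i j; fin_cases i <;> fin_cases j <;> simp [nM, gensM, Matrix.mul_apply, Fin.sum_univ_two]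

theorem g45 (u : V3) : gensM u 4 * gensM u 5 = (u 1 - u 2) ^ 2 • (1 : MatC) := by
  ext i j
  fin_cases i <;> fin_cases j <;> simp [gensM, Matrix.mul_apply, Fin.sum_univ_two] <;> ring_nf <;> simp only [I_sq] <;> ring

theorem g54 (u : V3) : gensM u 5 * gensM u 4 = (u 1 - u 2) ^ 2 • (1 : MatC) := by
  ext i j
  fin_cases i <;> fin_cases j <;> simp [gensM, Matrix.mul_apply, Fin.sum_univ_two] <;> ring_nf <;> simp only [I_sq] <;> ring

theorem n45 (u : V3) (h : u 1 - u 2 ≠ 0) : nM u 4 * nM u 5 = 1 := by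
  simp only [nM]
  rw [Matrix.smul_mul, Matrix.mul_smul, g45, smul_smul, smul_smul]
  have : (u 1 - u 2)⁻¹ * (u 1 - u 2)⁻¹ * (u 1 - u 2) ^ 2 = 1 := by field_simp
  rw [this, one_smul]

theorem n54 (u : V3) (h : u 1 - u 2 ≠ 0) : nM u 5 * nM u 4 = 1 := by
  simp only [nM]
  rw [Matrix.smul_mul, Matrix.mul_smul, g54, smul_smul, smul_smul]
  have : (u 1 - u 2)⁻¹ * (u 1 - u 2)⁻¹ * (u 1 - u 2) ^ 2 = 1 := by field_simp
  rw [this, one_smul]

/-- group elements -/
noncomputable def tG (u : V3) : GLC := ⟨nM u 0, nM u 1, n01 u, n10 u⟩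
noncomputable def bG (u : V3) : GLC := ⟨nM u 2, nM u 3, n23 u, n32 u⟩
noncomputable def cG (u : V3) (h : u 1 - u 2 ≠ 0) : GLC := ⟨nM u 4, nM u 5, n45 u h, n54 u h⟩

theorem bG_pow (u : V3) : bG u ^ 3 = 1 := by
  apply Units.ext
  simp only [Units.val_pow_eq_pow_val, Units.val_one, bG]
  ext i j
  fin_cases i <;> fin_cases j <;> simp [nM, gensM, pow_succ, Matrix.mul_apply, Fin.sum_univ_two]

theorem gens4_sq (u : V3) :
    gensM u 4 * gensM u 4 = ((I + 1) * (u 1 - u 2)) • gensM u 4 - (I * (u 1 - u 2) ^ 2) • (1 : MatC) := by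
  ext i j
  fin_cases i <;> fin_cases j <;> simp [gensM, Matrix.mul_apply, Fin.sum_univ_two] <;> ring_nf

theorem gens4_pow (u : V3) : gensM u 4 ^ 4 = (u 1 - u 2) ^ 4 • (1 : MatC) := by
  set M := gensM u 4 with hM
  set k := u 1 - u 2 with hk
  have e2 : M * M = ((I + 1) * k) • M - (I * k ^ 2) • (1 : MatC) := gens4_sq u
  have e4 : M ^ 4 = (M * M) * (M * M) := by simp [pow_succ, mul_assoc]
  rw [e4, e2]
  have e5 : (((I + 1) * k) • M - (I * k ^ 2) • (1 : MatC)) * (((I + 1) * k) • M - (I * k ^ 2) • (1 : MatC)) =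
      (((I + 1) * k) ^ 2) • (M * M) - (2 * (((I + 1) * k) * (I * k ^ 2))) • M + ((I * k ^ 2) ^ 2) • (1 : MatC) := by
    simp only [sub_mul, mul_sub, Matrix.smul_mul, Matrix.mul_smul, one_mul, mul_one, smul_smul, two_mul, add_smul, pow_two]
    rw [mul_comm (I * (k * k)) ((I + 1) * k)]
    abel
  rw [e5, e2, smul_sub, smul_smul, smul_smul]
  have a1 : ((I + 1) * k) ^ 2 * ((I + 1) * k) = 2 * (((I + 1) * k) * (I * k ^ 2)) := by
    have : (I + 1) ^ 2 = 2 * I := by ring_nf; simp only [I_sq]; ring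
    calc ((I + 1) * k) ^ 2 * ((I + 1) * k) = (I + 1) ^ 2 * (k ^ 3 * (I + 1)) := by ring
      _ = _ := by rw [this]; ring
  have a2 : (I * k ^ 2) ^ 2 - ((I + 1) * k) ^ 2 * (I * k ^ 2) = k ^ 4 := by
    have : (I + 1) ^ 2 = 2 * I := by ring_nf; simp only [I_sq]; ring
    calc (I * k ^ 2) ^ 2 - ((I + 1) * k) ^ 2 * (I * k ^ 2) = I ^ 2 * k ^ 4 - (I + 1) ^ 2 * (I * k ^ 4) := by ring
      _ = k ^ 4 := by rw [this]; linear_combination (-k ^ 4) * I_sq
  rw [a1, ← a2, sub_smul]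
  abel

theorem cG_pow (u : V3) (h : u 1 - u 2 ≠ 0) : cG u h ^ 4 = 1 := by
  apply Units.ext
  simp only [Units.val_pow_eq_pow_val, Units.val_one, cG, nM]
  rw [smul_pow, gens4_pow, smul_smul]
  have : (u 1 - u 2)⁻¹ ^ 4 * (u 1 - u 2) ^ 4 = 1 := by field_simp
  rw [this, one_smul]

/-- value of a word in the group -/
noncomputable def gW (u : V3) (h : u 1 - u 2 ≠ 0) : List ℕ → GLC
  | [] => 1
  | 0 :: w => tG u * gW u h w
  | 1 :: w => (tG u)⁻¹ * gW u h w
  | 2 :: w => bG u * gW u h w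
  | 3 :: w => (bG u)⁻¹ * gW u h w
  | 4 :: w => cG u h * gW u h w
  | 5 :: w => (cG u h)⁻¹ * gW u h w
  | _ :: w => gW u h w

theorem gW_val (u : V3) (h : u 1 - u 2 ≠ 0) (w : List ℕ) : ((gW u h w : GLC) : MatC) = wordM (nM u) w := by
  induction w with
  | nil => simp [gW, wordM]
  | cons i w ih =>
    rw [wordM_cons, ← ih]
    match i with
    | 0 => rfl
    | 1 => rfl
    | 2 => rfl
    | 3 => rfl
    | 4 => rfl
    | 5 => rfl
    | n + 6 => simp [gW, nM, gensM]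

theorem smul_gW (u : V3) (h : u 1 - u 2 ≠ 0) (w : List ℕ) :
    wordM (gensM u) w = (u 1 - u 2) ^ (cnt w) • ((gW u h w : GLC) : MatC) := by
  rw [gW_val, gens_eq u h]

/-- two matrices with the same trace, determinant and first column are equal -/
theorem mat_eq {X Y : MatC} (h0 : X 0 0 = Y 0 0) (h1 : X 1 0 = Y 1 0) (ht : X.trace = Y.trace)
    (hd : X.det = Y.det) (hne : X 1 0 ≠ 0) : X = Y := by
  rw [Matrix.trace_fin_two, Matrix.trace_fin_two] at ht
  have h2 : X 1 1 = Y 1 1 := by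
    rw [h0] at ht; exact add_left_cancel ht
  rw [Matrix.det_fin_two, Matrix.det_fin_two, h0, h2, ← h1] at hd
  have h3 : X 0 1 = Y 0 1 := by
    have : (X 0 1 - Y 0 1) * X 1 0 = 0 := by linear_combination -hd
    rcases mul_eq_zero.1 this with h | h
    · exact sub_eq_zero.1 h
    · exact absurd h hne
  ext i j
  fin_cases i <;> fin_cases j
  · exact h0
  · exact h3
  · exact h1
  · exact h2

theorem trace_conj (g x : GLC) : ((g * x * g⁻¹ : GLC) : MatC).trace = (x : MatC).trace := by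
  simp only [Units.val_mul]
  rw [Matrix.trace_mul_comm, ← mul_assoc]
  simp

theorem det_conj (g x : GLC) : ((g * x * g⁻¹ : GLC) : MatC).det = (x : MatC).det := by
  simp only [Units.val_mul]
  rw [Matrix.det_mul, Matrix.det_mul, mul_comm (g : MatC).det, mul_assoc, ← Matrix.det_mul]
  simp

/-- balls of the letters, given the balls of the variables -/
def gensB (x0 x1 x2 : CB) : ℕ → M4 CB
  | 0 => ⟨cc 1, x0, cc 0, cc 1⟩
  | 1 => ⟨cc 1, x0.neg, cc 0, cc 1⟩
  | 2 => ⟨cc 0, cc (-1), cc 1, cc (-1)⟩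
  | 3 => ⟨cc (-1), cc 1, cc (-1), cc 0⟩
  | 4 => ⟨(cI.mul x1).sub x2, ((cc 1).sub cI).mul (x1.mul x2), cI.sub (cc 1), x1.sub (cI.mul x2)⟩
  | 5 => ⟨(cI.mul x1).neg.sub x2, (cI.add (cc 1)).mul (x1.mul x2), (cc (-1)).sub cI, x1.add (cI.mul x2)⟩
  | _ => CBM.one

theorem mem_gensB {u : V3} {x0 x1 x2 : CB} (h0 : x0.Mem (u 0)) (h1 : x1.Mem (u 1)) (h2 : x2.Mem (u 2)) :
    ∀ i, CBM.Mem (gensB x0 x1 x2 i) (gensM u i) := by
  have m0 : (cc 0).Mem 0 := by simpa [cc] using CB.mem_ofInt 0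
  have m1 : (cc 1).Mem 1 := by simpa [cc] using CB.mem_ofInt 1
  have mm1 : (cc (-1)).Mem (-1) := by simpa [cc] using CB.mem_ofInt (-1)
  have mI := mem_cI
  intro i
  match i with
  | 0 => exact ⟨by simpa [gensM, gensB] using m1, by simpa [gensM, gensB] using h0, by simpa [gensM, gensB] using m0, by simpa [gensM, gensB] using m1⟩
  | 1 => exact ⟨by simpa [gensM, gensB] using m1, by simpa [gensM, gensB] using h0.neg, by simpa [gensM, gensB] using m0, by simpa [gensM, gensB] using m1⟩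
  | 2 => exact ⟨by simpa [gensM, gensB] using m0, by simpa [gensM, gensB] using mm1, by simpa [gensM, gensB] using m1, by simpa [gensM, gensB] using mm1⟩
  | 3 => exact ⟨by simpa [gensM, gensB] using mm1, by simpa [gensM, gensB] using m1, by simpa [gensM, gensB] using mm1, by simpa [gensM, gensB] using m0⟩
  | 4 =>
    refine ⟨?_, ?_, ?_, ?_⟩
    · simpa [gensM, gensB] using (mI.mul h1).sub h2
    · simpa [gensM, gensB] using (m1.sub mI).mul (h1.mul h2)
    · simpa [gensM, gensB] using mI.sub m1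
    · simpa [gensM, gensB] using h1.sub (mI.mul h2)
  | 5 =>
    refine ⟨?_, ?_, ?_, ?_⟩
    · simpa [gensM, gensB] using (mI.mul h1).neg.sub h2
    · simpa [gensM, gensB] using (mI.add m1).mul (h1.mul h2)
    · simpa [gensM, gensB] using mm1.sub mI
    · simpa [gensM, gensB] using h1.add (mI.mul h2)
  | n + 6 => exact CBM.mem_one

/-- the balls of the unknowns -/
def gB : ℕ → M4 CB := gensB ⟨cen 0, rho⟩ ⟨cen 1, rho⟩ ⟨cen 2, rho⟩

theorem mem_gB {u : V3} (hu : u ∈ box cen rho) (i : ℕ) : CBM.Mem (gB i) (gensM u i) :=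
  mem_gensB (mem_box_CB hu 0) (mem_box_CB hu 1) (mem_box_CB hu 2) i

theorem kappa_ne {u : V3} (hu : u ∈ box cen rho) : u 1 - u 2 ≠ 0 := by
  refine CB.ne_zero ((mem_box_CB hu 1).sub (mem_box_CB hu 2)) ?_
  decide +kernel

theorem X10_ne {u : V3} (hu : u ∈ box cen rho) : wordM (gensM u) wX 1 0 ≠ 0 := by
  refine CB.ne_zero (CBM.mem_word (mem_gB hu) wX).2.2.1 ?_
  decide +kernel

theorem gW_cons (u : V3) (h : u 1 - u 2 ≠ 0) (i : ℕ) (w : List ℕ) : gW u h (i :: w) = gW u h [i] * gW u h w := by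
  match i with
  | 0 => simp [gW]
  | 1 => simp [gW]
  | 2 => simp [gW]
  | 3 => simp [gW]
  | 4 => simp [gW]
  | 5 => simp [gW]
  | n + 6 => simp [gW]

theorem gW_append (u : V3) (h : u 1 - u 2 ≠ 0) (w w' : List ℕ) : gW u h (w ++ w') = gW u h w * gW u h w' := by
  induction w with
  | nil => simp [gW]
  | cons i w ih => rw [List.cons_append, gW_cons, ih, gW_cons u h i w, mul_assoc]

/-- the relation R5 -/
theorem rel5 {u : V3} (hu : u ∈ box cen rho) (hz : ∀ i, eqF u i = 0) :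
    gW u (kappa_ne hu) [4, 1, 4, 0, 5] = gW u (kappa_ne hu) (wW ++ [4] ++ wWi) := by
  set h := kappa_ne hu
  set k := u 1 - u 2 with hk
  have eX : wordM (gensM u) wX = k ^ 3 • ((gW u h wX : GLC) : MatC) := smul_gW u h wX
  have eY : wordM (gensM u) wY = k ^ 3 • ((gW u h wY : GLC) : MatC) := smul_gW u h wY
  have hk3 : k ^ 3 ≠ 0 := pow_ne_zero _ h
  have z0 : wordM (gensM u) wX 1 0 - wordM (gensM u) wY 1 0 = 0 := hz 0
  have z1 : wordM (gensM u) wX 0 0 - wordM (gensM u) wY 0 0 = 0 := hz 1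
  have hX10 := X10_ne hu
  rw [eX] at z0 z1 hX10
  rw [eY] at z0 z1
  simp only [Matrix.smul_apply, smul_eq_mul, ← mul_sub, mul_eq_zero, hk3, false_or] at z0 z1
  simp only [Matrix.smul_apply, smul_eq_mul, ne_eq, mul_eq_zero, hk3, false_or] at hX10
  have cX : gW u h wX = (cG u h * (tG u)⁻¹) * cG u h * (cG u h * (tG u)⁻¹)⁻¹ := by
    simp [wX, gW, mul_assoc]
  have cY : gW u h wY = gW u h (wW ++ [4] ++ wWi) := by
    have : wY = (wW ++ [4] ++ wWi) ++ [4, 5] := rfl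
    rw [this, gW_append]
    simp [gW]
  have cY2 : gW u h wY = gW u h wW * cG u h * (gW u h wW)⁻¹ := by
    rw [cY, gW_append, gW_append]
    have : gW u h wWi = (gW u h wW)⁻¹ := by
      simp [wW, wWi, gW, mul_assoc]
    rw [this]
    simp [gW]
  have fin : ((gW u h wX : GLC) : MatC) = ((gW u h wY : GLC) : MatC) := by
    refine mat_eq (sub_eq_zero.1 z1) (sub_eq_zero.1 z0) ?_ ?_ hX10
    · rw [cX, cY2, trace_conj, trace_conj]
    · rw [cX, cY2, det_conj, det_conj]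
  have fin2 : gW u h wX = gW u h wY := Units.ext fin
  rw [← cY, ← fin2]
  rfl

theorem gW_inv (u : V3) (h : u 1 - u 2 ≠ 0) : (gW u h wW)⁻¹ = gW u h wWi := by
  simp [wW, wWi, gW, mul_assoc]

/-- U = b t b c t^-1 -/
def wU : List ℕ := [2, 0, 2, 4, 1]
/-- left side of R4 : c^-1 t b^-1 t^-1 c -/
def wL4 : List ℕ := [5, 0, 3, 1, 4]
/-- right side of R4 -/
def wR4 : List ℕ := [0, 5, 0, 2, 5, 3, 1, 3, 1, 3, 0, 2, 0, 2, 4, 3, 1, 4, 1]

theorem P_one (u : V3) (h : u 1 - u 2 ≠ 0) : tG u * gW u h wP * (tG u)⁻¹ = gW u h wU * gW u h wR4 := by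
  simp [wP, wU, wR4, gW, mul_assoc]

theorem P_two {u : V3} (hu : u ∈ box cen rho) (hz : ∀ i, eqF u i = 0) :
    gW u (kappa_ne hu) wP = gW u (kappa_ne hu) wU * gW u (kappa_ne hu) wL4 := by
  have h5 := rel5 hu hz
  set h := kappa_ne hu
  set W := gW u h wW with hW
  have e1 : gW u h (wW ++ [4] ++ wWi) = W * cG u h * W⁻¹ := by
    rw [gW_append, gW_append, hW, gW_inv]
    simp [gW]
  have e2 : cG u h * (tG u)⁻¹ * cG u h * tG u * (cG u h)⁻¹ = W * cG u h * W⁻¹ := by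
    rw [← e1, ← h5]
    simp [gW, mul_assoc]
  -- the word of the longitude contains c^-1 times the inverse pattern
  have e3 : gW u h wP = (tG u)⁻¹ * bG u * tG u * bG u * tG u * bG u * (cG u h)⁻¹ * W⁻¹ * cG u h * (bG u)⁻¹ * (tG u)⁻¹ * cG u h := by
    rw [hW, gW_inv]
    simp [wP, wWi, gW, mul_assoc]
  have e4 : cG u h * (tG u)⁻¹ * (cG u h)⁻¹ * tG u * (cG u h)⁻¹ = W * (cG u h)⁻¹ * W⁻¹ := by
    have := congrArg (fun z => z⁻¹) e2
    simpa [mul_assoc] using this
  have e5 : (cG u h)⁻¹ * W⁻¹ * cG u h = W⁻¹ * (cG u h * (tG u)⁻¹ * (cG u h)⁻¹ * tG u) := by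
    have e6 : (cG u h)⁻¹ * W⁻¹ * cG u h = W⁻¹ * (W * (cG u h)⁻¹ * W⁻¹) * cG u h := by simp [mul_assoc]
    rw [e6, ← e4]
    simp [mul_assoc]
  have e7 : W⁻¹ = (bG u)⁻¹ * (tG u)⁻¹ * (bG u)⁻¹ * (tG u)⁻¹ * (bG u)⁻¹ * tG u * bG u * tG u * bG u := by
    rw [hW, gW_inv]
    simp [wWi, gW, mul_assoc]
  have e8 : gW u h wP = (tG u)⁻¹ * bG u * tG u * bG u * tG u * bG u * ((cG u h)⁻¹ * W⁻¹ * cG u h) * (bG u)⁻¹ * (tG u)⁻¹ * cG u h := by
    rw [e3]; simp [mul_assoc]
  rw [e8, e5, e7]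
  simp [wU, wL4, gW, mul_assoc]

theorem U10_ne {u : V3} (hu : u ∈ box cen rho) : wordM (gensM u) wU 1 0 ≠ 0 := by
  refine CB.ne_zero (CBM.mem_word (mem_gB hu) wU).2.2.1 ?_
  decide +kernel

/-- abstract version of the trace argument -/
theorem trace_arg {t P U L R : GLC} {T : ℂ} (ht : (t : MatC) = !![1, T; 0, 1]) (hP : (P : MatC) 1 0 = 0)
    (h1 : t * P * t⁻¹ = U * R) (h2 : P = U * L) (htr : (L : MatC).trace = (R : MatC).trace)
    (hU : (U : MatC) 1 0 ≠ 0) : L = R ∧ t * P = P * t := by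
  have hPd : (P : MatC).det ≠ 0 := by
    have := (Matrix.isUnit_iff_isUnit_det _).1 P.isUnit
    exact this.ne_zero
  rw [Matrix.det_fin_two, hP, mul_zero, sub_zero] at hPd
  have hx : (P : MatC) 0 0 ≠ 0 := left_ne_zero_of_mul hPd
  have hw : (P : MatC) 1 1 ≠ 0 := right_ne_zero_of_mul hPd
  set N : GLC := t * P * t⁻¹ * P⁻¹ with hN
  have hNPt : N * (P * t) = t * P := by rw [hN]; simp [mul_assoc]
  have hNM : (N : MatC) * ((P : MatC) * (t : MatC)) = (t : MatC) * (P : MatC) := by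
    have := congrArg (fun z : GLC => (z : MatC)) hNPt
    simpa using this
  rw [ht] at hNM
  have h00 := congrFun (congrFun hNM 0) 0
  have h10 := congrFun (congrFun hNM 1) 0
  have h11 := congrFun (congrFun hNM 1) 1
  simp [Matrix.mul_apply, Fin.sum_univ_two, hP] at h00 h10 h11
  have n10 : (N : MatC) 1 0 = 0 := by
    rcases h10 with h | h
    · exact h
    · exact absurd h hx
  have n00 : (N : MatC) 0 0 = 1 := by
    have : ((N : MatC) 0 0 - 1) * (P : MatC) 0 0 = 0 := by linear_combination h00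
    rcases mul_eq_zero.1 this with h | h
    · exact sub_eq_zero.1 h
    · exact absurd h hx
  have n11 : (N : MatC) 1 1 = 1 := by
    rw [n10] at h11
    have : ((N : MatC) 1 1 - 1) * (P : MatC) 1 1 = 0 := by linear_combination h11
    rcases mul_eq_zero.1 this with h | h
    · exact sub_eq_zero.1 h
    · exact absurd h hw
  have hNR : N = U * R * L⁻¹ * U⁻¹ := by
    rw [hN, h1, h2]; simp [mul_assoc]
  have hR : R = U⁻¹ * (N * P * U⁻¹) * U := by
    rw [hNR, h2]; simp [mul_assoc]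
  have tr1 : (R : MatC).trace = ((N * (P * U⁻¹) : GLC) : MatC).trace := by
    have : R = U⁻¹ * (N * P * U⁻¹) * (U⁻¹)⁻¹ := by rw [inv_inv]; exact hR
    rw [this, trace_conj]
    simp [mul_assoc]
  have tr2 : (L : MatC).trace = ((P * U⁻¹ : GLC) : MatC).trace := by
    have : P * U⁻¹ = U * L * U⁻¹ := by rw [h2]
    rw [this, trace_conj]
  have tr3 : ((N * (P * U⁻¹) : GLC) : MatC).trace = ((P * U⁻¹ : GLC) : MatC).trace + (N : MatC) 0 1 * ((P * U⁻¹ : GLC) : MatC) 1 0 := by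
    set Q := ((P * U⁻¹ : GLC) : MatC) with hQ
    have : ((N * (P * U⁻¹) : GLC) : MatC) = (N : MatC) * Q := by rw [hQ]; simp
    rw [this, Matrix.trace_fin_two, Matrix.trace_fin_two]
    simp only [Matrix.mul_apply, Fin.sum_univ_two, n00, n10, n11]
    ring
  have hq : (N : MatC) 0 1 * ((P * U⁻¹ : GLC) : MatC) 1 0 = 0 := by
    have : ((N * (P * U⁻¹) : GLC) : MatC).trace = ((P * U⁻¹ : GLC) : MatC).trace := by rw [← tr1, ← tr2, htr]
    rw [tr3] at this
    linear_combination this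
  have hPU : ((P * U⁻¹ : GLC) : MatC) 1 0 ≠ 0 := by
    intro h0
    -- then U⁻¹ is upper triangular
    have e1 : ((P * U⁻¹ : GLC) : MatC) 1 0 = (P : MatC) 1 1 * ((U⁻¹ : GLC) : MatC) 1 0 := by
      simp only [Units.val_mul, Matrix.mul_apply, Fin.sum_univ_two, hP]; ring
    rw [e1] at h0
    have e2 : ((U⁻¹ : GLC) : MatC) 1 0 = 0 := by
      rcases mul_eq_zero.1 h0 with h | h
      · exact absurd h hw
      · exact h
    have e3 : ((U⁻¹ : GLC) : MatC) * (U : MatC) = 1 := by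
      rw [← Units.val_mul]; simp
    have e4 := congrFun (congrFun e3 1) 0
    rw [Matrix.mul_apply, Fin.sum_univ_two, e2, zero_mul, zero_add, Matrix.one_apply_ne (by decide)] at e4
    rcases mul_eq_zero.1 e4 with h | h
    · have e5 : ((U⁻¹ : GLC) : MatC).det ≠ 0 := by
        have := (Matrix.isUnit_iff_isUnit_det _).1 (U⁻¹).isUnit
        exact this.ne_zero
      rw [Matrix.det_fin_two, e2, h] at e5
      simp at e5
    · exact hU h
  have n01 : (N : MatC) 0 1 = 0 := by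
    rcases mul_eq_zero.1 hq with h | h
    · exact h
    · exact absurd h hPU
  have hN1 : N = 1 := by
    apply Units.ext
    ext i j
    fin_cases i <;> fin_cases j <;> simp [n00, n01, n10, n11]
  constructor
  · have : U * R * L⁻¹ * U⁻¹ = 1 := by rw [← hNR, hN1]
    have h3 : R * L⁻¹ = 1 := by
      have h4 : R * L⁻¹ = U⁻¹ * (U * R * L⁻¹ * U⁻¹) * U := by simp [mul_assoc]
      rw [h4, this]; simp
    exact (mul_inv_eq_one.1 h3).symm
  · have : t * P * t⁻¹ * P⁻¹ = 1 := by rw [← hN, hN1]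
    rw [← hNPt, hN1, one_mul]

theorem rel4 {u : V3} (hu : u ∈ box cen rho) (hz : ∀ i, eqF u i = 0) :
    gW u (kappa_ne hu) wL4 = gW u (kappa_ne hu) wR4 ∧
    tG u * gW u (kappa_ne hu) wP = gW u (kappa_ne hu) wP * tG u := by
  set h := kappa_ne hu
  refine trace_arg (T := u 0) (U := gW u h wU) rfl ?_ (P_one u h) (P_two hu hz) ?_ ?_
  · have z2 : wordM (gensM u) wP 1 0 = 0 := hz 2
    rw [smul_gW u h, Matrix.smul_apply, smul_eq_mul] at z2
    rcases mul_eq_zero.1 z2 with h0 | h0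
    · exact absurd h0 (pow_ne_zero _ h)
    · exact h0
  · have e1 : gW u h wL4 = ((cG u h)⁻¹ * tG u) * (bG u)⁻¹ * ((cG u h)⁻¹ * tG u)⁻¹ := by
      simp [wL4, gW, mul_assoc]
    have e2 : gW u h wR4 = (gW u h [0, 5, 0, 2, 5, 3, 1, 3, 1]) * (bG u)⁻¹ * (gW u h [0, 5, 0, 2, 5, 3, 1, 3, 1])⁻¹ := by
      simp [wR4, gW, mul_assoc]
    rw [e1, e2, trace_conj, trace_conj]
  · intro h0
    apply U10_ne hu
    rw [smul_gW u h, Matrix.smul_apply, h0, smul_zero]

/-- the representation -/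
theorem exists_rep : ∃ (u : V3) (hu : u ∈ box cen rho),
    gW u (kappa_ne hu) [4, 1, 4, 0, 5] = gW u (kappa_ne hu) (wW ++ [4] ++ wWi) ∧
    gW u (kappa_ne hu) wL4 = gW u (kappa_ne hu) wR4 ∧
    tG u * gW u (kappa_ne hu) wP = gW u (kappa_ne hu) wP * tG u ∧
    bG u ^ 3 = 1 ∧ cG u (kappa_ne hu) ^ 4 = 1 := by
  obtain ⟨u, hu, hz⟩ := exists_zero
  exact ⟨u, hu, rel5 hu hz, (rel4 hu hz).1, (rel4 hu hz).2, bG_pow u, cG_pow u _⟩

end Helper46.DFJ

end
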